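import Pool.Agent.RSMonic.Search

/-!
# The search is partial recursive
-/

set_option autoImplicit false

namespace Pool.Agent.RSMonic

open Primrec

abbrev Wd : Type := List (ℕ × Bool)

theorem subst_primrec : Primrec fun p : (ℕ × List Wd) × Wd => subst p.1.1 p.1.2 p.2 := by
  unfold subst
  refine list_flatMap snd ?_
  have hA : Primrec fun q : ((ℕ × List Wd) × Wd) × (ℕ × Bool) => q.1.1.2.getD q.2.1 [] :=
    (list_getD []).comp (snd.comp (fst.comp fst)) (fst.comp snd)
  refine Primrec.ite (nat_lt.comp (fst.comp snd) (fst.comp (fst.comp fst)))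
    (Primrec.ite (Primrec.eq.comp (snd.comp snd) (const true)) hA (inv_primrec.comp hA))
    (list_cons.comp snd (const []))

theorem autOK_primrec : Primrec fun p : ℕ × List Wd × List Wd => autOK p.1 p.2.1 p.2.2 := by
  unfold autOK
  refine PrimrecPred.decide ?_
  have h1 : Primrec fun q : ℕ × (ℕ × List Wd × List Wd) =>
      FreeGroup.reduce (subst q.2.1 q.2.2.1 (q.2.2.2.getD q.1 [])) :=
    reduce_primrec.comp (subst_primrec.comp (Primrec.pair (Primrec.pair (fst.comp snd)
      (fst.comp (snd.comp snd))) ((list_getD []).comp (snd.comp (snd.comp snd)) fst)))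
  have h2 : Primrec fun q : ℕ × (ℕ × List Wd × List Wd) =>
      FreeGroup.reduce (subst q.2.1 q.2.2.2 (q.2.2.1.getD q.1 [])) :=
    reduce_primrec.comp (subst_primrec.comp (Primrec.pair (Primrec.pair (fst.comp snd)
      (snd.comp (snd.comp snd))) ((list_getD []).comp (fst.comp (snd.comp snd)) fst)))
  have h3 : Primrec fun q : ℕ × (ℕ × List Wd × List Wd) => ([(q.1, true)] : Wd) :=
    list_cons.comp (Primrec.pair fst (const true)) (const [])
  have hR : PrimrecRel fun (i : ℕ) (p : ℕ × List Wd × List Wd) =>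
      FreeGroup.reduce (subst p.1 p.2.1 (p.2.2.getD i [])) = [(i, true)] ∧
        FreeGroup.reduce (subst p.1 p.2.2 (p.2.1.getD i [])) = [(i, true)] :=
    PrimrecPred.and (Primrec.eq.comp h1 h3) (Primrec.eq.comp h2 h3)
  exact (PrimrecRel.forall_mem_list hR).comp (list_range.comp fst) Primrec.id

theorem validB_primrec : Primrec fun p : ℕ × ℕ × ℕ × LW => validB p.1 p.2.1 p.2.2.1 p.2.2.2 := by
  unfold validB
  have hn : Primrec fun p : ℕ × ℕ × ℕ × LW => p.1 := fst
  have hκ : Primrec fun p : ℕ × ℕ × ℕ × LW => p.2.1 := fst.comp snd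
  have hK : Primrec fun p : ℕ × ℕ × ℕ × LW => p.2.2.1 := fst.comp (snd.comp snd)
  have hW : Primrec fun p : ℕ × ℕ × ℕ × LW => p.2.2.2 := snd.comp (snd.comp snd)
  refine Primrec.and.comp (Primrec.and.comp (Primrec.and.comp (Primrec.and.comp ?_ ?_) ?_) ?_) ?_
  · exact PrimrecPred.decide (nat_le.comp (const 2) hn)
  · exact PrimrecPred.decide (nat_le.comp hκ hK)
  · exact PrimrecPred.decide (Primrec.eq.comp (reduce_primrec.comp hW) hW)
  · refine PrimrecPred.decide ?_
    have z1 : Primrec fun q : ((ℕ × ℕ) × Bool) × (ℕ × ℕ × ℕ × LW) => q.1.1.1 :=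
      fst.comp (fst.comp fst)
    have z2 : Primrec fun q : ((ℕ × ℕ) × Bool) × (ℕ × ℕ × ℕ × LW) => q.1.1.2 :=
      snd.comp (fst.comp fst)
    have hR : PrimrecRel fun (z : (ℕ × ℕ) × Bool) (p : ℕ × ℕ × ℕ × LW) =>
        (z.1.1 = 1 ∧ p.2.1 ≤ z.1.2 ∧ z.1.2 < p.2.2.1) ∨ (2 ≤ z.1.1 ∧ z.1.1 < p.1) := by
      refine PrimrecPred.or (PrimrecPred.and (Primrec.eq.comp z1 (const 1))
        (PrimrecPred.and (nat_le.comp (hκ.comp snd) z2) (nat_lt.comp z2 (hK.comp snd))))
        (PrimrecPred.and (nat_le.comp (const 2) z1) (nat_lt.comp z1 (hn.comp snd)))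
    exact (PrimrecRel.forall_mem_list hR).comp hW Primrec.id
  · refine Primrec.or.comp (PrimrecPred.decide (Primrec.eq.comp hκ hK)) (PrimrecPred.decide ?_)
    have hR : PrimrecRel fun (z : (ℕ × ℕ) × Bool) (p : ℕ × ℕ × ℕ × LW) => z.1 = (1, p.2.1) :=
      Primrec.eq.comp (fst.comp fst) (Primrec.pair (const 1) (hκ.comp snd))
    exact (PrimrecRel.exists_mem_list hR).comp hW Primrec.id

theorem check_primrec : Primrec₂ check := by
  unfold check
  have hn : Primrec fun q : (ℕ × Wd) × CertT => q.1.1 := fst.comp fst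
  have hr : Primrec fun q : (ℕ × Wd) × CertT => q.1.2 := snd.comp fst
  have hA : Primrec fun q : (ℕ × Wd) × CertT => q.2.1.1 := fst.comp (fst.comp snd)
  have hB : Primrec fun q : (ℕ × Wd) × CertT => q.2.1.2 := snd.comp (fst.comp snd)
  have hκ : Primrec fun q : (ℕ × Wd) × CertT => q.2.2.1 := fst.comp (snd.comp snd)
  have hK : Primrec fun q : (ℕ × Wd) × CertT => q.2.2.2.1 := fst.comp (snd.comp (snd.comp snd))
  have hW : Primrec fun q : (ℕ × Wd) × CertT => q.2.2.2.2 := snd.comp (snd.comp (snd.comp snd))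
  have hrel : Primrec fun q : (ℕ × Wd) × CertT => monicRel q.2.2.2.1 q.2.2.2.2 :=
    monicRel_primrec.comp (Primrec.pair hK hW)
  have hsub : Primrec fun q : (ℕ × Wd) × CertT => FreeGroup.reduce (subst q.1.1 q.2.1.1 q.1.2) :=
    reduce_primrec.comp (subst_primrec.comp (Primrec.pair (Primrec.pair hn hA) hr))
  refine Primrec.and.comp (Primrec.and.comp ?_ ?_) (Primrec.or.comp ?_ ?_)
  · exact validB_primrec.comp (Primrec.pair hn (Primrec.pair hκ (Primrec.pair hK hW)))
  · exact autOK_primrec.comp (Primrec.pair hn (Primrec.pair hA hB))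
  · exact PrimrecPred.decide (Primrec.eq.comp hsub (reduce_primrec.comp hrel))
  · exact PrimrecPred.decide (Primrec.eq.comp hsub (reduce_primrec.comp (inv_primrec.comp hrel)))

theorem step_primrec : Primrec₂ step := by
  unfold step
  refine Primrec.option_bind (Primrec.decode.comp snd) ?_
  refine Primrec.ite (Primrec.eq.comp (check_primrec.comp (fst.comp fst) snd) (const true))
    (option_some.comp (dec_primrec.comp ?_)) (const none)
  exact Primrec.pair (fst.comp (snd.comp snd))
    (Primrec.pair (fst.comp (snd.comp (snd.comp snd))) (snd.comp (snd.comp (snd.comp snd))))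

/-- the search -/
def search (p : ℕ × Wd) : Part Bool := Nat.rfindOpt (step p)

theorem search_partrec : Partrec search :=
  Partrec.rfindOpt step_primrec.to_comp

theorem search_sound (n : ℕ) (r : Wd) (b : Bool) (h : b ∈ search (n, r)) :
    b = true ↔ RS (OneRel n r) := by
  obtain ⟨m, hm⟩ := Nat.rfindOpt_spec h
  rw [step, Option.mem_def, Option.bind_eq_some_iff] at hm
  obtain ⟨c, _, hc⟩ := hm
  by_cases hch : check (n, r) c = true
  · rw [if_pos hch, Option.some.injEq] at hc
    rw [← hc]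
    exact check_sound n r c hch
  · rw [if_neg hch] at hc
    exact absurd hc (by simp)

theorem search_dom (n : ℕ) (r : Wd) (h : ∃ c, check (n, r) c = true) : (search (n, r)).Dom := by
  obtain ⟨c, hc⟩ := h
  rw [search, Nat.rfindOpt_dom]
  refine ⟨Encodable.encode c, dec c.2.1 c.2.2.1 c.2.2.2, ?_⟩
  rw [step, Encodable.encodek, Option.bind_some, if_pos hc]
  exact rfl

end Pool.Agent.RSMonic
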