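import Pool.Agent.RSMonic.Defs

/-!
# The Fox test on words
-/

set_option autoImplicit false

namespace Pool.Agent.RSMonic

open FreeGroup (of)

section General

theorem mem_comm_ker_iff {Y Γ : Type*} [Group Γ] (f : FreeGroup Y →* Γ) (x : FreeGroup Y) :
    x ∈ ⁅f.ker, f.ker⁆ ↔ f x = 1 ∧ fox f x = 0 := by
  constructor
  · intro h
    refine ⟨?_, fox_eq_zero_of_mem f h⟩
    have : ⁅f.ker, f.ker⁆ ≤ f.ker := Subgroup.commutator_le_left _ _
    exact MonoidHom.mem_ker.mp (this h)
  · rintro ⟨h, h'⟩
    exact mem_of_fox_eq_zero f h h'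

theorem fox_map {X Z Γ : Type*} [Group Γ] (j : X → Z) (f : FreeGroup Z →* Γ) (x : FreeGroup X) :
    fox f (FreeGroup.map j x) = Finsupp.mapDomain j (fox (f.comp (FreeGroup.map j)) x) := by
  rw [fox_chain (FreeGroup.map j) f x, Finsupp.mapDomain]
  refine Finsupp.sum_congr fun y _ => ?_
  rw [FreeGroup.map.of, fox_of, Finsupp.smul_single, smul_eq_mul, mul_one]

/-- restriction of `[ker, ker]` to a free factor -/
theorem mem_commutator_ker_map {X Z Γ : Type*} [Group Γ] (j : X → Z) (hj : Function.Injective j)
    (f : FreeGroup Z →* Γ) (x : FreeGroup X) :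
    FreeGroup.map j x ∈ ⁅f.ker, f.ker⁆ ↔
      x ∈ ⁅(f.comp (FreeGroup.map j)).ker, (f.comp (FreeGroup.map j)).ker⁆ := by
  rw [mem_comm_ker_iff, mem_comm_ker_iff, fox_map]
  refine and_congr (by simp) ?_
  constructor
  · intro h
    exact Finsupp.mapDomain_injective hj (by rw [h, Finsupp.mapDomain_zero])
  · intro h
    rw [h, Finsupp.mapDomain_zero]

theorem mem_wordsLE {β : Type*} (A : List β) (n : ℕ) (l : List β) :
    l ∈ wordsLE A n ↔ l.length ≤ n ∧ ∀ a ∈ l, a ∈ A := by
  induction n generalizing l with
  | zero =>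
    simp only [wordsLE, List.mem_singleton, Nat.le_zero, List.length_eq_zero_iff]
    constructor
    · rintro rfl
      simp
    · exact fun h => h.1
  | succ n ih =>
    simp only [wordsLE, List.mem_cons, List.mem_flatMap, List.mem_map]
    constructor
    · rintro (rfl | ⟨l', hl', a, ha, rfl⟩)
      · simp
      · obtain ⟨h1, h2⟩ := (ih l').mp hl'
        refine ⟨by simpa using h1, ?_⟩
        intro b hb
        rcases List.mem_cons.mp hb with rfl | hb
        · exact ha
        · exact h2 b hb
    · rintro ⟨h1, h2⟩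
      cases l with
      | nil => exact Or.inl rfl
      | cons a l' =>
        refine Or.inr ⟨l', (ih l').mpr ⟨by simpa using h1, fun b hb => h2 b (List.mem_cons_of_mem _ hb)⟩,
          a, h2 a List.mem_cons_self, rfl⟩

end General

section Theta

variable (K k : ℕ) (h : LW)

theorem mk_inv_eq {α : Type*} (W : List (α × Bool)) :
    (FreeGroup.mk (inv W) : FreeGroup α) = (FreeGroup.mk W)⁻¹ := by
  rw [FreeGroup.inv_mk]
  rfl

/-- `ψ_h` as a homomorphism -/
noncomputable def psiHom : Monoid.End (FreeGroup (ℕ × ℕ)) :=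
  FreeGroup.lift fun p => FreeGroup.mk (psiLetter K h (p, true))

theorem mk_psiLetter_false (p : ℕ × ℕ) :
    (FreeGroup.mk (psiLetter K h (p, false)) : FreeGroup (ℕ × ℕ)) =
      (FreeGroup.mk (psiLetter K h (p, true)))⁻¹ := by
  unfold psiLetter
  by_cases h1 : p.1 = 1 ∧ p.2 + 1 = K
  · simp [h1, mk_inv_eq]
  · simp only [h1, if_false]
    rw [FreeGroup.inv_mk]
    rfl

theorem psiHom_of (p : ℕ × ℕ) : psiHom K h (of p) = FreeGroup.mk (psiLetter K h (p, true)) :=
  FreeGroup.lift_apply_of

theorem psiHom_mk (v : LW) : psiHom K h (FreeGroup.mk v) = FreeGroup.mk (psi K h v) := by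
  induction v with
  | nil =>
    change psiHom K h 1 = 1
    rw [map_one]
  | cons z v ih =>
    have e1 : (FreeGroup.mk (z :: v) : FreeGroup (ℕ × ℕ)) = FreeGroup.mk [z] * FreeGroup.mk v := by
      rw [FreeGroup.mul_mk]
      rfl
    have e2 : psi K h (z :: v) = psiLetter K h z ++ psi K h v := rfl
    rw [e1, map_mul, ih, e2, ← FreeGroup.mul_mk]
    congr 1
    obtain ⟨p, b⟩ := z
    cases b with
    | true =>
      exact psiHom_of K h p
    | false =>
      have : (FreeGroup.mk [(p, false)] : FreeGroup (ℕ × ℕ)) = (of p)⁻¹ := rfl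
      rw [this, map_inv, mk_psiLetter_false, psiHom_of]

theorem psiHom_pow_mk (v : LW) :
    (psiHom K h ^ k : Monoid.End (FreeGroup (ℕ × ℕ))) (FreeGroup.mk v) =
      FreeGroup.mk (theta K k h v) := by
  induction k generalizing v with
  | zero => rfl
  | succ k ih =>
    rw [pow_succ]
    change (psiHom K h ^ k : Monoid.End (FreeGroup (ℕ × ℕ))) (psiHom K h (FreeGroup.mk v)) = _
    rw [psiHom_mk, ih]
    rfl

/-- the homomorphism `θ = ψ_h^k` -/
noncomputable def thetaHom : FreeGroup (ℕ × ℕ) →* FreeGroup (ℕ × ℕ) :=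
  FreeGroup.lift fun p => FreeGroup.mk (theta K k h [(p, true)])

theorem thetaHom_eq : thetaHom K k h = (psiHom K h ^ k : Monoid.End (FreeGroup (ℕ × ℕ))) := by
  ext p
  rw [thetaHom, FreeGroup.lift_apply_of]
  exact (psiHom_pow_mk K k h [(p, true)]).symm

theorem thetaHom_mk (v : LW) : thetaHom K k h (FreeGroup.mk v) = FreeGroup.mk (theta K k h v) := by
  rw [thetaHom_eq]
  exact psiHom_pow_mk K k h v

theorem reduce_theta (v : LW) :
    FreeGroup.reduce (theta K k h v) = (thetaHom K k h (FreeGroup.mk v)).toWord := by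
  rw [thetaHom_mk, FreeGroup.toWord_mk]

/-- the last edge -/
theorem edges_concat (u : LW) (z : (ℕ × ℕ) × Bool) :
    edges K k h (u ++ [z]) = edges K k h u ++
      [(((thetaHom K k h (FreeGroup.mk (if z.2 then u else u ++ [z]))).toWord, z.1), z.2)] := by
  unfold edges
  rw [List.length_append, List.length_singleton, List.range_succ, List.map_append, List.map_singleton]
  congr 1
  · refine List.map_congr_left fun m hm => ?_
    rw [List.mem_range] at hm
    have h1 : (u ++ [z]).getD m default = u.getD m default := by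
      rw [List.getD_eq_getElem?_getD, List.getD_eq_getElem?_getD, List.getElem?_append_left hm]
    have h2 : ∀ j, j ≤ u.length → (u ++ [z]).take j = u.take j := fun j hj =>
      List.take_append_of_le_length hj
    unfold edge
    rw [h1]
    congr 3
    rw [h2]
    split_ifs <;> omega
  · congr 1
    unfold edge
    have h1 : (u ++ [z]).getD u.length default = z := by
      rw [List.getD_eq_getElem?_getD, List.getElem?_append_right le_rfl]
      simp
    rw [h1, reduce_theta]
    congr 3
    cases z.2 with
    | true => simp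
    | false =>
      have : (u ++ [z]).take (u.length + 1) = u ++ [z] := by
        rw [List.take_of_length_le]
        simp
      simp [this]

/-- number of occurrences -/
noncomputable def cnt (L : List ((LW × (ℕ × ℕ)) × Bool)) (e : (LW × (ℕ × ℕ)) × Bool) : ℤ :=
  ((L.filter fun e' => e' = e).length : ℤ)

theorem cnt_append (L L' : List ((LW × (ℕ × ℕ)) × Bool)) (e : (LW × (ℕ × ℕ)) × Bool) :
    cnt (L ++ L') e = cnt L e + cnt L' e := by
  simp [cnt]

theorem cnt_singleton (e' e : (LW × (ℕ × ℕ)) × Bool) :
    cnt [e'] e = if e' = e then 1 else 0 := by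
  unfold cnt
  rw [List.filter_singleton]
  split_ifs with h1 h2 h2 <;> simp_all

theorem coeff_fox (u : LW) (p : ℕ × ℕ) (γ : FreeGroup (ℕ × ℕ)) :
    (fox (thetaHom K k h) (FreeGroup.mk u) p).coeff γ =
      cnt (edges K k h u) ((γ.toWord, p), true) - cnt (edges K k h u) ((γ.toWord, p), false) := by
  classical
  induction u using List.reverseRecOn with
  | nil =>
    have : (FreeGroup.mk [] : FreeGroup (ℕ × ℕ)) = 1 := rfl
    rw [this, fox_one]
    simp [edges, cnt]
  | append_singleton u z ih =>
    rw [edges_concat, cnt_append, cnt_append, cnt_singleton, cnt_singleton, ← FreeGroup.mul_mk,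
      fox_mul, Finsupp.add_apply, MonoidAlgebra.coeff_add, Finsupp.add_apply, ih]
    obtain ⟨q, b⟩ := z
    cases b with
    | true =>
      have e1 : (FreeGroup.mk [(q, true)] : FreeGroup (ℕ × ℕ)) = of q := rfl
      rw [e1, fox_of, Finsupp.smul_single, smul_eq_mul, mul_one, Finsupp.single_apply]
      simp only [if_true, Prod.mk.injEq, and_true]
      by_cases hq : q = p
      · subst hq
        by_cases hγ : thetaHom K k h (FreeGroup.mk u) = γ
        · subst hγ
          simp [MonoidAlgebra.of_apply]
          ring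
        · have : ¬ (thetaHom K k h (FreeGroup.mk u)).toWord = γ.toWord := fun hh =>
            hγ (FreeGroup.toWord_injective hh)
          simp [MonoidAlgebra.of_apply, hγ, this]
      · simp [hq]
    | false =>
      have e1 : (FreeGroup.mk [(q, false)] : FreeGroup (ℕ × ℕ)) = (of q)⁻¹ := rfl
      have e3 : thetaHom K k h (FreeGroup.mk (u ++ [(q, false)])) =
          thetaHom K k h (FreeGroup.mk u) * (thetaHom K k h (of q))⁻¹ := by
        rw [← FreeGroup.mul_mk, map_mul, e1, map_inv]
      rw [e1, fox_inv, fox_of, smul_neg, ← mul_smul, ← map_mul, ← e3, Finsupp.smul_single,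
        smul_eq_mul, mul_one, Finsupp.neg_apply, Finsupp.single_apply]
      simp only [Bool.false_eq_true, if_false, Prod.mk.injEq, and_true]
      by_cases hq : q = p
      · subst hq
        by_cases hγ : thetaHom K k h (FreeGroup.mk (u ++ [(q, false)])) = γ
        · subst hγ
          simp [MonoidAlgebra.of_apply]
          ring
        · have : ¬ (thetaHom K k h (FreeGroup.mk (u ++ [(q, false)]))).toWord = γ.toWord :=
            fun hh => hγ (FreeGroup.toWord_injective hh)
          simp [MonoidAlgebra.of_apply, hγ, this]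
      · simp [hq]

theorem fox_eq_zero_iff (u : LW) :
    fox (thetaHom K k h) (FreeGroup.mk u) = 0 ↔
      ∀ (p : ℕ × ℕ) (γ : FreeGroup (ℕ × ℕ)),
        cnt (edges K k h u) ((γ.toWord, p), true) = cnt (edges K k h u) ((γ.toWord, p), false) := by
  constructor
  · intro h0 p γ
    have := coeff_fox K k h u p γ
    rw [h0] at this
    simp at this
    linarith
  · intro h0
    ext p γ
    rw [coeff_fox K k h u p γ, h0 p γ]
    simp

theorem fox_test (u : LW) :
    test K k h u = true ↔
      FreeGroup.mk u ∈ ⁅(FreeGroup.lift fun p => FreeGroup.mk (theta K k h [(p, true)])).ker,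
        (FreeGroup.lift fun p => FreeGroup.mk (theta K k h [(p, true)])).ker⁆ := by
  change _ ↔ FreeGroup.mk u ∈ ⁅(thetaHom K k h).ker, (thetaHom K k h).ker⁆
  rw [mem_comm_ker_iff, fox_eq_zero_iff]
  unfold test
  rw [Bool.and_eq_true, decide_eq_true_eq, decide_eq_true_eq, reduce_theta,
    FreeGroup.toWord_eq_nil_iff]
  refine and_congr Iff.rfl ?_
  constructor
  · intro h1 p γ
    by_cases h2 : ∃ b, ((γ.toWord, p), b) ∈ edges K k h u
    · obtain ⟨b, hb⟩ := h2
      have := h1 _ hb
      unfold cnt
      exact_mod_cast this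
    · push Not at h2
      have h3 : ∀ b, cnt (edges K k h u) ((γ.toWord, p), b) = 0 := by
        intro b
        unfold cnt
        rw [List.filter_eq_nil_iff.mpr]
        · rfl
        · intro e he
          simp only [decide_eq_true_eq]
          rintro rfl
          exact h2 b he
      rw [h3, h3]
  · intro h1 e he
    unfold edges at he
    rw [List.mem_map] at he
    obtain ⟨m, hm, rfl⟩ := he
    have := h1 (edge K k h u m).1.2
      (thetaHom K k h (FreeGroup.mk (u.take (if (u.getD m default).2 then m else m + 1))))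
    unfold cnt at this
    rw [← reduce_theta] at this
    exact_mod_cast this

end Theta

end Pool.Agent.RSMonic
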