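import Pool.Agent.RSMonic.Defs

/-!
# The presented group as an ascending HNN extension
-/

set_option autoImplicit false

namespace Pool.Agent.RSMonic

open FreeGroup (of)

/-- the letters `B_n = {j | 2 ≤ j < n} × ℕ` -/
abbrev BL (n : ℕ) : Type := {j : ℕ // 2 ≤ j ∧ j < n} × ℕ

def tauL (n : ℕ) (b : BL n) : BL n := (b.1, b.2 + 1)

/-- letter map `X_{k,n} → ℕ × ℕ`: `a_l ↦ (1, κ + l)`, `b_{j,l} ↦ (j, l)` -/
def jL (κ k n : ℕ) : Fin k ⊕ BL n → ℕ × ℕ :=
  Sum.elim (fun l => (1, κ + l.1)) (fun b => (b.1.1, b.2))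

/-- `ρ : F(ℕ × ℕ) → OneRel`, `(j,l) ↦ t^{-l} x_j t^l`. -/
def rho (n : ℕ) (r : List (ℕ × Bool)) : FreeGroup (ℕ × ℕ) →* OneRel n r :=
  FreeGroup.lift fun p => (PresentedGroup.of 0)⁻¹ ^ p.2 * PresentedGroup.of p.1 * PresentedGroup.of 0 ^ p.2

section Pres

variable {H : Type*} [Group H]

/-- evaluation of level words, `(j,l) ↦ (f 0)^{-l} (f j) (f 0)^l`. -/
def presEv (f : ℕ → H) : FreeGroup (ℕ × ℕ) →* H :=
  FreeGroup.lift fun p => (f 0)⁻¹ ^ p.2 * f p.1 * f 0 ^ p.2

theorem pres_mk_append {α : Type*} (L L' : List (α × Bool)) :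
    FreeGroup.mk (L ++ L') = FreeGroup.mk L * FreeGroup.mk L' := FreeGroup.mul_mk.symm

theorem pres_mk_cons {α : Type*} (z : α × Bool) (L : List (α × Bool)) :
    FreeGroup.mk (z :: L) = FreeGroup.mk [z] * FreeGroup.mk L := by
  rw [← List.singleton_append, pres_mk_append]

theorem pres_mk_inv {α : Type*} (L : List (α × Bool)) :
    FreeGroup.mk (inv L) = (FreeGroup.mk L)⁻¹ := by
  rw [FreeGroup.inv_mk]; rfl

theorem pres_lift_single {α : Type*} (f : α → H) (z : α × Bool) :
    FreeGroup.lift f (FreeGroup.mk [z]) = if z.2 then f z.1 else (f z.1)⁻¹ := by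
  rcases z with ⟨a, b⟩
  cases b <;> simp [FreeGroup.lift_mk]

theorem pres_lift_replicate {α : Type*} (f : α → H) (z : α × Bool) (m : ℕ) :
    FreeGroup.lift f (FreeGroup.mk (List.replicate m z)) =
      (if z.2 then f z.1 else (f z.1)⁻¹) ^ m := by
  induction m with
  | zero => simp [← FreeGroup.one_eq_mk]
  | succ m ih =>
    rw [List.replicate_succ, pres_mk_cons, map_mul, ih, pres_lift_single, pow_succ']

theorem pres_expandLetter (f : ℕ → H) (z : (ℕ × ℕ) × Bool) :
    FreeGroup.lift f (FreeGroup.mk (expandLetter z)) = presEv f (FreeGroup.mk [z]) := by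
  rw [expandLetter, pres_mk_append, pres_mk_cons, map_mul, map_mul, pres_lift_replicate,
    pres_lift_single, pres_lift_replicate, presEv, pres_lift_single]
  rcases z with ⟨⟨j, l⟩, b⟩
  cases b
  · simp [mul_assoc]
  · simp [mul_assoc]

theorem pres_expand (f : ℕ → H) (W : LW) :
    FreeGroup.lift f (FreeGroup.mk (expand W)) = presEv f (FreeGroup.mk W) := by
  induction W with
  | nil => simp [expand, ← FreeGroup.one_eq_mk]
  | cons z W ih =>
    have e : expand (z :: W) = expandLetter z ++ expand W := rfl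
    rw [e, pres_mk_append, map_mul, ih, pres_expandLetter, ← map_mul, ← pres_mk_cons]

theorem pres_monicRel (f : ℕ → H) (K : ℕ) (W : LW) :
    FreeGroup.lift f (FreeGroup.mk (monicRel K W)) =
      presEv f (of (1, K)) * (presEv f (FreeGroup.mk W))⁻¹ := by
  rw [monicRel, pres_mk_append, map_mul, pres_expandLetter, pres_mk_inv, map_inv, pres_expand]
  rfl

theorem pres_ev_of (f : ℕ → H) (j l : ℕ) :
    presEv f (of (j, l)) = (f 0)⁻¹ ^ l * f j * f 0 ^ l := by
  simp [presEv]

theorem pres_ev_succ (f : ℕ → H) (j l : ℕ) :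
    (f 0)⁻¹ * presEv f (of (j, l)) * f 0 = presEv f (of (j, l + 1)) := by
  rw [pres_ev_of, pres_ev_of, pow_succ', pow_succ]
  simp only [mul_assoc]

/-- evaluation of a word in a presented group -/
theorem pres_mk_eq {α : Type*} (rels : Set (FreeGroup α)) (x : FreeGroup α) :
    PresentedGroup.mk rels x = FreeGroup.lift (PresentedGroup.of (rels := rels)) x := by
  have : PresentedGroup.mk rels = FreeGroup.lift (PresentedGroup.of (rels := rels)) := by
    apply FreeGroup.ext_hom
    intro a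
    simp [PresentedGroup.of]
  rw [this]

theorem pres_rel (n K : ℕ) (W : LW) :
    rho n (monicRel K W) (of (1, K)) = rho n (monicRel K W) (FreeGroup.mk W) := by
  have h1 : PresentedGroup.mk (({FreeGroup.mk (monicRel K W)} : Set (FreeGroup ℕ)) ∪
      FreeGroup.of '' Set.Ici n) (FreeGroup.mk (monicRel K W)) = 1 :=
    PresentedGroup.one_of_mem (Or.inl rfl)
  rw [pres_mk_eq, pres_monicRel] at h1
  exact mul_inv_eq_one.1 h1

/-- conjugation by `t` on the image of the free group, checked on letters -/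
theorem pres_conj {X : Type*} (ι : FreeGroup X →* H) (t : H) (φ : Monoid.End (FreeGroup X))
    (h : ∀ x : X, t⁻¹ * ι (of x) * t = ι (φ (of x))) (x : FreeGroup X) :
    t⁻¹ * ι x * t = ι (φ x) := by
  have e : ((MulAut.conj t⁻¹).toMonoidHom.comp ι) = ι.comp (φ : FreeGroup X →* FreeGroup X) := by
    apply FreeGroup.ext_hom
    intro a
    have h1 : ((MulAut.conj t⁻¹).toMonoidHom.comp ι) (of a) = t⁻¹ * ι (of a) * t := by simp
    exact h1.trans (h a)
  have h2 := DFunLike.congr_fun e x
  have h1 : ((MulAut.conj t⁻¹).toMonoidHom.comp ι) x = t⁻¹ * ι x * t := by simp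
  exact h1.symm.trans h2

theorem pres_phi_lt {k : ℕ} {B : Type*} (τ : B → B) (w : FreeGroup (Fin k ⊕ B)) (l : Fin k)
    (h : l.1 + 1 < k) : phi τ w (of (Sum.inl l)) = of (Sum.inl ⟨l.1 + 1, h⟩) :=
  (FreeGroup.lift_apply_of).trans (by simp [h])

theorem pres_phi_last {k : ℕ} {B : Type*} (τ : B → B) (w : FreeGroup (Fin k ⊕ B)) (l : Fin k)
    (h : ¬ l.1 + 1 < k) : phi τ w (of (Sum.inl l)) = w :=
  (FreeGroup.lift_apply_of).trans (by simp [h])

theorem pres_phi_inr {k : ℕ} {B : Type*} (τ : B → B) (w : FreeGroup (Fin k ⊕ B)) (b : B) :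
    phi τ w (of (Sum.inr b)) = of (Sum.inr (τ b)) :=
  (FreeGroup.lift_apply_of).trans (by simp)

theorem pres_cancel (t a : H) (K : ℕ) : a = t ^ K * (t⁻¹ ^ K * a * t ^ K) * (t ^ K)⁻¹ := by
  simp only [mul_assoc, inv_pow]
  simp

theorem pres_zero (t a : H) : t⁻¹ ^ 0 * a * t ^ 0 = a := by simp

theorem pres_cancel2 (T a : H) (m d : ℕ) :
    T ^ m * (T⁻¹ ^ (m + d) * (T ^ d * a * T⁻¹ ^ d) * T ^ (m + d)) * T⁻¹ ^ m = a := by
  rw [pow_add T⁻¹ m d, pow_add T m d, pow_mul_comm T m d]
  simp only [mul_assoc, inv_pow]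
  simp

end Pres

theorem pres (n κ K : ℕ) (W : LW) (hn : 2 ≤ n) (hκ : κ ≤ K) (w : FreeGroup (Fin (K - κ) ⊕ BL n))
    (hw : FreeGroup.map (jL κ (K - κ) n) w = FreeGroup.mk W)
    (hinj : Function.Injective (phi (tauL n) w)) :
    let ι : FreeGroup (Fin (K - κ) ⊕ BL n) →* OneRel n (monicRel K W) :=
      (rho n (monicRel K W)).comp (FreeGroup.map (jL κ (K - κ) n))
    let t : OneRel n (monicRel K W) := PresentedGroup.of 0
    Function.Injective ι ∧ (∀ x, t⁻¹ * ι x * t = ι (phi (tauL n) w x)) ∧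
      Subgroup.closure (Set.range ι ∪ {t}) = ⊤ := by
  intro ι t
  have hrho : rho n (monicRel K W) = presEv (PresentedGroup.of (rels :=
    (({FreeGroup.mk (monicRel K W)} : Set (FreeGroup ℕ)) ∪ FreeGroup.of '' Set.Ici n))) := rfl
  have hιw : ι w = rho n (monicRel K W) (of (1, K)) := by
    rw [pres_rel, ← hw]; rfl
  have hconj : ∀ x, t⁻¹ * ι x * t = ι (phi (tauL n) w x) := by
    apply pres_conj
    rintro (l | b)
    · have e1 : ι (of (Sum.inl l)) = rho n (monicRel K W) (of (1, κ + l.1)) := by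
        simp [ι, jL]
      rw [e1, hrho, pres_ev_succ, ← hrho]
      by_cases h : l.1 + 1 < K - κ
      · have e2 : phi (tauL n) w (of (Sum.inl l)) = of (Sum.inl ⟨l.1 + 1, h⟩) := by
          exact pres_phi_lt _ _ _ h
        rw [e2]
        simp [ι, jL, add_assoc]
      · have e2 : phi (tauL n) w (of (Sum.inl l)) = w := pres_phi_last _ _ _ h
        have e3 : κ + l.1 + 1 = K := by have := l.2; omega
        rw [e2, hιw, e3]
    · have e1 : ι (of (Sum.inr b)) = rho n (monicRel K W) (of (b.1.1, b.2)) := by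
        simp [ι, jL]
      rw [e1, hrho, pres_ev_succ, ← hrho]
      have e2 : phi (tauL n) w (of (Sum.inr b)) = of (Sum.inr (tauL n b)) := pres_phi_inr _ _ _
      rw [e2]
      simp [ι, jL, tauL]
  refine ⟨?_, hconj, ?_⟩
  · -- injectivity through the HNN extension
    let φ : FreeGroup (Fin (K - κ) ⊕ BL n) →* FreeGroup (Fin (K - κ) ⊕ BL n) := phi (tauL n) w
    let e : (⊤ : Subgroup (FreeGroup (Fin (K - κ) ⊕ BL n))) ≃* φ.range :=
      Subgroup.topEquiv.trans (MonoidHom.ofInjective (f := φ) hinj)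
    let E := HNNExtension (FreeGroup (Fin (K - κ) ⊕ BL n)) ⊤ φ.range e
    let T : E := HNNExtension.t
    let o : FreeGroup (Fin (K - κ) ⊕ BL n) →* E := HNNExtension.of
    have hT : ∀ x, T * o x * T⁻¹ = o (φ x) := by
      intro x
      have := HNNExtension.equiv_eq_conj (φ := e) (⟨x, Subgroup.mem_top x⟩ : (⊤ : Subgroup _))
      rw [← this]
      rfl
    let f : ℕ → E := fun j => if j = 0 then T⁻¹ else if j = 1 then T⁻¹ ^ K * o w * T ^ K else
      if h : 2 ≤ j ∧ j < n then o (of (Sum.inr (⟨j, h⟩, 0))) else 1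
    have f0 : f 0 = T⁻¹ := by simp [f]
    have f1 : f 1 = T⁻¹ ^ K * o w * T ^ K := by simp [f]
    have f2 : ∀ j (h : 2 ≤ j ∧ j < n), f j = o (of (Sum.inr (⟨j, h⟩, 0))) := by
      intro j h
      have h1 : j ≠ 0 := by omega
      have h2 : j ≠ 1 := by omega
      simp only [f, if_neg h1, if_neg h2, dif_pos h]
    have f3 : ∀ j, n ≤ j → f j = 1 := by
      intro j h
      have h1 : j ≠ 0 := by omega
      have h2 : j ≠ 1 := by omega
      have h3 : ¬ (2 ≤ j ∧ j < n) := by omega
      simp only [f, if_neg h1, if_neg h2, dif_neg h3]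
    -- evaluation on the free group on X is o
    have ha : ∀ d, ∀ l : Fin (K - κ), l.1 + (d + 1) = K - κ →
        T ^ (d + 1) * o (of (Sum.inl l)) * T⁻¹ ^ (d + 1) = o w := by
      intro d
      induction d with
      | zero =>
        intro l hl
        have e2 : φ (of (Sum.inl l)) = w := pres_phi_last _ _ _ (by omega)
        rw [zero_add, pow_one, pow_one, hT, e2]
      | succ d ih =>
        intro l hl
        have h : l.1 + 1 < K - κ := by omega
        have e2 : φ (of (Sum.inl l)) = of (Sum.inl ⟨l.1 + 1, h⟩) := pres_phi_lt _ _ _ h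
        have e3 := ih ⟨l.1 + 1, h⟩ (by simp only; omega)
        rw [← e2, ← hT] at e3
        rw [← e3, pow_succ T (d + 1), pow_succ' T⁻¹ (d + 1)]
        simp only [mul_assoc]
    have hev : ∀ x, presEv f (FreeGroup.map (jL κ (K - κ) n) x) = o x := by
      intro x
      have : (presEv f).comp (FreeGroup.map (jL κ (K - κ) n)) = o := by
        apply FreeGroup.ext_hom
        rintro (l | ⟨j, l⟩)
        · have e1 : ((presEv f).comp (FreeGroup.map (jL κ (K - κ) n))) (of (Sum.inl l)) =
              presEv f (of (1, κ + l.1)) := by simp [jL]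
          rw [e1, pres_ev_of, f0, f1, inv_inv]
          obtain ⟨d, hd⟩ : ∃ d, l.1 + (d + 1) = K - κ := ⟨K - κ - l.1 - 1, by have := l.2; omega⟩
          have h1 := ha d l hd
          have h2 : κ + l.1 + (d + 1) = K := by omega
          have h3 := pres_cancel2 T (o (of (Sum.inl l))) (κ + l.1) (d + 1)
          rw [h2, h1] at h3
          exact h3
        · have e1 : ((presEv f).comp (FreeGroup.map (jL κ (K - κ) n))) (of (Sum.inr (j, l))) =
              presEv f (of (j.1, l)) := by simp [jL]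
          rw [e1, pres_ev_of, f0, f2 j.1 j.2, inv_inv]
          induction l with
          | zero => simp
          | succ l ih =>
            have e2 : φ (of (Sum.inr (j, l))) = of (Sum.inr (j, l + 1)) := pres_phi_inr _ _ _
            rw [← e2, ← hT, ← ih (by simp [jL]), pow_succ', pow_succ]
            simp only [mul_assoc]
      exact DFunLike.congr_fun this x
    have hrel : ∀ r ∈ (({FreeGroup.mk (monicRel K W)} : Set (FreeGroup ℕ)) ∪
        FreeGroup.of '' Set.Ici n), FreeGroup.lift f r = 1 := by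
      rintro r (hr | ⟨j, hj, rfl⟩)
      · rw [Set.mem_singleton_iff.1 hr, pres_monicRel, ← hw, hev, pres_ev_of, f0, f1, inv_inv]
        simp only [mul_assoc, inv_pow]
        simp
      · simpa using f3 j hj
    let Θ : OneRel n (monicRel K W) →* E := PresentedGroup.toGroup hrel
    have hΘ : ∀ x, Θ (ι x) = o x := by
      intro x
      rw [← hev x]
      have : Θ.comp (rho n (monicRel K W)) = presEv f := by
        apply FreeGroup.ext_hom
        rintro ⟨j, l⟩
        rw [MonoidHom.comp_apply, hrho, pres_ev_of, pres_ev_of]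
        simp only [map_mul, map_pow, map_inv, Θ, PresentedGroup.toGroup.of]
      exact DFunLike.congr_fun this _
    intro x y hxy
    apply HNNExtension.of_injective (φ := e)
    change o x = o y
    rw [← hΘ, ← hΘ, hxy]
  · rw [eq_top_iff, ← PresentedGroup.closure_range_of, Subgroup.closure_le]
    rintro _ ⟨j, rfl⟩
    have ht : t ∈ Subgroup.closure (Set.range ι ∪ {t}) := Subgroup.subset_closure (Or.inr rfl)
    have hι : ∀ x, ι x ∈ Subgroup.closure (Set.range ι ∪ {t}) := fun x =>
      Subgroup.subset_closure (Or.inl ⟨x, rfl⟩)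
    by_cases h0 : j = 0
    · subst h0; exact ht
    by_cases h1 : j = 1
    · subst h1
      have e1 := hιw
      rw [hrho, pres_ev_of] at e1
      have e2 : (PresentedGroup.of 1 : OneRel n (monicRel K W)) = t ^ K * ι w * (t ^ K)⁻¹ := by
        rw [e1]
        exact pres_cancel _ _ _
      rw [e2]
      exact mul_mem (mul_mem (pow_mem ht _) (hι _)) (inv_mem (pow_mem ht _))
    by_cases h2 : j < n
    · have e1 : ι (of (Sum.inr (⟨j, by omega, h2⟩, 0))) = PresentedGroup.of j := by
        have e2 : ι (of (Sum.inr (⟨j, by omega, h2⟩, 0))) =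
            rho n (monicRel K W) (of (j, 0)) := by simp [ι, jL]
        rw [e2, hrho, pres_ev_of]
        exact pres_zero _ _
      rw [← e1]
      exact hι _
    · have e1 : (PresentedGroup.of j : OneRel n (monicRel K W)) = 1 :=
        PresentedGroup.one_of_mem (Or.inr ⟨j, not_lt.1 h2, rfl⟩)
      rw [e1]
      exact one_mem _

end Pool.Agent.RSMonic
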