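import Pool.Agent.RSMonic.Defs

/-!
# P14: computability of the decision procedure
-/

set_option autoImplicit false

namespace Pool.Agent.RSMonic

open Primrec

section Reduce

variable {α : Type*}

/-- one step of the free reduction: put `x` in front of a reduced word. -/
def redStep [DecidableEq α] (x : α × Bool) (L : List (α × Bool)) : List (α × Bool) :=
  if L.head? = some (x.1, !x.2) then L.tail else x :: L

theorem reduce_eq_foldr [DecidableEq α] (L : List (α × Bool)) :
    FreeGroup.reduce L = L.foldr redStep [] := by
  induction L with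
  | nil => rfl
  | cons x L ih =>
    rw [FreeGroup.reduce.cons, List.foldr_cons, ← ih]
    cases hL : FreeGroup.reduce L with
    | nil => simp [redStep]
    | cons y T =>
      obtain ⟨x1, x2⟩ := x
      obtain ⟨y1, y2⟩ := y
      simp only [redStep, List.head?_cons, Option.some.injEq, Prod.mk.injEq, List.tail_cons]
      by_cases h : x1 = y1
      · subst h
        cases x2 <;> cases y2 <;> simp
      · have h' : ¬ y1 = x1 := fun e => h e.symm
        simp [h, h']

theorem signFlip_primrec [Primcodable α] : Primrec fun z : α × Bool => (z.1, !z.2) :=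
  Primrec.pair fst (Primrec.not.comp snd)

theorem redStep_primrec [Primcodable α] [DecidableEq α] :
    Primrec₂ (redStep : α × Bool → List (α × Bool) → List (α × Bool)) := by
  refine Primrec.ite (Primrec.eq.comp (list_head?.comp snd)
    (option_some.comp (signFlip_primrec.comp fst))) (list_tail.comp snd) list_cons

theorem reduce_primrec {α : Type*} [Primcodable α] [DecidableEq α] :
    Primrec (FreeGroup.reduce : List (α × Bool) → List (α × Bool)) := by
  refine (list_foldr (α := List (α × Bool)) (f := id) (g := fun _ => [])
    (h := fun _ p => redStep p.1 p.2) Primrec.id (const []) ?_).of_eq ?_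
  · exact (redStep_primrec.comp (fst.comp snd) (snd.comp snd)).to₂
  · intro L
    rw [reduce_eq_foldr]
    rfl

theorem inv_primrec [Primcodable α] : Primrec (inv : List (α × Bool) → List (α × Bool)) :=
  list_reverse.comp (list_map Primrec.id (signFlip_primrec.comp snd).to₂)

theorem replicate_primrec [Primcodable α] : Primrec₂ (List.replicate : ℕ → α → List α) := by
  refine (list_map (α := ℕ × α) (f := fun p => List.range p.1) (g := fun p _ => p.2)
    (list_range.comp fst) (snd.comp fst).to₂).of_eq ?_
  intro p
  simp

end Reduce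

/-! ## the relator -/

theorem expandLetter_primrec : Primrec expandLetter := by
  unfold expandLetter
  refine list_append.comp (replicate_primrec.comp (snd.comp fst) (const (0, false)))
    (list_cons.comp (Primrec.pair (fst.comp fst) snd)
      (replicate_primrec.comp (snd.comp fst) (const (0, true))))

theorem expand_primrec : Primrec expand :=
  list_flatMap Primrec.id (expandLetter_primrec.comp snd).to₂

theorem monicRel_primrec : Primrec fun p : ℕ × LW => monicRel p.1 p.2 := by
  unfold monicRel
  refine list_append.comp (expandLetter_primrec.comp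
    (Primrec.pair (Primrec.pair (const 1) fst) (const true))) (inv_primrec.comp
    (expand_primrec.comp snd))

/-! ## the substitution -/

theorem psiLetter_primrec :
    Primrec fun p : (ℕ × LW) × ((ℕ × ℕ) × Bool) => psiLetter p.1.1 p.1.2 p.2 := by
  unfold psiLetter
  have h1 : Primrec fun p : (ℕ × LW) × ((ℕ × ℕ) × Bool) => p.2.1.1 := fst.comp (fst.comp snd)
  have h2 : Primrec fun p : (ℕ × LW) × ((ℕ × ℕ) × Bool) => p.2.1.2 + 1 :=
    Primrec.succ.comp (snd.comp (fst.comp snd))
  have hK : Primrec fun p : (ℕ × LW) × ((ℕ × ℕ) × Bool) => p.1.1 := fst.comp fst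
  have hh : Primrec fun p : (ℕ × LW) × ((ℕ × ℕ) × Bool) => p.1.2 := snd.comp fst
  have hs : Primrec fun p : (ℕ × LW) × ((ℕ × ℕ) × Bool) => p.2.2 := snd.comp snd
  refine Primrec.ite (PrimrecPred.and (Primrec.eq.comp h1 (const 1)) (Primrec.eq.comp h2 hK))
    (Primrec.ite (Primrec.eq.comp hs (const true)) hh (inv_primrec.comp hh))
    (list_cons.comp (Primrec.pair (Primrec.pair h1 h2) hs) (const []))

theorem psi_primrec : Primrec fun p : (ℕ × LW) × LW => psi p.1.1 p.1.2 p.2 := by
  unfold psi
  exact list_flatMap snd
    (psiLetter_primrec.comp (Primrec.pair (fst.comp fst) snd)).to₂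

theorem theta_primrec : Primrec fun p : ((ℕ × ℕ) × LW) × LW => theta p.1.1.1 p.1.1.2 p.1.2 p.2 := by
  unfold theta
  refine nat_iterate (α := ((ℕ × ℕ) × LW) × LW) (f := fun p => p.1.1.2) (g := fun p => p.2)
    (h := fun p W => psi p.1.1.1 p.1.2 W) (snd.comp (fst.comp fst)) snd ?_
  exact (psi_primrec.comp (Primrec.pair (Primrec.pair
    (fst.comp (fst.comp (fst.comp fst))) (snd.comp (fst.comp fst))) snd)).to₂

/-! ## the test -/

/-- arguments of `test`. -/
abbrev TArg : Type := ((ℕ × ℕ) × LW) × LW

theorem letterAt_primrec : Primrec fun p : TArg × ℕ => p.1.2.getD p.2 default :=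
  (list_getD default).comp (snd.comp fst) snd

theorem edge_primrec :
    Primrec fun p : TArg × ℕ => edge p.1.1.1.1 p.1.1.1.2 p.1.1.2 p.1.2 p.2 := by
  unfold edge
  have hl := letterAt_primrec
  have hidx : Primrec fun p : TArg × ℕ => if (p.1.2.getD p.2 default).2 then p.2 else p.2 + 1 :=
    Primrec.ite (Primrec.eq.comp (snd.comp hl) (const true)) snd (Primrec.succ.comp snd)
  have htake : Primrec fun p : TArg × ℕ =>
      p.1.2.take (if (p.1.2.getD p.2 default).2 then p.2 else p.2 + 1) :=
    list_take.comp hidx (snd.comp fst)
  have hth : Primrec fun p : TArg × ℕ => theta p.1.1.1.1 p.1.1.1.2 p.1.1.2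
      (p.1.2.take (if (p.1.2.getD p.2 default).2 then p.2 else p.2 + 1)) :=
    theta_primrec.comp (Primrec.pair (fst.comp fst) htake)
  exact Primrec.pair (Primrec.pair (reduce_primrec.comp hth) (fst.comp hl)) (snd.comp hl)

theorem edges_primrec :
    Primrec fun p : TArg => edges p.1.1.1 p.1.1.2 p.1.2 p.2 := by
  unfold edges
  exact list_map (list_range.comp (list_length.comp snd)) edge_primrec.to₂

theorem balanced_primrecRel : PrimrecRel fun (e : (LW × (ℕ × ℕ)) × Bool)
    (L : List ((LW × (ℕ × ℕ)) × Bool)) =>
      (L.filter fun e' => e' = (e.1, true)).length =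
        (L.filter fun e' => e' = (e.1, false)).length := by
  have hf : Primrec₂ fun (L : List ((LW × (ℕ × ℕ)) × Bool)) (b : (LW × (ℕ × ℕ)) × Bool) =>
      L.filter fun a => a = b := PrimrecRel.listFilter Primrec.eq
  refine Primrec.eq.comp ?_ ?_
  · exact list_length.comp (hf.comp snd (Primrec.pair (fst.comp fst) (const true)))
  · exact list_length.comp (hf.comp snd (Primrec.pair (fst.comp fst) (const false)))

theorem test_primrec : Primrec fun p : TArg => test p.1.1.1 p.1.1.2 p.1.2 p.2 := by
  unfold test
  refine Primrec.and.comp ?_ ?_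
  · refine PrimrecPred.decide ?_
    exact Primrec.eq.comp (reduce_primrec.comp theta_primrec) (const [])
  · refine PrimrecPred.decide ?_
    exact (PrimrecRel.forall_mem_list balanced_primrecRel).comp edges_primrec edges_primrec

/-! ## words of bounded length -/

theorem wordsLE_primrec {β : Type*} [Primcodable β] :
    Primrec₂ (wordsLE : List β → ℕ → List (List β)) := by
  have hmap : Primrec₂ fun (q : List β × (ℕ × List (List β))) (l : List β) =>
      q.1.map fun a => a :: l := by
    refine Primrec.to₂ (list_map (α := (List β × (ℕ × List (List β))) × List β)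
      (f := fun q => q.1.1) (g := fun q a => a :: q.2) (fst.comp fst) ?_)
    exact (list_cons.comp snd (snd.comp fst)).to₂
  have hfl : Primrec fun q : List β × (ℕ × List (List β)) =>
      q.2.2.flatMap fun l => q.1.map fun a => a :: l :=
    list_flatMap (snd.comp snd) hmap
  refine (nat_rec (α := List β) (β := List (List β)) (f := fun _ => [[]])
    (g := fun A p => [] :: p.2.flatMap fun l => A.map fun a => a :: l) (const [[]]) ?_).of_eq ?_
  · exact (list_cons.comp (const []) hfl).to₂
  · intro A n
    induction n with
    | zero => rfl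
    | succ n ih =>
      simp only [wordsLE]
      rw [← ih]

theorem alph_primrec : Primrec₂ alph := by
  unfold alph
  have hflt : Primrec₂ fun (L : LW) (κ : ℕ) => L.filter fun z => ¬ z.1 = (1, κ) := by
    refine PrimrecRel.listFilter (R := fun (z : (ℕ × ℕ) × Bool) (κ : ℕ) => ¬ z.1 = (1, κ)) ?_
    refine PrimrecRel.not ?_
    exact Primrec.eq.comp (fst.comp fst) (Primrec.pair (const 1) snd)
  refine list_flatMap (hflt.comp snd fst) ?_
  exact (list_cons.comp snd (list_cons.comp (signFlip_primrec.comp snd) (const []))).to₂

theorem dec_primrec : Primrec fun p : ℕ × ℕ × LW => dec p.1 p.2.1 p.2.2 := by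
  unfold dec
  refine Primrec.or.comp ?_ (Primrec.not.comp ?_)
  · exact PrimrecPred.decide (Primrec.eq.comp fst (fst.comp snd))
  · refine PrimrecPred.decide ?_
    have hA : Primrec fun q : LW × (ℕ × ℕ × LW) =>
        ((((q.2.2.1, q.2.2.1 - q.2.1), q.1), q.2.2.2 ++ inv q.1) : TArg) := by
      refine Primrec.pair (Primrec.pair (Primrec.pair (fst.comp (snd.comp snd))
        (nat_sub.comp (fst.comp (snd.comp snd)) (fst.comp snd))) fst) ?_
      exact list_append.comp (snd.comp (snd.comp snd)) (inv_primrec.comp fst)
    have hR : PrimrecRel fun (h : LW) (p : ℕ × ℕ × LW) =>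
        test p.2.1 (p.2.1 - p.1) h (p.2.2 ++ inv h) = true :=
      Primrec.eq.comp (test_primrec.comp hA) (const true)
    exact (PrimrecRel.exists_mem_list hR).comp
      (wordsLE_primrec.comp (alph_primrec.comp fst (snd.comp snd))
        (list_length.comp (snd.comp snd))) Primrec.id

end Pool.Agent.RSMonic
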