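import Pool.Agent.RSMonic.Defs

/-!
# Unique products: extensions, torsion-free abelian groups, decreasing chains
-/

set_option autoImplicit false

namespace Pool.Agent.RSMonic

open FreeGroup (of)

/-- an extension of a unique product group by a unique product group has unique products -/
theorem uniqueProds_of_ext {E Q : Type*} [Group E] [Group Q] (f : E →* Q) (hQ : UniqueProds Q)
    (hK : UniqueProds f.ker) : UniqueProds E := by
  classical
  refine ⟨fun {A B} hA hB => ?_⟩
  obtain ⟨a', ha', b', hb', hu⟩ :=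
    hQ.uniqueMul_of_nonempty (hA.image f) (hB.image f)
  obtain ⟨a, haA, rfl⟩ := Finset.mem_image.mp ha'
  obtain ⟨b, hbB, rfl⟩ := Finset.mem_image.mp hb'
  -- the two fibres, moved into the kernel
  let A0 : Finset E := A.filter fun x => f x = f a
  let B0 : Finset E := B.filter fun x => f x = f b
  let A1 : Finset f.ker := A0.attach.image fun x => ⟨a⁻¹ * x.1, by
    have := (Finset.mem_filter.mp x.2).2
    rw [MonoidHom.mem_ker, map_mul, map_inv, this, inv_mul_cancel]⟩
  let B1 : Finset f.ker := B0.attach.image fun x => ⟨x.1 * b⁻¹, by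
    have := (Finset.mem_filter.mp x.2).2
    rw [MonoidHom.mem_ker, map_mul, map_inv, this, mul_inv_cancel]⟩
  have haA0 : a ∈ A0 := Finset.mem_filter.mpr ⟨haA, rfl⟩
  have hbB0 : b ∈ B0 := Finset.mem_filter.mpr ⟨hbB, rfl⟩
  have hA1 : A1.Nonempty :=
    ⟨_, Finset.mem_image.mpr ⟨⟨a, haA0⟩, Finset.mem_attach _ _, rfl⟩⟩
  have hB1 : B1.Nonempty :=
    ⟨_, Finset.mem_image.mpr ⟨⟨b, hbB0⟩, Finset.mem_attach _ _, rfl⟩⟩
  obtain ⟨p, hp, q, hq, hpq⟩ := hK.uniqueMul_of_nonempty hA1 hB1
  obtain ⟨⟨x, hx⟩, -, rfl⟩ := Finset.mem_image.mp hp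
  obtain ⟨⟨y, hy⟩, -, rfl⟩ := Finset.mem_image.mp hq
  have hx' := Finset.mem_filter.mp hx
  have hy' := Finset.mem_filter.mp hy
  refine ⟨x, hx'.1, y, hy'.1, ?_⟩
  refine UniqueMul.of_image_filter (f : E →ₙ* Q) (aH := f a) (bH := f b) hx'.2 hy'.2 hu ?_
  intro u v hu' hv' huv
  have h1 : (⟨a⁻¹ * u, by
      have := (Finset.mem_filter.mp hu').2
      rw [MonoidHom.mem_ker, map_mul, map_inv]
      exact (congrArg (fun z => (f a)⁻¹ * z) this).trans (inv_mul_cancel _)⟩ : f.ker) ∈ A1 :=
    Finset.mem_image.mpr ⟨⟨u, hu'⟩, Finset.mem_attach _ _, rfl⟩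
  have h2 : (⟨v * b⁻¹, by
      have := (Finset.mem_filter.mp hv').2
      rw [MonoidHom.mem_ker, map_mul, map_inv]
      exact (congrArg (fun z => z * (f b)⁻¹) this).trans (mul_inv_cancel _)⟩ : f.ker) ∈ B1 :=
    Finset.mem_image.mpr ⟨⟨v, hv'⟩, Finset.mem_attach _ _, rfl⟩
  have h3 := hpq h1 h2 (by
    apply Subtype.ext
    simp only [Subgroup.coe_mul]
    calc a⁻¹ * u * (v * b⁻¹) = a⁻¹ * (u * v) * b⁻¹ := by group
      _ = a⁻¹ * (x * y) * b⁻¹ := by rw [huv]
      _ = a⁻¹ * x * (y * b⁻¹) := by group)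
  have h4 := congrArg Subtype.val h3.1
  have h5 := congrArg Subtype.val h3.2
  simp only at h4 h5
  exact ⟨mul_left_cancel h4, mul_right_cancel h5⟩

/-- torsion-free abelian groups have unique products -/
theorem uniqueProds_of_torsionFree {A : Type*} [CommGroup A]
    (hA : ∀ (a : A) (e : ℕ), e ≠ 0 → a ^ e = 1 → a = 1) : UniqueProds A := by
  have htf : IsAddTorsionFree (Additive A) := by
    refine ⟨fun n hn x y hxy => ?_⟩
    have hxy' : n • x = n • y := hxy
    have h0 : n • (x - y) = 0 := by rw [nsmul_sub, hxy', sub_self]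
    have h1 : (Additive.toMul (x - y)) ^ n = 1 := by
      have := congrArg Additive.toMul h0
      simpa using this
    have h2 := hA _ n hn h1
    have h3 : x - y = 0 := by
      have := congrArg Additive.ofMul h2
      simpa using this
    exact sub_eq_zero.mp h3
  have h1 : UniqueSums (Additive A) :=
    UniqueSums.of_injective_addHom
      (DivisibleHull.coeAddMonoidHom (Additive A) : Additive A →ₙ+ DivisibleHull (Additive A))
      (fun x y h => DivisibleHull.coe_injective h) inferInstance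
  have h2 : UniqueProds (Multiplicative (Additive A)) := inferInstance
  exact (MulEquiv.uniqueProds_iff (MulEquiv.multiplicativeAdditive A)).mp h2

/-- residually (along a decreasing chain) unique products -/
theorem uniqueProds_of_chain {E : Type*} [Group E] (N : ℕ → Subgroup E) [∀ m, (N m).Normal]
    (hanti : Antitone N) (hbot : ∀ x, (∀ m, x ∈ N m) → x = 1)
    (h : ∀ m, UniqueProds (E ⧸ N m)) : UniqueProds E := by
  classical
  refine ⟨fun {A B} hA hB => ?_⟩
  -- a level that separates all the elements of a finite set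
  have hsep : ∀ S : Finset E, (∀ x ∈ S, x ≠ 1) → ∃ m, ∀ x ∈ S, x ∉ N m := by
    intro S
    induction S using Finset.induction_on with
    | empty => exact fun _ => ⟨0, by simp⟩
    | insert a S _ ih =>
      intro hS
      obtain ⟨m1, hm1⟩ := ih fun x hx => hS x (Finset.mem_insert_of_mem hx)
      obtain ⟨m2, hm2⟩ : ∃ m, a ∉ N m := by
        by_contra hcon
        push Not at hcon
        exact hS a (Finset.mem_insert_self _ _) (hbot a hcon)
      refine ⟨max m1 m2, fun x hx hxm => ?_⟩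
      rcases Finset.mem_insert.mp hx with rfl | hx
      · exact hm2 (hanti (le_max_right _ _) hxm)
      · exact hm1 x hx (hanti (le_max_left _ _) hxm)
  obtain ⟨m, hm⟩ := hsep
    ((((A ×ˢ A) ∪ (B ×ˢ B)).image fun p => p.1⁻¹ * p.2).filter fun x => x ≠ 1)
    (fun x hx => (Finset.mem_filter.mp hx).2)
  have hinjA : ∀ x ∈ A, ∀ y ∈ A, (QuotientGroup.mk x : E ⧸ N m) = QuotientGroup.mk y → x = y := by
    intro x hx y hy hxy
    by_contra hne
    refine hm (x⁻¹ * y) (Finset.mem_filter.mpr ⟨Finset.mem_image.mpr ⟨(x, y),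
      Finset.mem_union_left _ (Finset.mem_product.mpr ⟨hx, hy⟩), rfl⟩, ?_⟩)
      (QuotientGroup.eq.mp hxy)
    intro h1
    exact hne (inv_mul_eq_one.mp h1)
  have hinjB : ∀ x ∈ B, ∀ y ∈ B, (QuotientGroup.mk x : E ⧸ N m) = QuotientGroup.mk y → x = y := by
    intro x hx y hy hxy
    by_contra hne
    refine hm (x⁻¹ * y) (Finset.mem_filter.mpr ⟨Finset.mem_image.mpr ⟨(x, y),
      Finset.mem_union_right _ (Finset.mem_product.mpr ⟨hx, hy⟩), rfl⟩, ?_⟩)
      (QuotientGroup.eq.mp hxy)
    intro h1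
    exact hne (inv_mul_eq_one.mp h1)
  obtain ⟨a', ha', b', hb', hu⟩ :=
    (h m).uniqueMul_of_nonempty (hA.image (QuotientGroup.mk : E → E ⧸ N m))
      (hB.image (QuotientGroup.mk : E → E ⧸ N m))
  obtain ⟨a, haA, rfl⟩ := Finset.mem_image.mp ha'
  obtain ⟨b, hbB, rfl⟩ := Finset.mem_image.mp hb'
  refine ⟨a, haA, b, hbB, ?_⟩
  intro x y hx hy hxy
  have h1 := hu (Finset.mem_image_of_mem _ hx) (Finset.mem_image_of_mem _ hy) (by
    rw [← QuotientGroup.mk_mul, ← QuotientGroup.mk_mul, hxy])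
  exact ⟨hinjA x hx a haA h1.1, hinjB y hy b hbB h1.2⟩

end Pool.Agent.RSMonic
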