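import Pool.Agent.RSMonic.Defs

/-!
# P9: a word with few letters bounds the length of the elements of a free factor with the same Fox
derivative
-/

set_option autoImplicit false

namespace Pool.Agent.RSMonic

open FreeGroup (of)

namespace BoundAux

variable {X Γ : Type*} [Group Γ]

/-- the edges of the word `L` starting at `p`, with their signs -/
def edg (p : FreeGroup X) : List (X × Bool) → List ((FreeGroup X × X) × Bool)
  | [] => []
  | z :: L => ((if z.2 then p else p * FreeGroup.mk [z], z.1), z.2) :: edg (p * FreeGroup.mk [z]) L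

theorem length_edg (p : FreeGroup X) (L : List (X × Bool)) : (edg p L).length = L.length := by
  induction L generalizing p with
  | nil => rfl
  | cons z L ih => simp [edg, ih]

/-- the signed term of an edge -/
noncomputable def term (f : FreeGroup X →* Γ) (e : (FreeGroup X × X) × Bool) :
    X →₀ MonoidAlgebra ℤ Γ :=
  Finsupp.single e.1.2 (MonoidAlgebra.single (f e.1.1) (if e.2 then 1 else -1))

theorem mk_cons (z : X × Bool) (L : List (X × Bool)) :
    FreeGroup.mk (z :: L) = FreeGroup.mk [z] * FreeGroup.mk L := by
  rw [FreeGroup.mul_mk]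
  rfl

theorem fox_edg (f : FreeGroup X →* Γ) (L : List (X × Bool)) (p : FreeGroup X) :
    MonoidAlgebra.of ℤ Γ (f p) • fox f (FreeGroup.mk L) = ((edg p L).map (term f)).sum := by
  induction L generalizing p with
  | nil =>
    rw [← FreeGroup.one_eq_mk, fox_one, smul_zero]
    rfl
  | cons z L ih =>
    rw [mk_cons, fox_mul, smul_add, ← mul_smul, ← map_mul, ← map_mul, ih]
    simp only [edg, List.map_cons, List.sum_cons]
    congr 1
    obtain ⟨x, b⟩ := z
    cases b
    · have h1 : (FreeGroup.mk [(x, false)] : FreeGroup X) = (of x)⁻¹ := rfl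
      rw [h1, fox_inv, fox_of, smul_neg, ← mul_smul, ← map_mul, ← map_inv, ← map_mul,
        Finsupp.smul_single, smul_eq_mul, mul_one]
      simp only [term, Bool.false_eq_true, if_false, MonoidAlgebra.of_apply]
      rw [← Finsupp.single_neg]
      congr 1
      rw [← MonoidAlgebra.single_neg]
    · have h1 : (FreeGroup.mk [(x, true)] : FreeGroup X) = of x := rfl
      rw [h1, fox_of, Finsupp.smul_single, smul_eq_mul, mul_one]
      simp only [term, if_true, MonoidAlgebra.of_apply]

theorem edg_mem (p : FreeGroup X) (L : List (X × Bool)) (e : (FreeGroup X × X) × Bool)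
    (he : e ∈ edg p L) : (e.1.2, e.2) ∈ L := by
  induction L generalizing p with
  | nil => simp [edg] at he
  | cons z L ih =>
    simp only [edg, List.mem_cons] at he
    rcases he with rfl | he
    · simp
    · exact List.mem_cons_of_mem _ (ih _ he)

theorem mem_edg (p : FreeGroup X) (L : List (X × Bool)) (z : X × Bool) (hz : z ∈ L) :
    ∃ e ∈ edg p L, e.1.2 = z.1 ∧ e.2 = z.2 := by
  induction L generalizing p with
  | nil => simp at hz
  | cons y L ih =>
    simp only [edg, List.mem_cons] at hz ⊢
    rcases hz with rfl | hz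
    · exact ⟨_, Or.inl rfl, rfl, rfl⟩
    · obtain ⟨e, he, h⟩ := ih (p * FreeGroup.mk [y]) hz
      exact ⟨e, Or.inr he, h⟩

theorem edg_start (q : FreeGroup X) (L : List (X × Bool)) (e : (FreeGroup X × X) × Bool)
    (he : e ∈ edg q L) :
    (∃ j, 1 ≤ j ∧ j ≤ L.length ∧ e.1.1 = q * FreeGroup.mk (L.take j)) ∨
      (∃ x L', L = (x, true) :: L' ∧ e.1 = (q, x)) := by
  induction L generalizing q with
  | nil => simp [edg] at he
  | cons z L ih =>
    simp only [edg, List.mem_cons] at he
    rcases he with rfl | he
    · obtain ⟨x, b⟩ := z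
      cases b
      · left
        refine ⟨1, le_rfl, by simp, ?_⟩
        simp
      · right
        exact ⟨x, L, rfl, by simp⟩
    · left
      rcases ih _ he with ⟨j, h1, h2, h3⟩ | ⟨x, L', h1, h2⟩
      · refine ⟨j + 1, by omega, by simp; omega, ?_⟩
        rw [h3, List.take_succ_cons, mk_cons z (L.take j), mul_assoc]
      · refine ⟨1, le_rfl, by simp, ?_⟩
        rw [h2]
        simp

theorem norm_mk [DecidableEq X] {L : List (X × Bool)} (hL : FreeGroup.IsReduced L) :
    (FreeGroup.mk L).norm = L.length := by
  rw [FreeGroup.norm, FreeGroup.toWord_mk, hL.reduce_eq]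

theorem edg_nodup [DecidableEq X] (p : FreeGroup X) (L : List (X × Bool))
    (hL : FreeGroup.IsReduced L) : ((edg p L).map Prod.fst).Nodup := by
  induction L generalizing p with
  | nil => simp [edg]
  | cons z L ih =>
    have hL' : FreeGroup.IsReduced L := List.IsChain.tail hL
    simp only [edg, List.map_cons, List.nodup_cons]
    refine ⟨?_, ih _ hL'⟩
    intro hmem
    rw [List.mem_map] at hmem
    obtain ⟨e, he, he'⟩ := hmem
    rcases edg_start _ _ _ he with ⟨j, h1, h2, h3⟩ | ⟨x, L', h1, h2⟩
    · have h4 : e.1.1 = p * FreeGroup.mk ((z :: L).take (j + 1)) := by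
        rw [h3, List.take_succ_cons, mk_cons z (L.take j), mul_assoc]
      have h5 : FreeGroup.IsReduced ((z :: L).take (j + 1)) :=
        List.IsChain.take hL (j + 1)
      have h6 := norm_mk h5
      have h7 : ((z :: L).take (j + 1)).length = j + 1 := by
        rw [List.length_take, List.length_cons]
        omega
      rw [he'] at h4
      dsimp only at h4
      split_ifs at h4 with hz
      · have h8 : FreeGroup.mk ((z :: L).take (j + 1)) = 1 := by
          exact (left_eq_mul.mp h4)
        rw [h8, FreeGroup.norm_one] at h6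
        omega
      · have h8 : FreeGroup.mk ((z :: L).take (j + 1)) = FreeGroup.mk [z] := by
          exact (mul_left_cancel h4).symm
        rw [h8, norm_mk FreeGroup.IsReduced.singleton, h7] at h6
        simp only [List.length_singleton] at h6
        omega
    · rw [h2] at he'
      have h9 := congrArg Prod.fst he'
      have h10 := congrArg Prod.snd he'
      dsimp only at h9 h10
      split_ifs at h9 with hz
      · have h8 : FreeGroup.mk [z] = 1 := mul_eq_left.mp h9
        have h6 := norm_mk (L := [z]) FreeGroup.IsReduced.singleton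
        rw [h8, FreeGroup.norm_one] at h6
        simp at h6
      · subst h1
        rw [FreeGroup.isReduced_cons_cons] at hL
        have := hL.1 h10.symm
        simp [this] at hz

theorem letters_mem [DecidableEq X] (S : Set X) (h : FreeGroup X)
    (hS : h ∈ Subgroup.closure (of '' S)) : ∀ z ∈ h.toWord, z.1 ∈ S := by
  induction hS using Subgroup.closure_induction with
  | mem x hx =>
    obtain ⟨s, hs, rfl⟩ := hx
    intro z hz
    rw [FreeGroup.toWord_of] at hz
    simp at hz
    rw [hz]
    exact hs
  | one => simp
  | mul x y _ _ hx hy =>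
    intro z hz
    have := (FreeGroup.toWord_mul_sublist x y).subset hz
    rw [List.mem_append] at this
    rcases this with h | h
    · exact hx z h
    · exact hy z h
  | inv x _ hx =>
    intro z hz
    rw [FreeGroup.toWord_inv, FreeGroup.invRev] at hz
    simp only [List.mem_reverse, List.mem_map] at hz
    obtain ⟨a, ha, rfl⟩ := hz
    exact hx a ha

theorem edg_mem_closure (S : Set X) (L : List (X × Bool)) (hL : ∀ z ∈ L, z.1 ∈ S)
    (p : FreeGroup X) (hp : p ∈ Subgroup.closure (of '' S)) (e : (FreeGroup X × X) × Bool)
    (he : e ∈ edg p L) : e.1.1 ∈ Subgroup.closure (of '' S) := by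
  induction L generalizing p with
  | nil => simp [edg] at he
  | cons z L ih =>
    have h1 : FreeGroup.mk [z] ∈ Subgroup.closure (of '' S) := by
      obtain ⟨x, b⟩ := z
      have hx : x ∈ S := hL (x, b) (by simp)
      cases b
      · have h2 : (FreeGroup.mk [(x, false)] : FreeGroup X) = (of x)⁻¹ := rfl
        rw [h2]
        exact Subgroup.inv_mem _ (Subgroup.subset_closure ⟨x, hx, rfl⟩)
      · exact Subgroup.subset_closure ⟨x, hx, rfl⟩
    simp only [edg, List.mem_cons] at he
    rcases he with rfl | he
    · dsimp only
      split_ifs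
      · exact hp
      · exact Subgroup.mul_mem _ hp h1
    · exact ih (fun z hz => hL z (List.mem_cons_of_mem _ hz)) _ (Subgroup.mul_mem _ hp h1) he

/-- the key of an edge in the target -/
def key (f : FreeGroup X →* Γ) (e : FreeGroup X × X) : Γ × X := (f e.1, e.2)

theorem term_coeff (f : FreeGroup X →* Γ) (e : (FreeGroup X × X) × Bool) (k : Γ × X)
    (h : key f e.1 ≠ k) : (term f e k.2).coeff k.1 = 0 := by
  classical
  simp only [term]
  rw [Finsupp.single_apply]
  by_cases h1 : e.1.2 = k.2
  · rw [if_pos h1, MonoidAlgebra.coeff_single, Finsupp.single_apply, if_neg]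
    intro h2
    exact h (Prod.ext h2 h1)
  · rw [if_neg h1, MonoidAlgebra.coeff_zero, Finsupp.zero_apply]

theorem term_coeff_self (f : FreeGroup X →* Γ) (e : (FreeGroup X × X) × Bool) :
    (term f e (key f e.1).2).coeff (key f e.1).1 = if e.2 then 1 else -1 := by
  classical
  simp [term, key]

theorem sum_coeff (f : FreeGroup X →* Γ) (L : List ((FreeGroup X × X) × Bool)) (k : Γ × X) :
    ((L.map (term f)).sum k.2).coeff k.1 = (L.map fun e => (term f e k.2).coeff k.1).sum := by
  induction L with
  | nil => simp
  | cons e L ih =>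
    simp only [List.map_cons, List.sum_cons, Finsupp.add_apply, MonoidAlgebra.coeff_add, ih]

end BoundAux

open BoundAux in
theorem fox_bound {X Γ : Type*} [Group Γ] [DecidableEq X] (S : Set X) (f : FreeGroup X →* Γ)
    (hinj : Set.InjOn f (Subgroup.closure (of '' S))) (h : FreeGroup X)
    (hS : h ∈ Subgroup.closure (of '' S)) (W : List (X × Bool))
    (hD : fox f h = fox f (FreeGroup.mk W)) :
    h.toWord.length ≤ W.length ∧ ∀ z ∈ h.toWord, ∃ e, (z.1, e) ∈ W := by
  classical
  have hred : FreeGroup.IsReduced h.toWord := FreeGroup.isReduced_toWord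
  have hlet := letters_mem S h hS
  have hcl := edg_mem_closure S h.toWord hlet 1 (Subgroup.one_mem _)
  have hnd := edg_nodup (1 : FreeGroup X) h.toWord hred
  -- the keys of the edges of `h` are distinct
  have hnd' : ((edg 1 h.toWord).map fun e => key f e.1).Nodup := by
    have : ((edg 1 h.toWord).map fun e => key f e.1) =
        ((edg 1 h.toWord).map Prod.fst).map (key f) := by
      rw [List.map_map]
      rfl
    rw [this]
    refine List.Nodup.map_on ?_ hnd
    intro a ha b hb hab
    rw [List.mem_map] at ha hb
    obtain ⟨a', ha', rfl⟩ := ha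
    obtain ⟨b', hb', rfl⟩ := hb
    have h1 := congrArg Prod.fst hab
    have h2 := congrArg Prod.snd hab
    exact Prod.ext (hinj (hcl _ ha') (hcl _ hb') h1) h2
  have hfh : fox f h = ((edg 1 h.toWord).map (term f)).sum := by
    have := fox_edg f h.toWord 1
    rw [map_one, map_one, one_smul, FreeGroup.mk_toWord] at this
    exact this
  have hfW : fox f (FreeGroup.mk W) = ((edg 1 W).map (term f)).sum := by
    have := fox_edg f W 1
    rw [map_one, map_one, one_smul] at this
    exact this
  -- each key of `h` has a nonzero coefficient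
  have hsub : ∀ k ∈ (edg 1 h.toWord).map (fun e => key f e.1),
      k ∈ (edg 1 W).map (fun e => key f e.1) := by
    intro k hk
    by_contra hk'
    have h1 : (((edg 1 W).map (term f)).sum k.2).coeff k.1 = 0 := by
      rw [sum_coeff]
      refine List.sum_eq_zero ?_
      intro c hc
      rw [List.mem_map] at hc
      obtain ⟨e, he, rfl⟩ := hc
      refine term_coeff f e k ?_
      intro h2
      exact hk' (List.mem_map.mpr ⟨e, he, h2⟩)
    rw [← hfW, ← hD, hfh, sum_coeff] at h1
    rw [List.mem_map] at hk
    obtain ⟨e, he, rfl⟩ := hk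
    obtain ⟨A, B, hAB⟩ := List.append_of_mem he
    rw [hAB] at hnd' h1
    rw [List.map_append, List.map_cons] at hnd' h1
    rw [List.nodup_append] at hnd'
    obtain ⟨_, hn2, hn3⟩ := hnd'
    rw [List.nodup_cons] at hn2
    have hA : (A.map fun e' => (term f e' (key f e.1).2).coeff (key f e.1).1).sum = 0 := by
      refine List.sum_eq_zero ?_
      intro c hc
      rw [List.mem_map] at hc
      obtain ⟨e', he', rfl⟩ := hc
      refine term_coeff f e' _ ?_
      intro h2
      exact hn3 _ (List.mem_map.mpr ⟨e', he', rfl⟩) _ (by simp) h2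
    have hB : (B.map fun e' => (term f e' (key f e.1).2).coeff (key f e.1).1).sum = 0 := by
      refine List.sum_eq_zero ?_
      intro c hc
      rw [List.mem_map] at hc
      obtain ⟨e', he', rfl⟩ := hc
      refine term_coeff f e' _ ?_
      intro h2
      exact hn2.1 (List.mem_map.mpr ⟨e', he', h2⟩)
    rw [List.sum_append, List.sum_cons, hA, hB, term_coeff_self] at h1
    split_ifs at h1 <;> simp at h1
  refine ⟨?_, ?_⟩
  · have := (hnd'.subperm hsub).length_le
    simpa [length_edg] using this
  · intro z hz
    obtain ⟨e, he, h1, h2⟩ := mem_edg 1 h.toWord z hz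
    have h3 := hsub (key f e.1) (List.mem_map.mpr ⟨e, he, rfl⟩)
    rw [List.mem_map] at h3
    obtain ⟨e', he', h4⟩ := h3
    refine ⟨e'.2, ?_⟩
    have h5 := edg_mem 1 W e' he'
    have h6 : e'.1.2 = e.1.2 := congrArg (fun k : Γ × X => k.2) h4
    rw [h6, h1] at h5
    exact h5

end Pool.Agent.RSMonic
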