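import Pool.Agent.RSMonic.Defs
import Pool.Agent.RSMonic.UP

/-!
# The chain `F_m` of an endomorphism of a free group
-/

set_option autoImplicit false

namespace Pool.Agent.RSMonic

open FreeGroup (of)

section Chain
variable {Y : Type*} (φ : Monoid.End (FreeGroup Y))

theorem map_mem_commutator {H : Subgroup (FreeGroup Y)} (hH : ∀ x ∈ H, φ x ∈ H)
    {x : FreeGroup Y} (hx : x ∈ ⁅H, H⁆) : φ x ∈ ⁅H, H⁆ := by
  have : ⁅H, H⁆ ≤ (⁅H, H⁆).comap φ := by
    rw [Subgroup.commutator_le]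
    intro a ha b hb
    rw [Subgroup.mem_comap, map_commutatorElement]
    exact Subgroup.commutator_mem_commutator (hH a ha) (hH b hb)
  exact this hx

theorem pow_mem_of_map_mem {H : Subgroup (FreeGroup Y)} (hH : ∀ x ∈ H, φ x ∈ H) (n : ℕ)
    {x : FreeGroup Y} (hx : x ∈ H) : (φ ^ n) x ∈ H := by
  induction n with
  | zero => simpa using hx
  | succ n ih =>
    rw [pow_succ']
    exact hH _ ih

theorem mem_iSup_comap {H : Subgroup (FreeGroup Y)} (hH : ∀ x ∈ H, φ x ∈ H)
    {x : FreeGroup Y} :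
    x ∈ (⨆ M : ℕ, H.comap (φ ^ M : Monoid.End (FreeGroup Y))) ↔ ∃ M : ℕ, (φ ^ M) x ∈ H := by
  have hmono : Monotone fun M : ℕ => H.comap (φ ^ M : Monoid.End (FreeGroup Y)) := by
    refine monotone_nat_of_le_succ fun M x hx => ?_
    rw [Subgroup.mem_comap] at hx ⊢
    rw [pow_succ']
    exact hH _ hx
  rw [Subgroup.mem_iSup_of_directed hmono.directed_le]
  rfl

theorem chain_aux (m : ℕ) :
    (chain φ m).Normal ∧ (∀ x ∈ chain φ m, φ x ∈ chain φ m) := by
  induction m with
  | zero => exact ⟨inferInstanceAs (⊤ : Subgroup (FreeGroup Y)).Normal, fun _ _ => trivial⟩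
  | succ m ih =>
    obtain ⟨hN, hφ⟩ := ih
    have hC : ∀ x ∈ ⁅chain φ m, chain φ m⁆, φ x ∈ ⁅chain φ m, chain φ m⁆ :=
      fun x hx => map_mem_commutator φ hφ hx
    have hCN : (⁅chain φ m, chain φ m⁆).Normal := inferInstance
    constructor
    · refine ⟨fun x hx g => ?_⟩
      rw [chain, mem_iSup_comap φ hC] at hx ⊢
      obtain ⟨M, hM⟩ := hx
      refine ⟨M, ?_⟩
      rw [map_mul, map_mul, map_inv]
      exact hCN.conj_mem _ hM _
    · intro x hx
      rw [chain, mem_iSup_comap φ hC] at hx ⊢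
      obtain ⟨M, hM⟩ := hx
      refine ⟨M, ?_⟩
      have h1 : (φ ^ M) (φ x) = φ ((φ ^ M) x) := by
        have h2 : φ ^ M * φ = φ * φ ^ M := by rw [← pow_succ, ← pow_succ']
        exact DFunLike.congr_fun h2 x
      rw [h1]
      exact hC _ hM

instance chain_normal (m : ℕ) : (chain φ m).Normal := (chain_aux φ m).1

theorem map_mem_chain {m : ℕ} {x : FreeGroup Y} (hx : x ∈ chain φ m) : φ x ∈ chain φ m :=
  (chain_aux φ m).2 x hx

theorem mem_chain_succ {m : ℕ} {x : FreeGroup Y} :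
    x ∈ chain φ (m + 1) ↔ ∃ M : ℕ, (φ ^ M) x ∈ ⁅chain φ m, chain φ m⁆ := by
  rw [chain, mem_iSup_comap φ fun x hx => map_mem_commutator φ (chain_aux φ m).2 hx]

theorem map_mem_chain_iff {m : ℕ} {x : FreeGroup Y} : φ x ∈ chain φ m ↔ x ∈ chain φ m := by
  refine ⟨fun h => ?_, map_mem_chain φ⟩
  cases m with
  | zero => trivial
  | succ m =>
    rw [mem_chain_succ] at h ⊢
    obtain ⟨M, hM⟩ := h
    refine ⟨M + 1, ?_⟩
    rw [pow_succ]
    exact hM

theorem pow_mem_chain_iff {m : ℕ} (n : ℕ) {x : FreeGroup Y} :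
    (φ ^ n) x ∈ chain φ m ↔ x ∈ chain φ m := by
  induction n with
  | zero => simp
  | succ n ih =>
    rw [pow_succ', ← ih]
    exact map_mem_chain_iff φ

theorem chain_antitone : Antitone (chain φ) := by
  refine antitone_nat_of_succ_le fun m x hx => ?_
  rw [mem_chain_succ] at hx
  obtain ⟨M, hM⟩ := hx
  exact (pow_mem_chain_iff φ M).mp (Subgroup.commutator_le_left _ _ hM)

theorem commutator_le_chain (m : ℕ) : ⁅chain φ m, chain φ m⁆ ≤ chain φ (m + 1) := by
  intro x hx
  rw [mem_chain_succ]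
  exact ⟨0, by simpa using hx⟩

theorem chain_one_eq (m : ℕ) :
    chain (1 : Monoid.End (FreeGroup Y)) m = derivedSeries (FreeGroup Y) m := by
  induction m with
  | zero => rfl
  | succ m ih =>
    ext x
    rw [mem_chain_succ, ih, derivedSeries_succ]
    simp only [one_pow]
    exact ⟨fun ⟨_, h⟩ => h, fun h => ⟨0, h⟩⟩

theorem fox_pow_of_map_eq_one {Γ : Type*} [Group Γ] (f : FreeGroup Y →* Γ) {y : FreeGroup Y}
    (hy : f y = 1) (e : ℕ) : fox f (y ^ e) = e • fox f y := by
  induction e with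
  | zero => simp
  | succ e ih =>
    rw [pow_succ, fox_mul, ih, map_pow, hy, one_pow, map_one, one_smul, succ_nsmul]

theorem chain_torsionFree {m : ℕ} {x : FreeGroup Y} (hx : x ∈ chain φ m) {e : ℕ} (he : e ≠ 0)
    (h : x ^ e ∈ chain φ (m + 1)) : x ∈ chain φ (m + 1) := by
  rw [mem_chain_succ] at h ⊢
  obtain ⟨M, hM⟩ := h
  refine ⟨M, ?_⟩
  rw [map_pow] at hM
  have hy : (φ ^ M) x ∈ chain φ m := (pow_mem_chain_iff φ M).mpr hx
  generalize (φ ^ M) x = y at hM hy
  have hker : (QuotientGroup.mk' (chain φ m)).ker = chain φ m := QuotientGroup.ker_mk' _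
  have hfy : QuotientGroup.mk' (chain φ m) y = 1 := by
    rw [← MonoidHom.mem_ker, hker]
    exact hy
  have h1 : fox (QuotientGroup.mk' (chain φ m)) (y ^ e) = 0 :=
    fox_eq_zero_of_mem _ (by rw [hker]; exact hM)
  rw [fox_pow_of_map_eq_one _ hfy] at h1
  have h2 : fox (QuotientGroup.mk' (chain φ m)) y = 0 := by
    ext z g
    have h3 := congrArg (fun u => (u z).coeff g) h1
    simp only [Finsupp.smul_apply, Finsupp.zero_apply] at h3
    have h4 : (e : ℤ) * (fox (QuotientGroup.mk' (chain φ m)) y z).coeff g = 0 := by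
      rw [MonoidAlgebra.coeff_smul_apply, nsmul_eq_mul] at h3
      exact h3
    rcases mul_eq_zero.mp h4 with h5 | h5
    · exact absurd (by exact_mod_cast h5) he
    · simpa using h5
  have h6 := mem_of_fox_eq_zero _ hfy h2
  rwa [hker] at h6

/-- (uses P1) -/
theorem chain_uniqueProds (m : ℕ) : UniqueProds (FreeGroup Y ⧸ chain φ m) := by
  induction m with
  | zero =>
    have hs : Subsingleton (FreeGroup Y ⧸ chain φ 0) :=
      QuotientGroup.subsingleton_quotient_top
    refine ⟨fun {A B} hA hB => ?_⟩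
    obtain ⟨a, ha⟩ := hA
    obtain ⟨b, hb⟩ := hB
    exact ⟨a, ha, b, hb, UniqueMul.of_subsingleton⟩
  | succ m ih =>
    let f : FreeGroup Y ⧸ chain φ (m + 1) →* FreeGroup Y ⧸ chain φ m :=
      QuotientGroup.map (chain φ (m + 1)) (chain φ m) (MonoidHom.id _)
        (chain_antitone φ (Nat.le_succ m))
    refine uniqueProds_of_ext f ih ?_
    have hmem : ∀ p : FreeGroup Y ⧸ chain φ (m + 1), p ∈ f.ker →
        ∃ x ∈ chain φ m, (QuotientGroup.mk x : FreeGroup Y ⧸ chain φ (m + 1)) = p := by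
      intro p hp
      obtain ⟨x, rfl⟩ := QuotientGroup.mk_surjective p
      refine ⟨x, ?_, rfl⟩
      rw [MonoidHom.mem_ker] at hp
      exact (QuotientGroup.eq_one_iff x).mp hp
    have hcomm : ∀ p q : f.ker, p * q = q * p := by
      rintro ⟨p, hp⟩ ⟨q, hq⟩
      obtain ⟨x, hx, rfl⟩ := hmem p hp
      obtain ⟨y, hy, rfl⟩ := hmem q hq
      apply Subtype.ext
      simp only [Subgroup.coe_mul]
      rw [← QuotientGroup.mk_mul, ← QuotientGroup.mk_mul, QuotientGroup.eq]
      have h1 := commutator_le_chain φ m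
        (Subgroup.commutator_mem_commutator ((chain φ m).inv_mem hy) ((chain φ m).inv_mem hx))
      have h2 : (x * y)⁻¹ * (y * x) = y⁻¹ * x⁻¹ * y⁻¹⁻¹ * x⁻¹⁻¹ := by group
      rw [h2]
      exact h1
    let _ : CommGroup f.ker := { (inferInstance : Group f.ker) with mul_comm := hcomm }
    refine uniqueProds_of_torsionFree (A := f.ker) ?_
    rintro ⟨p, hp⟩ e he hpe
    obtain ⟨x, hx, rfl⟩ := hmem p hp
    apply Subtype.ext
    have h1 : (QuotientGroup.mk x : FreeGroup Y ⧸ chain φ (m + 1)) ^ e = 1 :=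
      congrArg Subtype.val hpe
    rw [← QuotientGroup.mk_pow, QuotientGroup.eq_one_iff] at h1
    exact (QuotientGroup.eq_one_iff x).mpr (chain_torsionFree φ hx he h1)

end Chain

end Pool.Agent.RSMonic
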