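import Pool.Agent.RSMonic.SearchComp

/-!
# Completeness of the search
-/

set_option autoImplicit false

namespace Pool.Agent.RSMonic

open FreeGroup (of)

/-- the allowed level letters -/
def allowed (n K : ℕ) : Set (ℕ × ℕ) := {p | 1 ≤ p.1 ∧ p.1 < n ∧ (p.1 = 1 → p.2 < K)}

theorem lift_of_id (x : FreeGroup ℕ) : FreeGroup.lift (of : ℕ → FreeGroup ℕ) x = x := by
  have : FreeGroup.lift (of : ℕ → FreeGroup ℕ) = MonoidHom.id _ :=
    FreeGroup.ext_hom _ _ fun i => FreeGroup.lift_apply_of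
  rw [this, MonoidHom.id_apply]

theorem mk_monicRel (K : ℕ) (W : LW) :
    FreeGroup.mk (monicRel K W) = presEv of (of (1, K)) * (presEv of (FreeGroup.mk W))⁻¹ := by
  rw [← pres_monicRel of K W, lift_of_id]

theorem exists_valid (n K : ℕ) (hn : 2 ≤ n) (y : FreeGroup (ℕ × ℕ))
    (hy : y ∈ Subgroup.closure (of '' allowed n K)) :
    ∃ κ, Valid n κ K y.toWord := by
  have hlet := BoundAux.letters_mem (allowed n K) y hy
  have hred : FreeGroup.reduce y.toWord = y.toWord := FreeGroup.reduce_toWord y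
  by_cases h : ∃ l, ∃ z ∈ y.toWord, z.1 = (1, l)
  · refine ⟨Nat.find h, hn, ?_, hred, ?_, Or.inr (Nat.find_spec h)⟩
    · obtain ⟨z, hz, hz1⟩ := Nat.find_spec h
      have h1 := (hlet z hz).2.2
      rw [hz1] at h1
      exact (h1 rfl).le
    · intro z hz
      obtain ⟨h1, h2, h3⟩ := hlet z hz
      by_cases h4 : z.1.1 = 1
      · exact Or.inl ⟨h4, Nat.find_min' h ⟨z, hz, Prod.ext h4 rfl⟩, h3 h4⟩
      · exact Or.inr ⟨by omega, h2⟩
  · refine ⟨K, hn, le_rfl, hred, ?_, Or.inl rfl⟩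
    intro z hz
    obtain ⟨h1, h2, h3⟩ := hlet z hz
    by_cases h4 : z.1.1 = 1
    · exact absurd ⟨z.1.2, z, hz, Prod.ext h4 rfl⟩ h
    · exact Or.inr ⟨by omega, h2⟩

theorem autOK_of_aut (n : ℕ) (α : FreeGroup ℕ ≃* FreeGroup ℕ) (hα : ∀ i, n ≤ i → α (of i) = of i) :
    autOK n ((List.range n).map fun i => (α (of i)).toWord)
      ((List.range n).map fun i => (α.symm (of i)).toWord) = true := by
  have hα' : ∀ i, n ≤ i → α.symm (of i) = of i := fun i hi => by
    rw [MulEquiv.symm_apply_eq, hα i hi]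
  rw [autOK, decide_eq_true_eq]
  intro i hi
  rw [List.mem_range] at hi
  have e : ∀ β : FreeGroup ℕ ≃* FreeGroup ℕ,
      ((List.range n).map fun i => (β (of i)).toWord).getD i [] = (β (of i)).toWord := by
    intro β
    rw [List.getD_eq_getElem?_getD, List.getElem?_map, List.getElem?_range hi]
    rfl
  rw [e α, e α.symm, ← FreeGroup.toWord_mk, ← FreeGroup.toWord_mk, mk_subst, mk_subst,
    FreeGroup.mk_toWord, FreeGroup.mk_toWord, exists_table n α hα, exists_table n α.symm hα',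
    MulEquiv.apply_symm_apply, MulEquiv.symm_apply_apply, FreeGroup.toWord_of]
  exact ⟨rfl, rfl⟩

theorem search_complete (n : ℕ) (r : Wd) (hn : 2 ≤ n) (α : FreeGroup ℕ ≃* FreeGroup ℕ)
    (hα : ∀ i, n ≤ i → α (of i) = of i) (K : ℕ) (y : FreeGroup (ℕ × ℕ))
    (hy : y ∈ Subgroup.closure (of '' allowed n K))
    (h : α (FreeGroup.mk r) = presEv of (of (1, K)) * (presEv of y)⁻¹ ∨
      (α (FreeGroup.mk r))⁻¹ = presEv of (of (1, K)) * (presEv of y)⁻¹) :
    (search (n, r)).Dom := by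
  obtain ⟨κ, hκ⟩ := exists_valid n K hn y hy
  refine search_dom n r ⟨((((List.range n).map fun i => (α (of i)).toWord),
    ((List.range n).map fun i => (α.symm (of i)).toWord)), κ, K, y.toWord), ?_⟩
  have h1 : FreeGroup.mk (monicRel K y.toWord) = presEv of (of (1, K)) * (presEv of y)⁻¹ := by
    rw [mk_monicRel, FreeGroup.mk_toWord]
  rw [← h1] at h
  rw [check, Bool.and_eq_true, Bool.and_eq_true, Bool.or_eq_true, decide_eq_true_eq,
    decide_eq_true_eq, validB_iff]
  refine ⟨⟨hκ, autOK_of_aut n α hα⟩, ?_⟩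
  rw [← FreeGroup.toWord_mk, ← FreeGroup.toWord_mk, ← FreeGroup.toWord_mk, mk_subst,
    exists_table n α hα, pres_mk_inv]
  rcases h with h | h
  · exact Or.inl (by rw [h])
  · exact Or.inr (by rw [← h, inv_inv])

end Pool.Agent.RSMonic
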