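import Pool.Agent.RSMonic.Defs

/-!
# Fox derivatives supported on a free factor
-/

set_option autoImplicit false

namespace Pool.Agent.RSMonic

open FreeGroup (of)

attribute [-simp] MonoidAlgebra.of_apply

section Coset

variable {X Γ : Type*} [Group Γ] (S : Set X) (f : FreeGroup X →* Γ)

/-- inclusion of the free factor -/
private def cosI : FreeGroup S →* FreeGroup X := FreeGroup.map Subtype.val

private theorem cosI_of (y : S) : cosI S (of y) = of y.1 := by
  simp [cosI]

private theorem cosI_mem (x : FreeGroup S) : cosI S x ∈ Subgroup.closure (of '' S) := by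
  induction x using FreeGroup.induction_on with
  | C1 => rw [map_one]; exact one_mem _
  | of y => exact Subgroup.subset_closure ⟨y, y.2, by simp [cosI]⟩
  | inv_of y hy => rw [map_inv]; exact inv_mem hy
  | mul x y hx hy => rw [map_mul]; exact mul_mem hx hy

private theorem cosI_inj : Function.Injective (cosI S) :=
  FreeGroup.map_injective Subtype.val_injective

open Classical in
private noncomputable def cosNu (γ : Γ) (g : Γ) : MonoidAlgebra ℤ (FreeGroup S) :=
  if h : ∃ x : FreeGroup S, g = γ * f (cosI S x) then MonoidAlgebra.of ℤ _ h.choose else 0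

variable {S f}

private theorem cosNu_eq (hinj : Set.InjOn f (Subgroup.closure (of '' S))) (γ : Γ)
    (x : FreeGroup S) : cosNu S f γ (γ * f (cosI S x)) = MonoidAlgebra.of ℤ _ x := by
  have h : ∃ x' : FreeGroup S, γ * f (cosI S x) = γ * f (cosI S x') := ⟨x, rfl⟩
  rw [cosNu, dif_pos h]
  congr 1
  have h2 := h.choose_spec
  have h3 := hinj (cosI_mem S x) (cosI_mem S h.choose) (mul_left_cancel h2)
  exact (cosI_inj S h3).symm

private theorem cosNu_mul (hinj : Set.InjOn f (Subgroup.closure (of '' S))) (γ g : Γ)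
    (s : FreeGroup S) : cosNu S f γ (g * f (cosI S s)) = cosNu S f γ g * MonoidAlgebra.of ℤ _ s := by
  by_cases h : ∃ x : FreeGroup S, g = γ * f (cosI S x)
  · obtain ⟨x, rfl⟩ := h
    rw [cosNu_eq hinj, mul_assoc, ← map_mul, ← map_mul, cosNu_eq hinj, map_mul]
  · have h' : ¬ ∃ x : FreeGroup S, g * f (cosI S s) = γ * f (cosI S x) := by
      rintro ⟨x, hx⟩
      apply h
      refine ⟨x * s⁻¹, ?_⟩
      rw [map_mul, map_mul, map_inv, map_inv, ← mul_assoc, ← hx, mul_inv_cancel_right]
    rw [cosNu, dif_neg h', cosNu, dif_neg h, zero_mul]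

/-- restriction to a coset -/
private noncomputable def cosRes (S : Set X) (f : FreeGroup X →* Γ) (γ : Γ) :
    MonoidAlgebra ℤ Γ →+ MonoidAlgebra ℤ (FreeGroup S) := lin (cosNu S f γ)

private theorem cosRes_mul (hinj : Set.InjOn f (Subgroup.closure (of '' S))) (γ : Γ)
    (c : MonoidAlgebra ℤ Γ) (s : FreeGroup S) :
    cosRes S f γ (c * MonoidAlgebra.of ℤ _ (f (cosI S s))) =
      cosRes S f γ c * MonoidAlgebra.of ℤ _ s := by
  have : (cosRes S f γ).comp (AddMonoidHom.mulRight (MonoidAlgebra.of ℤ _ (f (cosI S s)))) =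
      (AddMonoidHom.mulRight (MonoidAlgebra.of ℤ _ s)).comp (cosRes S f γ) := by
    refine addHom_ext_of fun g => ?_
    simp only [AddMonoidHom.comp_apply, AddMonoidHom.mulRight_apply, ← map_mul, cosRes, lin_of]
    exact cosNu_mul hinj γ g s
  exact DFunLike.congr_fun this c

private theorem cosRes_coeff (hinj : Set.InjOn f (Subgroup.closure (of '' S))) (γ : Γ)
    (c : MonoidAlgebra ℤ Γ) : (cosRes S f γ c).coeff 1 = c.coeff γ := by
  classical
  have : ((Finsupp.applyAddHom (1 : FreeGroup S)).comp
        (MonoidAlgebra.coeffAddEquiv (R := ℤ) (M := FreeGroup S)).toAddMonoidHom).comp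
        (cosRes S f γ) =
      (Finsupp.applyAddHom γ).comp (MonoidAlgebra.coeffAddEquiv (R := ℤ) (M := Γ)).toAddMonoidHom := by
    refine addHom_ext_of fun g => ?_
    simp only [AddMonoidHom.comp_apply, cosRes, lin_of]
    by_cases h : ∃ x : FreeGroup S, g = γ * f (cosI S x)
    · obtain ⟨x, rfl⟩ := h
      rw [cosNu_eq hinj]
      have hx : γ * f (cosI S x) = γ ↔ x = 1 := by
        constructor
        · intro h
          have h1 : f (cosI S x) = f (cosI S 1) := by
            rw [map_one, map_one]
            exact mul_left_cancel (h.trans (mul_one γ).symm)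
          exact cosI_inj S (hinj (cosI_mem S x) (cosI_mem S 1) h1)
        · rintro rfl
          simp
      simp [MonoidAlgebra.of_apply, Finsupp.single_apply, hx]
    · have hg : g ≠ γ := fun e => h ⟨1, by simp [e]⟩
      rw [cosNu, dif_neg h]
      simp [MonoidAlgebra.of_apply, hg]
  exact DFunLike.congr_fun this c

end Coset

theorem coset_lemma {X Γ : Type*} [Group Γ] (S : Set X) (f : FreeGroup X →* Γ)
    (hinj : Set.InjOn f (Subgroup.closure (of '' S))) (w : FreeGroup X)
    (hw : ∀ x ∉ S, fox f w x = 0) :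
    ∃ h ∈ Subgroup.closure (of '' S), f h = f w ∧ fox f h = fox f w := by
  classical
  -- restriction of a relation to a coset
  have key : ∀ (c : X →₀ MonoidAlgebra ℤ Γ) (hc : ∀ x ∉ S, c x = 0) (γ : Γ),
      cosRes S f γ (c.sum fun y a => a * (MonoidAlgebra.of ℤ Γ (f (of y)) - 1)) =
        ((c.subtypeDomain (· ∈ S)).mapRange (cosRes S f γ) (map_zero _)).sum fun y a =>
          a * (MonoidAlgebra.of ℤ (FreeGroup S) (of y) - 1) := by
    intro c hc γ
    rw [Finsupp.sum_mapRange_index (by simp), map_finsuppSum]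
    have h1 : c = (c.subtypeDomain (· ∈ S)).embDomain (Function.Embedding.subtype _) := by
      ext1 x
      by_cases hx : x ∈ S
      · have := Finsupp.embDomain_apply_self (Function.Embedding.subtype (· ∈ S))
          (c.subtypeDomain (· ∈ S)) ⟨x, hx⟩
        simpa using this.symm
      · rw [hc x hx, Finsupp.embDomain_of_notMem_range]
        rintro ⟨⟨y, hy⟩, rfl⟩
        exact hx hy
    conv_lhs => rw [h1]
    rw [Finsupp.sum_embDomain]
    refine Finsupp.sum_congr fun y _ => ?_
    have h2 := cosRes_mul hinj γ (c.subtypeDomain (· ∈ S) y) (of y)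
    rw [cosI_of] at h2
    rw [mul_sub, mul_sub, mul_one, mul_one, map_sub]
    exact congrArg (· - _) h2
  have haug : ∀ (a : MonoidAlgebra ℤ (FreeGroup S)) (y : S),
      lin (fun _ => (1 : ℤ)) (a * (MonoidAlgebra.of ℤ (FreeGroup S) (of y) - 1)) = 0 := by
    intro a y
    have : (lin (fun _ : FreeGroup S => (1 : ℤ))).comp (AddMonoidHom.mulRight
        (MonoidAlgebra.of ℤ (FreeGroup S) (of y) - 1)) = 0 := by
      refine addHom_ext_of fun g => ?_
      simp only [AddMonoidHom.comp_apply, AddMonoidHom.mulRight_apply, mul_sub, mul_one, map_sub,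
        ← map_mul, lin_of, sub_self, AddMonoidHom.zero_apply]
    exact DFunLike.congr_fun this a
  -- the coset of `f w`
  have hex : ∃ x : FreeGroup S, f w = 1 * f (cosI S x) := by
    by_contra hne
    have h1 := key (fox f w) hw 1
    rw [fox_fund, map_sub] at h1
    have h2 : cosRes S f 1 (MonoidAlgebra.of ℤ Γ (f w)) = 0 := by
      rw [cosRes, lin_of, cosNu, dif_neg hne]
    have h3 : cosRes S f 1 (1 : MonoidAlgebra ℤ Γ) = 1 := by
      have := cosNu_eq hinj 1 1
      rw [map_one, map_one, mul_one, map_one] at this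
      rw [← map_one (MonoidAlgebra.of ℤ Γ), cosRes, lin_of, this]
    rw [h2, h3] at h1
    have h4 := congrArg (lin (fun _ : FreeGroup S => (1 : ℤ))) h1
    rw [map_finsuppSum, Finsupp.sum] at h4
    rw [Finset.sum_eq_zero (fun y _ => haug _ y), map_sub, map_zero, zero_sub, neg_eq_zero,
      ← map_one (MonoidAlgebra.of ℤ (FreeGroup S)), lin_of] at h4
    exact one_ne_zero h4
  obtain ⟨x, hx⟩ := hex
  rw [one_mul] at hx
  refine ⟨cosI S x, cosI_mem S x, hx.symm, ?_⟩
  have hsupp : ∀ y ∉ S, fox f (cosI S x) y = 0 := by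
    intro y hy
    have : ∀ z : FreeGroup S, fox f (cosI S z) y = 0 := by
      intro z
      induction z using FreeGroup.induction_on with
      | C1 => simp
      | of s =>
        rw [cosI_of, fox_of, Finsupp.single_apply, if_neg]
        rintro rfl
        exact hy s.2
      | inv_of s hs =>
        rw [map_inv, fox_inv, Finsupp.neg_apply, Finsupp.smul_apply, hs, smul_zero, neg_zero]
      | mul a b ha hb =>
        rw [map_mul, fox_mul, Finsupp.add_apply, Finsupp.smul_apply, ha, hb, smul_zero, add_zero]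
    exact this x
  set q := fox f w - fox f (cosI S x) with hq
  have hqS : ∀ y ∉ S, q y = 0 := by
    intro y hy
    rw [hq, Finsupp.sub_apply, hw y hy, hsupp y hy, sub_zero]
  have hqsum : (q.sum fun y a => a * (MonoidAlgebra.of ℤ Γ (f (of y)) - 1)) = 0 := by
    rw [hq, Finsupp.sum_sub_index (by intros; rw [sub_mul]), fox_fund, fox_fund, hx, sub_self]
  have hq0 : q = 0 := by
    ext1 y
    by_cases hy : y ∈ S
    · rw [Finsupp.zero_apply]
      apply MonoidAlgebra.coeff_injective
      ext γ
      have h1 := key q hqS γ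
      rw [hqsum, map_zero] at h1
      have h2 := fox_unique _ h1.symm
      have h3 := DFunLike.congr_fun h2 ⟨y, hy⟩
      rw [Finsupp.mapRange_apply, Finsupp.zero_apply, Finsupp.subtypeDomain_apply] at h3
      rw [← cosRes_coeff hinj γ (q y), h3]
      simp
    · rw [hqS y hy, Finsupp.zero_apply]
  rw [hq, sub_eq_zero] at hq0
  exact hq0.symm

end Pool.Agent.RSMonic
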