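import Pool.Agent.RSMonic.Defs

/-!
# A certificate implies that the group is not residually solvable
-/

set_option autoImplicit false

namespace Pool.Agent.RSMonic

open FreeGroup (of)

theorem not_rs_of_cert {k : ℕ} {B G : Type*} [Group G] (τ : B → B)
    (w h : FreeGroup (Fin k ⊕ B)) (hw : w ∉ Hs k B 1) (hc : Cert τ w h)
    (ι : FreeGroup (Fin k ⊕ B) →* G)
    (hι : Function.Injective ι) (t : G) (hconj : ∀ x, t⁻¹ * ι x * t = ι (phi τ w x)) : ¬ RS G := by
  set φ := phi τ w with hφ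
  set ψ := phi τ h with hψ
  obtain ⟨hh, hcert⟩ := hc
  rw [← hψ] at hcert
  set K : Subgroup (FreeGroup (Fin k ⊕ B)) :=
    MonoidHom.ker (ψ ^ k : Monoid.End (FreeGroup (Fin k ⊕ B))) with hK
  have hKn : K.Normal := MonoidHom.normal_ker _
  have hmemK : ∀ x, x ∈ K ↔ (ψ ^ k) x = 1 := fun x => Iff.rfl
  have hψK : ∀ x ∈ K, ψ x ∈ K := by
    intro x hx
    rw [hmemK] at hx ⊢
    show (ψ ^ k * ψ) x = 1
    rw [← pow_succ, pow_succ']
    show ψ ((ψ ^ k) x) = 1
    rw [hx, map_one]
  -- `φ x ≡ ψ x` modulo `[K, K]`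
  have hcong : ∀ x, φ x * (ψ x)⁻¹ ∈ ⁅K, K⁆ := by
    have : (QuotientGroup.mk' ⁅K, K⁆).comp φ = (QuotientGroup.mk' ⁅K, K⁆).comp ψ := by
      ext x
      show QuotientGroup.mk' ⁅K, K⁆ (phi τ w (of x)) = QuotientGroup.mk' ⁅K, K⁆ (phi τ h (of x))
      have e1 : phi τ w (of x) = _ := FreeGroup.lift_apply_of
      have e2 : phi τ h (of x) = _ := FreeGroup.lift_apply_of
      rw [e1, e2]
      rcases x with l | b
      · simp only [Sum.elim_inl]
        split_ifs with h1
        · rfl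
        · rw [QuotientGroup.mk'_apply, QuotientGroup.mk'_apply, eq_comm, QuotientGroup.eq]
          have := (Subgroup.commutator_normal K K).conj_mem _ hcert h⁻¹
          simpa [mul_assoc] using this
      · rfl
    intro x
    have h1 : QuotientGroup.mk' ⁅K, K⁆ (φ x) = QuotientGroup.mk' ⁅K, K⁆ (ψ x) :=
      DFunLike.congr_fun this x
    rw [← QuotientGroup.eq_one_iff, ← QuotientGroup.mk'_apply, map_mul, map_inv, h1,
      mul_inv_cancel]
  have hφE : ∀ x ∈ ⁅K, K⁆, φ x ∈ ⁅K, K⁆ := by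
    intro x hx
    have h1 : ψ x ∈ ⁅K, K⁆ := by
      let ψ' : FreeGroup (Fin k ⊕ B) →* FreeGroup (Fin k ⊕ B) := ψ
      have h2 : ψ' x ∈ ⁅K, K⁆.map ψ' := ⟨x, hx, rfl⟩
      rw [Subgroup.map_commutator] at h2
      refine Subgroup.commutator_mono ?_ ?_ h2 <;>
      · rintro _ ⟨y, hy, rfl⟩
        exact hψK y hy
    have := Subgroup.mul_mem _ (hcong x) h1
    rwa [inv_mul_cancel_right] at this
  have hcong' : ∀ m x, (φ ^ m) x * ((ψ ^ m) x)⁻¹ ∈ ⁅K, K⁆ := by
    intro m
    induction m with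
    | zero =>
      intro x
      show x * x⁻¹ ∈ _
      rw [mul_inv_cancel]
      exact Subgroup.one_mem _
    | succ m ih =>
      intro x
      rw [pow_succ', pow_succ']
      show φ ((φ ^ m) x) * (ψ ((ψ ^ m) x))⁻¹ ∈ _
      have h1 := hφE _ (ih x)
      rw [map_mul, map_inv] at h1
      have := Subgroup.mul_mem _ h1 (hcong ((ψ ^ m) x))
      simpa [mul_assoc] using this
  have hφK : ∀ x ∈ K, (φ ^ k) x ∈ ⁅K, K⁆ := by
    intro x hx
    have := hcong' k x
    rw [(hmemK x).1 hx, inv_one, mul_one] at this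
    exact this
  -- conjugation by powers of `t`
  have hconj' : ∀ m x, (t ^ m)⁻¹ * ι x * t ^ m = ι ((φ ^ m) x) := by
    intro m
    induction m with
    | zero => intro x; simp
    | succ m ih =>
      intro x
      have e : ι ((φ ^ (m + 1)) x) = t⁻¹ * ι ((φ ^ m) x) * t := by
        rw [hconj, pow_succ']
        rfl
      rw [e, ← ih x, pow_succ]
      group
  have hder : ∀ n, ∀ x ∈ K, ι x ∈ derivedSeries G n := by
    intro n
    induction n with
    | zero => intro x _; trivial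
    | succ n ih =>
      intro x hx
      have h1 : ι ((φ ^ k) x) ∈ derivedSeries G (n + 1) := by
        have h2 : ι ((φ ^ k) x) ∈ ⁅K, K⁆.map ι := ⟨_, hφK x hx, rfl⟩
        rw [Subgroup.map_commutator] at h2
        rw [derivedSeries_succ]
        refine Subgroup.commutator_mono ?_ ?_ h2 <;>
        · rintro _ ⟨y, hy, rfl⟩
          exact ih y hy
      rw [← hconj' k x] at h1
      have := (derivedSeries_normal G (n + 1)).conj_mem _ h1 (t ^ k)
      simpa [mul_assoc] using this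
  intro hRS
  have h1 : ι (w * h⁻¹) = 1 :=
    hRS _ fun n => hder n _ (Subgroup.commutator_le_left _ _ hcert)
  have h2 : w * h⁻¹ = 1 := hι (by rw [h1, map_one])
  exact hw (mul_inv_eq_one.1 h2 ▸ hh)

end Pool.Agent.RSMonic
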