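import Pool.Agent.RSMonic.Chain

/-!
# Monic one-relator groups, package P7: trivial chain intersection implies residual solvability
-/

set_option autoImplicit false

namespace Pool.Agent.RSMonic

open FreeGroup (of)
open scoped commutatorElement

section RSof

variable {Y G : Type*} [Group G] {φ : Monoid.End (FreeGroup Y)} {ι : FreeGroup Y →* G} {t : G}

private theorem rsof_conj (hconj : ∀ x, t⁻¹ * ι x * t = ι (φ x)) (n : ℕ) (x : FreeGroup Y) :
    (t ^ n)⁻¹ * ι x * t ^ n = ι ((φ ^ n) x) := by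
  induction n with
  | zero => simp
  | succ n ih =>
    have h1 : (φ ^ (n + 1)) x = φ ((φ ^ n) x) := by
      rw [pow_succ']
      rfl
    rw [h1, ← hconj, ← ih, pow_succ]
    group

private theorem rsof_pow_mem {m : ℕ} {x : FreeGroup Y} (hx : x ∈ chain φ m) (n : ℕ) :
    (φ ^ n) x ∈ chain φ m := by
  induction n with
  | zero => simpa using hx
  | succ n ih =>
    have h1 : (φ ^ (n + 1)) x = φ ((φ ^ n) x) := by
      rw [pow_succ']
      rfl
    rw [h1]
    exact map_mem_chain φ ih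

private theorem rsof_pow_mem_iff {m : ℕ} {x : FreeGroup Y} {n : ℕ} (h : (φ ^ n) x ∈ chain φ m) :
    x ∈ chain φ m := by
  induction n with
  | zero => simpa using h
  | succ n ih =>
    have h1 : (φ ^ (n + 1)) x = φ ((φ ^ n) x) := by
      rw [pow_succ']
      rfl
    rw [h1] at h
    exact ih ((map_mem_chain_iff φ).mp h)

/-- raising the exponent -/
private theorem rsof_up (hconj : ∀ x, t⁻¹ * ι x * t = ι (φ x)) {g : G} {M : ℕ} {x : FreeGroup Y}
    (h : (t ^ M)⁻¹ * g * t ^ M = ι x) (L : ℕ) (hL : M ≤ L) :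
    (t ^ L)⁻¹ * g * t ^ L = ι ((φ ^ (L - M)) x) := by
  rw [← rsof_conj hconj, ← h]
  obtain ⟨d, rfl⟩ := Nat.exists_eq_add_of_le hL
  rw [Nat.add_sub_cancel_left, pow_add]
  group

/-- the subgroup `N_m` of the elements `g` such that `t^{-M} g t^M ∈ ι (F_m)` for some `M` -/
private def rsofN (hconj : ∀ x, t⁻¹ * ι x * t = ι (φ x)) (m : ℕ) : Subgroup G where
  carrier := {g | ∃ (M : ℕ) (x : FreeGroup Y), x ∈ chain φ m ∧ (t ^ M)⁻¹ * g * t ^ M = ι x}
  one_mem' := ⟨0, 1, Subgroup.one_mem _, by simp⟩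
  mul_mem' := by
    rintro a b ⟨M, x, hx, h⟩ ⟨M', x', hx', h'⟩
    have e1 := rsof_up hconj h (max M M') (le_max_left _ _)
    have e2 := rsof_up hconj h' (max M M') (le_max_right _ _)
    refine ⟨max M M', (φ ^ (max M M' - M)) x * (φ ^ (max M M' - M')) x',
      Subgroup.mul_mem _ (rsof_pow_mem hx _) (rsof_pow_mem hx' _), ?_⟩
    rw [map_mul, ← e1, ← e2]
    group
  inv_mem' := by
    rintro a ⟨M, x, hx, h⟩
    refine ⟨M, x⁻¹, Subgroup.inv_mem _ hx, ?_⟩
    rw [map_inv, ← h]
    group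

private theorem rsof_mem (hconj : ∀ x, t⁻¹ * ι x * t = ι (φ x)) {m : ℕ} {g : G} :
    g ∈ rsofN hconj m ↔ ∃ (M : ℕ) (x : FreeGroup Y), x ∈ chain φ m ∧
      (t ^ M)⁻¹ * g * t ^ M = ι x := Iff.rfl

private theorem rsof_comm (hconj : ∀ x, t⁻¹ * ι x * t = ι (φ x)) (m : ℕ) :
    ⁅rsofN hconj m, rsofN hconj m⁆ ≤ rsofN hconj (m + 1) := by
  rw [Subgroup.commutator_le]
  rintro a ⟨M, x, hx, h⟩ b ⟨M', x', hx', h'⟩
  have e1 := rsof_up hconj h (max M M') (le_max_left _ _)
  have e2 := rsof_up hconj h' (max M M') (le_max_right _ _)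
  refine ⟨max M M', ⁅(φ ^ (max M M' - M)) x, (φ ^ (max M M' - M')) x'⁆,
    commutator_le_chain φ m (Subgroup.commutator_mem_commutator (rsof_pow_mem hx _)
      (rsof_pow_mem hx' _)), ?_⟩
  rw [map_commutatorElement, ← e1, ← e2]
  simp only [commutatorElement_def]
  group

private theorem rsof_range (hconj : ∀ x, t⁻¹ * ι x * t = ι (φ x)) (x : FreeGroup Y) :
    ι x ∈ rsofN hconj 0 :=
  ⟨0, x, by simp [chain], by simp⟩

private theorem rsof_normal (hconj : ∀ x, t⁻¹ * ι x * t = ι (φ x))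
    (hgen : Subgroup.closure (Set.range ι ∪ {t}) = ⊤) : (rsofN hconj 0).Normal := by
  rw [← Subgroup.normalizer_eq_top_iff, eq_top_iff, ← hgen, Subgroup.closure_le]
  have hmem : ∀ x : FreeGroup Y, x ∈ chain φ 0 := fun x => by simp [chain]
  rintro s (⟨x, rfl⟩ | hs)
  · exact Subgroup.le_normalizer (rsof_range hconj x)
  · have hs' : s = t := hs
    subst hs'
    rw [SetLike.mem_coe, Subgroup.mem_normalizer_iff]
    intro g
    constructor
    · rintro ⟨M, x, _, h⟩
      refine ⟨M + 1, x, hmem _, ?_⟩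
      rw [← h, pow_succ]
      group
    · rintro ⟨M, x, _, h⟩
      have e := rsof_up hconj h (M + 1) (Nat.le_succ M)
      refine ⟨M, _, hmem _, (?_ : _ = ι ((φ ^ (M + 1 - M)) x))⟩
      rw [← e, pow_succ']
      group

end RSof

/-- trivial intersection of the chain implies residual solvability -/
theorem rs_of {Y G : Type*} [Group G] (φ : Monoid.End (FreeGroup Y)) (ι : FreeGroup Y →* G)
    (hι : Function.Injective ι) (t : G) (hconj : ∀ x, t⁻¹ * ι x * t = ι (φ x))
    (hgen : Subgroup.closure (Set.range ι ∪ {t}) = ⊤)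
    (hE : ∀ x, (∀ m, x ∈ chain φ m) → x = 1) : RS G := by
  have hN := rsof_normal hconj hgen
  have hsup : rsofN hconj 0 ⊔ Subgroup.zpowers t = ⊤ := by
    rw [eq_top_iff, ← hgen, Subgroup.closure_le]
    rintro s (⟨x, rfl⟩ | hs)
    · exact Subgroup.mem_sup_left (rsof_range hconj x)
    · have hs' : s = t := hs
      subst hs'
      exact Subgroup.mem_sup_right (Subgroup.mem_zpowers s)
  have hcomm : commutator G ≤ rsofN hconj 0 :=
    hN.commutator_le_of_self_sup_commutative_eq_top hsup inferInstance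
  have hder : ∀ m, derivedSeries G (m + 1) ≤ rsofN hconj m := by
    intro m
    induction m with
    | zero => exact hcomm
    | succ m ih =>
      rw [derivedSeries_succ]
      exact (Subgroup.commutator_mono ih ih).trans (rsof_comm hconj m)
  intro g hg
  obtain ⟨M, x, _, h⟩ := (rsof_mem hconj).mp (hder 0 (hg 1))
  have hx : x = 1 := by
    refine hE x fun m => ?_
    obtain ⟨M', y, hy, h'⟩ := (rsof_mem hconj).mp (hder m (hg (m + 1)))
    have e1 := rsof_up hconj h (max M M') (le_max_left _ _)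
    have e2 := rsof_up hconj h' (max M M') (le_max_right _ _)
    have e3 : (φ ^ (max M M' - M)) x = (φ ^ (max M M' - M')) y := hι (e1.symm.trans e2)
    refine rsof_pow_mem_iff (n := max M M' - M) ?_
    rw [e3]
    exact rsof_pow_mem hy _
  rw [hx, map_one] at h
  have h2 : g = t ^ M * ((t ^ M)⁻¹ * g * t ^ M) * (t ^ M)⁻¹ := by group
  rw [h2, h]
  group

end Pool.Agent.RSMonic
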