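import Pool.Agent.RSMonic.Defs
import Pool.Agent.RSMonic.Chain

/-!
# Separation and residual solvability of free groups (package RSM-P3)
-/

set_option autoImplicit false

namespace Pool.Agent.RSMonic

open FreeGroup (of)

theorem fox_iInf_eq_zero {Y : Type*} (N : ℕ → Subgroup (FreeGroup Y)) [∀ m, (N m).Normal]
    (E : Subgroup (FreeGroup Y)) [E.Normal] (hE : ∀ x, x ∈ E ↔ ∀ m, x ∈ N m)
    (hanti : Antitone N) (x : FreeGroup Y) (y : Y)
    (h : ∀ m, fox (QuotientGroup.mk' (N m)) x y = 0) : fox (QuotientGroup.mk' E) x y = 0 := by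
  classical
  set a := fox (QuotientGroup.mk' E) x y with ha
  have hle : ∀ m, E ≤ N m := fun m g hg => (hE g).1 hg m
  let l : ∀ m, FreeGroup Y ⧸ E →* FreeGroup Y ⧸ N m := fun m =>
    QuotientGroup.map E (N m) (MonoidHom.id _) (by simpa using hle m)
  have hl : ∀ m, (l m).comp (QuotientGroup.mk' E) = QuotientGroup.mk' (N m) := by
    intro m
    ext z
    rfl
  have hmap : ∀ m, MonoidAlgebra.mapDomainRingHom ℤ (l m) a = 0 := by
    intro m
    rw [ha, ← fox_comp_apply, hl, h]
  -- separation of pairs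
  have hsep : ∀ γ γ' : FreeGroup Y ⧸ E, γ ≠ γ' → ∃ m, ∀ m' ≥ m, l m' γ ≠ l m' γ' := by
    intro γ γ' hne
    obtain ⟨g, rfl⟩ := QuotientGroup.mk_surjective γ
    obtain ⟨g', rfl⟩ := QuotientGroup.mk_surjective γ'
    have h1 : g⁻¹ * g' ∉ E := fun hmem => hne (QuotientGroup.eq.2 hmem)
    rw [hE] at h1
    push Not at h1
    obtain ⟨m, hm⟩ := h1
    refine ⟨m, fun m' hm' heq => hm (hanti hm' ?_)⟩
    exact QuotientGroup.eq.1 heq
  choose! M hM using hsep
  set S := a.coeff.support with hS
  set m := (S ×ˢ S).sup fun p => M p.1 p.2 with hm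
  have hinj : Set.InjOn (l m) (S : Set (FreeGroup Y ⧸ E)) := by
    intro γ hγ γ' hγ' heq
    by_contra hne
    refine hM γ γ' hne m ?_ heq
    exact Finset.le_sup (f := fun p : (FreeGroup Y ⧸ E) × (FreeGroup Y ⧸ E) => M p.1 p.2)
      (Finset.mem_product.2 ⟨hγ, hγ'⟩ : (γ, γ') ∈ S ×ˢ S)
  have h0 := hmap m
  have h1 : Finsupp.mapDomain (l m) a.coeff = 0 := by
    have := congrArg MonoidAlgebra.coeff h0
    simpa using this
  have h2 : a.coeff = 0 := by
    refine Finsupp.mapDomain_injOn (S : Set (FreeGroup Y ⧸ E)) hinj ?_ ?_ ?_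
    · simp [hS]
    · simp
    · rw [h1, Finsupp.mapDomain_zero]
  exact MonoidAlgebra.coeff_injective (by rw [h2]; rfl)

theorem perfect_eq_bot {Y : Type*} (K : Subgroup (FreeGroup Y)) (hK : K ≤ ⁅K, K⁆) : K = ⊥ := by
  have hcomm : ∀ k : K, k ∈ commutator K := by
    intro k
    have h1 : (k : FreeGroup Y) ∈ (commutator K).map K.subtype := by
      rw [commutator_def, Subgroup.map_commutator, ← MonoidHom.range_eq_map, Subgroup.range_subtype]
      exact hK k.2
    obtain ⟨k', hk', he⟩ := h1
    have : k' = k := Subtype.ext he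
    rwa [← this]
  have hempty : IsEmpty (IsFreeGroup.Generators K) := by
    constructor
    intro x
    let φ : K →* Multiplicative ℤ := IsFreeGroup.lift fun _ => Multiplicative.ofAdd 1
    have h1 : φ (IsFreeGroup.of x) = 1 := by
      have h2 : commutator K ≤ φ.ker := Abelianization.commutator_subset_ker φ
      exact h2 (hcomm _)
    have h3 : φ (IsFreeGroup.of x) = Multiplicative.ofAdd 1 := IsFreeGroup.lift_of _ x
    rw [h1] at h3
    have := congrArg Multiplicative.toAdd h3
    simp at this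
  have hsub : Subsingleton K := (IsFreeGroup.toFreeGroup K).toEquiv.subsingleton
  exact Subgroup.eq_bot_of_subsingleton K

theorem freeGroup_rs (Y : Type*) : RS (FreeGroup Y) := by
  intro g hg
  let N : ℕ → Subgroup (FreeGroup Y) := fun m => derivedSeries (FreeGroup Y) m
  let E : Subgroup (FreeGroup Y) := ⨅ m, N m
  have hN : ∀ m, (N m).Normal := fun m => derivedSeries_normal _ m
  have hEn : E.Normal := Subgroup.normal_iInf_normal hN
  have hE : ∀ x, x ∈ E ↔ ∀ m, x ∈ N m := fun x => Subgroup.mem_iInf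
  have hanti : Antitone N := derivedSeries_antitone (FreeGroup Y)
  have hle : E ≤ ⁅E, E⁆ := by
    intro x hx
    have h1 : fox (QuotientGroup.mk' E) x = 0 := by
      ext1 y
      rw [Finsupp.zero_apply]
      refine fox_iInf_eq_zero N E hE hanti x y fun m => ?_
      have h2 : fox (QuotientGroup.mk' (N m)) x = 0 := by
        apply fox_eq_zero_of_mem
        rw [QuotientGroup.ker_mk']
        exact (hE x).1 hx (m + 1)
      rw [h2, Finsupp.zero_apply]
    have h3 : (QuotientGroup.mk' E) x = 1 := (QuotientGroup.eq_one_iff x).2 hx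
    have h4 := mem_of_fox_eq_zero (QuotientGroup.mk' E) h3 h1
    rwa [QuotientGroup.ker_mk'] at h4
  have hbot := perfect_eq_bot E hle
  have hgE : g ∈ E := (hE g).2 hg
  rw [hbot] at hgE
  exact Subgroup.mem_bot.1 hgE

theorem freeGroup_uniqueProds (Y : Type*) : UniqueProds (FreeGroup Y) := by
  refine uniqueProds_of_chain (chain (1 : Monoid.End (FreeGroup Y))) (chain_antitone _) ?_
    (fun m => chain_uniqueProds _ m)
  intro x hx
  refine freeGroup_rs Y x fun m => ?_
  have h := hx m
  rwa [chain_one_eq] at h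

end Pool.Agent.RSMonic
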