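import Pool.Agent.RSMonic.Inter
import Pool.Agent.RSMonic.Sep
import Pool.Agent.RSMonic.Coset
import Pool.Agent.RSMonic.RSof
import Pool.Agent.RSMonic.Neg
import Pool.Agent.RSMonic.Bound

/-!
# The criterion for residual solvability of monic one-relator groups
-/

set_option autoImplicit false

namespace Pool.Agent.RSMonic

open FreeGroup (of)

namespace CoreAux

section Hs

variable {k : ℕ} {B : Type*}

theorem phi_inl (τ : B → B) (v : FreeGroup (Fin k ⊕ B)) (l : Fin k) :
    phi τ v (of (Sum.inl l)) = if h : l.1 + 1 < k then of (Sum.inl ⟨l.1 + 1, h⟩) else v :=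
  FreeGroup.lift_apply_of

theorem phi_inr (τ : B → B) (v : FreeGroup (Fin k ⊕ B)) (b : B) :
    phi τ v (of (Sum.inr b)) = of (Sum.inr (τ b)) :=
  FreeGroup.lift_apply_of

theorem Hs_zero : Hs k B 0 = ⊤ := by
  have : up k B 0 = Set.univ := by
    ext x
    simp [up]
  rw [Hs, this, Set.image_univ, FreeGroup.closure_range_of]

theorem Hs_antitone {i j : ℕ} (h : i ≤ j) : Hs k B j ≤ Hs k B i := by
  refine Subgroup.closure_mono (Set.image_mono ?_)
  intro x hx l hl
  exact h.trans (hx l hl)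

theorem phi_mem_Hs (τ : B → B) {i j : ℕ} (hj : j + 1 ≤ i) {h : FreeGroup (Fin k ⊕ B)}
    (hh : h ∈ Hs k B i) {x : FreeGroup (Fin k ⊕ B)} (hx : x ∈ Hs k B j) :
    phi τ h x ∈ Hs k B (j + 1) := by
  have : Hs k B j ≤ (Hs k B (j + 1)).comap (phi τ h) := by
    rw [Hs, Subgroup.closure_le]
    rintro _ ⟨x, hx, rfl⟩
    show phi τ h (of x) ∈ Hs k B (j + 1)
    rcases x with l | b
    · have hl : j ≤ l.1 := hx l rfl
      rw [phi_inl]
      split_ifs with h1
      · refine Subgroup.subset_closure ⟨_, ?_, rfl⟩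
        intro l' hl'
        rw [Sum.inl.injEq] at hl'
        rw [← hl']
        exact Nat.succ_le_succ hl
      · exact Hs_antitone hj hh
    · rw [phi_inr]
      refine Subgroup.subset_closure ⟨_, ?_, rfl⟩
      intro l hl
      cases hl
  exact this hx

theorem phi_pow_mem_Hs (τ : B → B) {i : ℕ} {h : FreeGroup (Fin k ⊕ B)} (hh : h ∈ Hs k B i) (j : ℕ)
    (hj : j ≤ i) (x : FreeGroup (Fin k ⊕ B)) : (phi τ h ^ j) x ∈ Hs k B j := by
  induction j with
  | zero => rw [Hs_zero]; trivial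
  | succ j ih =>
    rw [pow_succ']
    exact phi_mem_Hs τ hj hh (ih (by omega))

end Hs

end CoreAux

open CoreAux

section Core

variable {k : ℕ} {B : Type*}

theorem cert_bounded [DecidableEq B] (τ : B → B) (hτ : Function.Injective τ)
    (w : FreeGroup (Fin k ⊕ B)) (hno : ∃ x ≠ 1, ∀ m, x ∈ chain (phi τ w) m) :
    ∃ h, Cert τ w h ∧ h.toWord.length ≤ w.toWord.length ∧
      ∀ z ∈ h.toWord, ∃ e, (z.1, e) ∈ w.toWord := by
  classical
  set φ := phi τ w with hφ
  let E : Subgroup (FreeGroup (Fin k ⊕ B)) := ⨅ m, chain φ m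
  have hE : ∀ x, x ∈ E ↔ ∀ m, x ∈ chain φ m := fun x => Subgroup.mem_iInf
  have : E.Normal := Subgroup.normal_iInf_normal fun m => chain_normal φ m
  -- the least alive index
  let P : ℕ → Prop := fun l => ∃ hl : l < k, ∃ m,
    fox (QuotientGroup.mk' (chain φ m)) w (Sum.inl ⟨l, hl⟩) ≠ 0
  have hex : ∃ l, P l ∨ l = k := ⟨k, Or.inr rfl⟩
  let i := Nat.find hex
  have hik : i ≤ k := Nat.find_min' hex (Or.inr rfl)
  have hdead : ∀ m, ∀ l : Fin k, l.1 < i →
      fox (QuotientGroup.mk' (chain φ m)) w (Sum.inl l) = 0 := by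
    intro m l hl
    by_contra hne
    exact Nat.find_min hex hl (Or.inl ⟨l.2, m, hne⟩)
  have halive : ∃ m, ∀ l : Fin k, l.1 = i →
      fox (QuotientGroup.mk' (chain φ m)) w (Sum.inl l) ≠ 0 := by
    rcases Nat.find_spec hex with ⟨hl, m, hm⟩ | h
    · refine ⟨m, ?_⟩
      intro l hli
      have : l = ⟨Nat.find hex, hl⟩ := Fin.ext hli
      rw [this]
      exact hm
    · refine ⟨0, fun l hl => ?_⟩
      have h1 := l.2
      have h2 : l.1 = Nat.find hex := hl
      omega
  have hint : ∀ x ∈ Hs k B i, x ∈ E → x = 1 := fun x hx hx' =>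
    inter_trivial τ hτ w i hik hdead halive x hx ((hE x).1 hx')
  have hi1 : 1 ≤ i := by
    by_contra h0
    have h0' : i = 0 := by omega
    obtain ⟨x, hx1, hx⟩ := hno
    refine hx1 (hint x ?_ ((hE x).2 hx))
    rw [h0', Hs_zero]
    trivial
  have hdeadE : ∀ x ∉ up k B i, fox (QuotientGroup.mk' E) w x = 0 := by
    intro x hx
    simp only [up, Set.mem_ofPred_eq, not_forall] at hx
    obtain ⟨l, rfl, hl⟩ := hx
    exact fox_iInf_eq_zero (fun m => chain φ m) E hE (chain_antitone φ) w _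
      fun m => hdead m l (by omega)
  have hinj : Set.InjOn (QuotientGroup.mk' E) (Subgroup.closure (of '' up k B i)) := by
    intro x hx y hy hxy
    have h1 : x⁻¹ * y ∈ E := by
      rw [QuotientGroup.mk'_apply, QuotientGroup.mk'_apply, QuotientGroup.eq] at hxy
      exact hxy
    have h2 : x⁻¹ * y = 1 := hint _ (Subgroup.mul_mem _ (Subgroup.inv_mem _ hx) hy) h1
    exact (inv_mul_eq_one.1 h2)
  obtain ⟨h, hhS, hh1, hh2⟩ := coset_lemma (up k B i) (QuotientGroup.mk' E) hinj w hdeadE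
  have hmem : w * h⁻¹ ∈ ⁅E, E⁆ := by
    have := mem_of_fox_eq_zero (QuotientGroup.mk' E) (x := w * h⁻¹)
      (by rw [map_mul, map_inv, hh1, mul_inv_cancel])
      (fox_mul_inv_of_eq _ hh1.symm hh2.symm)
    rwa [QuotientGroup.ker_mk'] at this
  set ψ := phi τ h with hψ
  have hcomp : ∀ x, QuotientGroup.mk' E (φ x) = QuotientGroup.mk' E (ψ x) := by
    have : (QuotientGroup.mk' E).comp φ = (QuotientGroup.mk' E).comp ψ := by
      ext x
      show QuotientGroup.mk' E (phi τ w (of x)) = QuotientGroup.mk' E (phi τ h (of x))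
      rcases x with l | b
      · rw [phi_inl, phi_inl]
        split_ifs with h1
        · rfl
        · exact hh1.symm
      · rw [phi_inr, phi_inr]
    exact fun x => DFunLike.congr_fun this x
  have hφE : ∀ a b, QuotientGroup.mk' E a = QuotientGroup.mk' E b →
      QuotientGroup.mk' E (φ a) = QuotientGroup.mk' E (φ b) := by
    intro a b hab
    rw [QuotientGroup.mk'_apply, QuotientGroup.mk'_apply, QuotientGroup.eq] at hab ⊢
    rw [← map_inv, ← map_mul, hE]
    rw [hE] at hab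
    exact fun m => map_mem_chain φ (hab m)
  have hpow : ∀ m x, QuotientGroup.mk' E ((φ ^ m) x) = QuotientGroup.mk' E ((ψ ^ m) x) := by
    intro m
    induction m with
    | zero => intro x; rfl
    | succ m ih =>
      intro x
      rw [pow_succ', pow_succ']
      show QuotientGroup.mk' E (φ ((φ ^ m) x)) = QuotientGroup.mk' E (ψ ((ψ ^ m) x))
      rw [hφE _ _ (ih x), hcomp]
  have hEpow : ∀ m x, (φ ^ m) x ∈ E ↔ x ∈ E := by
    intro m x
    rw [hE, hE]
    exact forall_congr' fun j => pow_mem_chain_iff φ m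
  have hEker : E ≤ MonoidHom.ker (ψ ^ k : Monoid.End (FreeGroup (Fin k ⊕ B))) := by
    intro x hx
    have h1 : (ψ ^ i) x ∈ E := by
      have h2 : (φ ^ i) x ∈ E := (hEpow i x).2 hx
      have h3 := hpow i x
      rw [QuotientGroup.mk'_apply, QuotientGroup.mk'_apply, QuotientGroup.eq] at h3
      have := Subgroup.mul_mem _ h2 h3
      rwa [mul_inv_cancel_left] at this
    have h2 : (ψ ^ i) x = 1 := hint _ (phi_pow_mem_Hs τ hhS i le_rfl x) h1
    show (ψ ^ k) x = 1
    have h3 : ψ ^ k = ψ ^ (k - i) * ψ ^ i := by rw [← pow_add]; congr 1; omega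
    rw [h3]
    show (ψ ^ (k - i)) ((ψ ^ i) x) = 1
    rw [h2, map_one]
  have hcert : Cert τ w h := by
    refine ⟨Hs_antitone hi1 hhS, ?_⟩
    exact Subgroup.commutator_mono hEker hEker hmem
  refine ⟨h, hcert, ?_⟩
  have hinj' : Set.InjOn (ψ ^ k : Monoid.End (FreeGroup (Fin k ⊕ B)))
      (Subgroup.closure (of '' up k B i)) := by
    intro x hx y hy hxy
    have h1 : (ψ ^ k) (x⁻¹ * y) = 1 := by
      rw [map_mul, map_inv]
      exact inv_mul_eq_one.2 hxy
    have h2 : (φ ^ k) (x⁻¹ * y) ∈ E := by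
      have := hpow k (x⁻¹ * y)
      rw [h1, map_one, QuotientGroup.mk'_apply, QuotientGroup.eq_one_iff] at this
      exact this
    have h3 := hint _ (Subgroup.mul_mem _ (Subgroup.inv_mem _ hx) hy) ((hEpow k _).1 h2)
    exact inv_mul_eq_one.1 h3
  have hfox : fox (ψ ^ k : Monoid.End (FreeGroup (Fin k ⊕ B))) h =
      fox (ψ ^ k : Monoid.End (FreeGroup (Fin k ⊕ B))) w := by
    have h1 := hcert.2
    have h2 := fox_eq_zero_of_mem (ψ ^ k : Monoid.End (FreeGroup (Fin k ⊕ B))) h1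
    have h3 : (ψ ^ k) w = (ψ ^ k) h := by
      have h4 : (ψ ^ k) (w * h⁻¹) = 1 := Subgroup.commutator_le_left _ _ h1
      rw [map_mul, map_inv] at h4
      exact mul_inv_eq_one.1 h4
    exact ((fox_mul_inv_eq_zero_iff _ h3).1 h2).symm
  refine fox_bound (up k B i) (ψ ^ k : Monoid.End (FreeGroup (Fin k ⊕ B))) hinj' h hhS w.toWord ?_
  rw [FreeGroup.mk_toWord]
  exact hfox

theorem core [DecidableEq B] {G : Type*} [Group G] (hk : 0 < k) (τ : B → B)
    (hτ : Function.Injective τ) (w : FreeGroup (Fin k ⊕ B)) (hw : w ∉ Hs k B 1)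
    (ι : FreeGroup (Fin k ⊕ B) →* G)
    (hι : Function.Injective ι) (t : G) (hconj : ∀ x, t⁻¹ * ι x * t = ι (phi τ w x))
    (hgen : Subgroup.closure (Set.range ι ∪ {t}) = ⊤) :
    RS G ↔ ¬ ∃ h, Cert τ w h ∧ h.toWord.length ≤ w.toWord.length ∧
      ∀ z ∈ h.toWord, ∃ e, (z.1, e) ∈ w.toWord := by
  constructor
  · rintro hRS ⟨h, hc, _⟩
    exact not_rs_of_cert τ w h hw hc ι hι t hconj hRS
  · intro hno
    refine rs_of (phi τ w) ι hι t hconj hgen ?_
    intro x hx
    by_contra hx1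
    exact hno (cert_bounded τ hτ w ⟨x, hx1, hx⟩)

theorem core_zero {B G : Type*} [Group G] (τ : B → B)
    (hτ : Function.Injective τ) (w : FreeGroup (Fin 0 ⊕ B)) (ι : FreeGroup (Fin 0 ⊕ B) →* G)
    (hι : Function.Injective ι) (t : G) (hconj : ∀ x, t⁻¹ * ι x * t = ι (phi τ w x))
    (hgen : Subgroup.closure (Set.range ι ∪ {t}) = ⊤) : RS G := by
  refine rs_of (phi τ w) ι hι t hconj hgen ?_
  intro x hx
  refine inter_trivial τ hτ w 0 le_rfl (fun m l => l.elim0) ⟨0, fun l => l.elim0⟩ x ?_ hx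
  rw [Hs_zero]
  trivial

end Core

end Pool.Agent.RSMonic
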