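import Pool.Agent.RSMonic.Core
import Pool.Agent.RSMonic.Pres
import Pool.Agent.RSMonic.Test
import Pool.Agent.RSMonic.Bound

/-!
# Correctness of the decision `dec`
-/

set_option autoImplicit false

namespace Pool.Agent.RSMonic

open FreeGroup (of)

namespace DecAux

/-- letterwise map on words -/
def lmap {X Z : Type*} (j : X → Z) (L : List (X × Bool)) : List (Z × Bool) :=
  L.map fun z => (j z.1, z.2)

theorem mk_lmap {X Z : Type*} (j : X → Z) (L : List (X × Bool)) :
    FreeGroup.mk (lmap j L) = FreeGroup.map j (FreeGroup.mk L) := by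
  rw [FreeGroup.map.mk]
  rfl

theorem reduced_of_lmap {X Z : Type*} [DecidableEq X] [DecidableEq Z] (j : X → Z)
    (L : List (X × Bool)) (h : FreeGroup.IsReduced (lmap j L)) : FreeGroup.IsReduced L := by
  rw [FreeGroup.IsReduced, lmap, List.isChain_map] at h
  exact h.imp fun a b hab hab' => hab (by rw [hab'])

theorem exists_lmap {X Z : Type*} (j : X → Z) (W : List (Z × Bool))
    (hW : ∀ z ∈ W, z.1 ∈ Set.range j) : ∃ L : List (X × Bool), lmap j L = W := by
  induction W with
  | nil => exact ⟨[], rfl⟩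
  | cons z W ih =>
    obtain ⟨L, hL⟩ := ih fun y hy => hW y (List.mem_cons_of_mem _ hy)
    obtain ⟨x, hx⟩ := hW z (by simp)
    exact ⟨(x, z.2) :: L, by rw [lmap, List.map_cons, hx]; exact congrArg _ hL⟩

theorem jL_injective (κ k n : ℕ) : Function.Injective (jL κ k n) := by
  rintro (l | b) (l' | b') h
  · simp only [jL, Sum.elim_inl, Prod.mk.injEq] at h
    exact congrArg _ (Fin.ext (by omega))
  · simp only [jL, Sum.elim_inl, Sum.elim_inr, Prod.mk.injEq] at h
    have := b'.1.2.1
    omega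
  · simp only [jL, Sum.elim_inl, Sum.elim_inr, Prod.mk.injEq] at h
    have := b.1.2.1
    omega
  · simp only [jL, Sum.elim_inr, Prod.mk.injEq] at h
    exact congrArg _ (Prod.ext (Subtype.ext h.1) h.2)

theorem tauL_injective (n : ℕ) : Function.Injective (tauL n) := by
  intro b b' h
  simp only [tauL, Prod.mk.injEq, add_left_inj] at h
  exact Prod.ext h.1 h.2

theorem mem_alph (κ : ℕ) (W : LW) (z : (ℕ × ℕ) × Bool) :
    z ∈ alph κ W ↔ z.1 ≠ (1, κ) ∧ ∃ e, (z.1, e) ∈ W := by
  simp only [alph, List.mem_flatMap, List.mem_filter, decide_eq_true_eq, List.mem_cons,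
    List.not_mem_nil, or_false]
  constructor
  · rintro ⟨y, ⟨hy, hy'⟩, rfl | rfl⟩
    · exact ⟨hy', z.2, hy⟩
    · exact ⟨hy', y.2, hy⟩
  · rintro ⟨h1, e, he⟩
    refine ⟨(z.1, e), ⟨he, h1⟩, ?_⟩
    obtain ⟨p, b⟩ := z
    cases b <;> cases e <;> simp

/-- `ψ_{h'} ∘ j = j ∘ φ_h`. -/
theorem psiHom_comp (κ K n : ℕ) (Lh : List ((Fin (K - κ) ⊕ BL n) × Bool)) :
    (psiHom K (lmap (jL κ (K - κ) n) Lh) : FreeGroup (ℕ × ℕ) →* FreeGroup (ℕ × ℕ)).comp
        (FreeGroup.map (jL κ (K - κ) n)) =
      (FreeGroup.map (jL κ (K - κ) n)).comp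
        (phi (tauL n) (FreeGroup.mk Lh) : FreeGroup (Fin (K - κ) ⊕ BL n) →* _) := by
  ext x
  show psiHom K (lmap (jL κ (K - κ) n) Lh) (FreeGroup.map (jL κ (K - κ) n) (of x)) =
    FreeGroup.map (jL κ (K - κ) n) (phi (tauL n) (FreeGroup.mk Lh) (of x))
  rw [FreeGroup.map.of, psiHom_of]
  rcases x with l | b
  · rw [CoreAux.phi_inl]
    have hl := l.2
    split_ifs with h1
    · rw [FreeGroup.map.of]
      simp only [jL, Sum.elim_inl, psiLetter]
      rw [if_neg (by omega)]
      rfl
    · simp only [jL, Sum.elim_inl, psiLetter]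
      rw [if_pos ⟨trivial, by omega⟩, if_pos trivial]
      exact mk_lmap _ _
  · rw [CoreAux.phi_inr, FreeGroup.map.of]
    have := b.1.2.1
    simp only [jL, Sum.elim_inr, psiLetter, tauL]
    rw [if_neg (by omega)]
    rfl

theorem psiHom_pow_comp (κ K n : ℕ) (Lh : List ((Fin (K - κ) ⊕ BL n) × Bool)) (m : ℕ)
    (x : FreeGroup (Fin (K - κ) ⊕ BL n)) :
    (psiHom K (lmap (jL κ (K - κ) n) Lh) ^ m) (FreeGroup.map (jL κ (K - κ) n) x) =
      FreeGroup.map (jL κ (K - κ) n) ((phi (tauL n) (FreeGroup.mk Lh) ^ m) x) := by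
  induction m with
  | zero => rfl
  | succ m ih =>
    rw [pow_succ', pow_succ']
    show psiHom K (lmap (jL κ (K - κ) n) Lh)
        ((psiHom K (lmap (jL κ (K - κ) n) Lh) ^ m) (FreeGroup.map (jL κ (K - κ) n) x)) =
      FreeGroup.map (jL κ (K - κ) n) (phi (tauL n) (FreeGroup.mk Lh)
        ((phi (tauL n) (FreeGroup.mk Lh) ^ m) x))
    rw [ih]
    exact DFunLike.congr_fun (psiHom_comp κ K n Lh) _

/-- the test decides the certificate condition -/
theorem test_iff (κ K n : ℕ) (L Lh : List ((Fin (K - κ) ⊕ BL n) × Bool)) :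
    test K (K - κ) (lmap (jL κ (K - κ) n) Lh)
        (lmap (jL κ (K - κ) n) L ++ inv (lmap (jL κ (K - κ) n) Lh)) = true ↔
      FreeGroup.mk L * (FreeGroup.mk Lh)⁻¹ ∈
        ⁅MonoidHom.ker (phi (tauL n) (FreeGroup.mk Lh) ^ (K - κ) :
            Monoid.End (FreeGroup (Fin (K - κ) ⊕ BL n))),
          MonoidHom.ker (phi (tauL n) (FreeGroup.mk Lh) ^ (K - κ) :
            Monoid.End (FreeGroup (Fin (K - κ) ⊕ BL n)))⁆ := by
  rw [fox_test]
  have e1 : FreeGroup.mk (lmap (jL κ (K - κ) n) L ++ inv (lmap (jL κ (K - κ) n) Lh)) =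
      FreeGroup.map (jL κ (K - κ) n) (FreeGroup.mk L * (FreeGroup.mk Lh)⁻¹) := by
    rw [← FreeGroup.mul_mk, mk_inv_eq, mk_lmap, mk_lmap, map_mul, map_inv]
  rw [e1]
  change FreeGroup.map (jL κ (K - κ) n) (FreeGroup.mk L * (FreeGroup.mk Lh)⁻¹) ∈
    ⁅(thetaHom K (K - κ) (lmap (jL κ (K - κ) n) Lh)).ker,
      (thetaHom K (K - κ) (lmap (jL κ (K - κ) n) Lh)).ker⁆ ↔ _
  rw [mem_commutator_ker_map _ (jL_injective κ (K - κ) n)]
  have e2 : ((thetaHom K (K - κ) (lmap (jL κ (K - κ) n) Lh)).comp
      (FreeGroup.map (jL κ (K - κ) n))).ker =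
      MonoidHom.ker (phi (tauL n) (FreeGroup.mk Lh) ^ (K - κ) :
            Monoid.End (FreeGroup (Fin (K - κ) ⊕ BL n))) := by
    ext x
    show thetaHom K (K - κ) (lmap (jL κ (K - κ) n) Lh) (FreeGroup.map (jL κ (K - κ) n) x) = 1 ↔
      (phi (tauL n) (FreeGroup.mk Lh) ^ (K - κ)) x = 1
    rw [thetaHom_eq]
    show (psiHom K (lmap (jL κ (K - κ) n) Lh) ^ (K - κ)) (FreeGroup.map (jL κ (K - κ) n) x) = 1 ↔ _
    rw [psiHom_pow_comp]
    constructor
    · intro h
      exact FreeGroup.map_injective (jL_injective κ (K - κ) n) (by rw [h, map_one])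
    · intro h
      rw [h, map_one]
  rw [e2]

theorem phi_injective_zero {k : ℕ} {B : Type*} (hk : k = 0) (τ : B → B)
    (hτ : Function.Injective τ) (w : FreeGroup (Fin k ⊕ B)) : Function.Injective (phi τ w) := by
  subst hk
  have h1 : ∀ x, phi τ w x = FreeGroup.map (Sum.map id τ) x := by
    have : (phi τ w : FreeGroup (Fin 0 ⊕ B) →* FreeGroup (Fin 0 ⊕ B)) =
        FreeGroup.map (Sum.map id τ) := by
      refine FreeGroup.ext_hom _ _ fun x => ?_
      show phi τ w (of x) = FreeGroup.map (Sum.map id τ) (of x)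
      rcases x with l | b
      · exact l.elim0
      · rw [CoreAux.phi_inr, FreeGroup.map.of]
        rfl
    exact fun x => DFunLike.congr_fun this x
  intro x y hxy
  rw [h1, h1] at hxy
  exact FreeGroup.map_injective (Function.Injective.sumMap Function.injective_id hτ) hxy

theorem core_zero' {k : ℕ} {B G : Type*} [Group G] (hk : k = 0) (τ : B → B)
    (hτ : Function.Injective τ) (w : FreeGroup (Fin k ⊕ B)) (ι : FreeGroup (Fin k ⊕ B) →* G)
    (hι : Function.Injective ι) (t : G) (hconj : ∀ x, t⁻¹ * ι x * t = ι (phi τ w x))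
    (hgen : Subgroup.closure (Set.range ι ∪ {t}) = ⊤) : RS G := by
  subst hk
  exact core_zero τ hτ w ι hι t hconj hgen

end DecAux

open DecAux

theorem dec_correct (n κ K : ℕ) (W : LW) (hv : Valid n κ K W) :
    dec κ K W = true ↔ RS (OneRel n (monicRel K W)) := by
  classical
  obtain ⟨hn, hκ, hred, hlet, hocc⟩ := hv
  obtain ⟨L, hL⟩ := exists_lmap (jL κ (K - κ) n) W (by
    intro z hz
    rcases hlet z hz with ⟨h1, h2, h3⟩ | ⟨h1, h2⟩
    · refine ⟨Sum.inl ⟨z.1.2 - κ, by omega⟩, ?_⟩
      simp only [jL, Sum.elim_inl]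
      exact Prod.ext h1.symm (by show κ + (z.1.2 - κ) = z.1.2; omega)
    · exact ⟨Sum.inr (⟨z.1.1, h1, h2⟩, z.1.2), rfl⟩)
  have hWred : FreeGroup.IsReduced W := FreeGroup.IsReduced.of_reduce_eq hred
  have hLred : FreeGroup.IsReduced L := by
    refine reduced_of_lmap (jL κ (K - κ) n) L ?_
    rw [hL]
    exact hWred
  set w : FreeGroup (Fin (K - κ) ⊕ BL n) := FreeGroup.mk L with hw
  have hwL : w.toWord = L := by
    rw [hw, FreeGroup.toWord_mk, hLred.reduce_eq]
  have hwW : FreeGroup.map (jL κ (K - κ) n) w = FreeGroup.mk W := by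
    rw [hw, ← mk_lmap, hL]
  have hlen : L.length = W.length := by
    rw [← hL, lmap, List.length_map]
  by_cases hk : κ = K
  · -- free case
    have hk0 : K - κ = 0 := by omega
    have hphi : Function.Injective (phi (tauL n) w) := phi_injective_zero hk0 _ (tauL_injective n) w
    obtain ⟨h1, h2, h3⟩ := pres n κ K W hn hκ w hwW hphi
    have h4 : RS (OneRel n (monicRel K W)) :=
      core_zero' hk0 (tauL n) (tauL_injective n) w _ h1 _ h2 h3
    simp only [dec, hk, decide_true, Bool.true_or, true_iff]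
    exact h4
  · have hk0 : 0 < K - κ := by omega
    have hocc' : ∃ z ∈ W, z.1 = (1, κ) := by
      rcases hocc with h | h
      · exact absurd h hk
      · exact h
    have hw1 : w ∉ Hs (K - κ) (BL n) 1 := by
      intro hmem
      obtain ⟨z, hz, hz1⟩ := hocc'
      rw [← hL, lmap, List.mem_map] at hz
      obtain ⟨y, hy, rfl⟩ := hz
      have h1 := BoundAux.letters_mem _ w hmem y (by rw [hwL]; exact hy)
      rcases hy1 : y.1 with l | b
      · have h2 := h1 l hy1
        simp only [hy1, jL, Sum.elim_inl, Prod.mk.injEq] at hz1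
        omega
      · simp only [hy1, jL, Sum.elim_inr, Prod.mk.injEq] at hz1
        have := b.1.2.1
        omega
    have hphi := phi_injective hk0 (tauL n) (tauL_injective n) w hw1
    obtain ⟨h1, h2, h3⟩ := pres n κ K W hn hκ w hwW hphi
    rw [core hk0 (tauL n) (tauL_injective n) w hw1 _ h1 _ h2 h3]
    simp only [dec, hk, decide_false, Bool.false_or, Bool.not_eq_true', decide_eq_false_iff_not]
    refine not_congr ?_
    constructor
    · rintro ⟨h, hh, ht⟩
      rw [mem_wordsLE] at hh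
      obtain ⟨hhlen, hhlet⟩ := hh
      obtain ⟨Lh, hLh⟩ := exists_lmap (jL κ (K - κ) n) h (by
        intro z hz
        obtain ⟨_, e, he⟩ := (mem_alph _ _ _).1 (hhlet z hz)
        rw [← hL, lmap, List.mem_map] at he
        obtain ⟨y, _, hy⟩ := he
        exact ⟨y.1, congrArg Prod.fst hy⟩)
      have hLhW : ∀ z ∈ Lh, z.1 ∈ up (K - κ) (BL n) 1 ∧ ∃ e, (z.1, e) ∈ L := by
        intro z hz
        have hz' : (jL κ (K - κ) n z.1, z.2) ∈ h := by
          rw [← hLh]
          exact List.mem_map.2 ⟨z, hz, rfl⟩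
        obtain ⟨h4, e, he⟩ := (mem_alph _ _ _).1 (hhlet _ hz')
        constructor
        · intro l hl
          by_contra h0
          apply h4
          have h00 : l.1 = 0 := by omega
          show jL κ (K - κ) n z.1 = (1, κ)
          rw [hl]
          simp [jL, h00]
        · rw [← hL, lmap, List.mem_map] at he
          obtain ⟨y, hy, hy'⟩ := he
          have h5 : y.1 = z.1 := jL_injective κ (K - κ) n (congrArg Prod.fst hy')
          exact ⟨y.2, by rw [← h5]; exact hy⟩
      have hsub : (FreeGroup.mk Lh).toWord.Sublist Lh := by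
        rw [FreeGroup.toWord_mk]
        exact FreeGroup.Red.sublist FreeGroup.reduce.red
      refine ⟨FreeGroup.mk Lh, ⟨?_, ?_⟩, ?_, ?_⟩
      · -- `h ∈ H_1`
        clear ht hhlen hhlet hLh hsub
        induction Lh with
        | nil => exact Subgroup.one_mem _
        | cons z Lh ih =>
          rw [BoundAux.mk_cons]
          refine Subgroup.mul_mem _ ?_ (ih fun y hy => hLhW y (List.mem_cons_of_mem _ hy))
          have h6 : of z.1 ∈ Hs (K - κ) (BL n) 1 :=
            Subgroup.subset_closure ⟨z.1, (hLhW z (by simp)).1, rfl⟩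
          obtain ⟨x, b⟩ := z
          cases b
          · exact Subgroup.inv_mem _ h6
          · exact h6
      · rw [← hLh, ← hL, test_iff] at ht
        exact ht
      · rw [hwL, hlen]
        refine hsub.length_le.trans ?_
        rw [← hLh, lmap, List.length_map] at hhlen
        exact hhlen
      · intro z hz
        rw [hwL]
        exact (hLhW z (hsub.subset hz)).2
    · rintro ⟨h, ⟨hh1, hcert⟩, hhlen, hhlet⟩
      refine ⟨lmap (jL κ (K - κ) n) h.toWord, ?_, ?_⟩
      · rw [mem_wordsLE]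
        constructor
        · rw [lmap, List.length_map]
          rw [hwL, hlen] at hhlen
          exact hhlen
        · intro a ha
          rw [lmap, List.mem_map] at ha
          obtain ⟨z, hz, rfl⟩ := ha
          rw [mem_alph]
          constructor
          · intro h4
            have h5 := BoundAux.letters_mem _ h hh1 z hz
            change jL κ (K - κ) n z.1 = (1, κ) at h4
            rcases hz1 : z.1 with l | b
            · have h6 := h5 l hz1
              simp only [hz1, jL, Sum.elim_inl, Prod.mk.injEq] at h4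
              omega
            · simp only [hz1, jL, Sum.elim_inr, Prod.mk.injEq] at h4
              have := b.1.2.1
              omega
          · obtain ⟨e, he⟩ := hhlet z hz
            rw [hwL] at he
            refine ⟨e, ?_⟩
            rw [← hL]
            exact List.mem_map.2 ⟨_, he, rfl⟩
      · rw [← hL, test_iff, FreeGroup.mk_toWord]
        exact hcert

end Pool.Agent.RSMonic
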