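import Pool.Agent.RSMonic.Fox
import Mathlib

/-!
# Monic one-relator groups: definitions

`X = {a_0, …, a_{k-1}} ⊔ B`, `τ : B → B` injective, `φ_v : a_l ↦ a_{l+1}, a_{k-1} ↦ v, b ↦ τ b`.
-/

set_option autoImplicit false

namespace Pool.Agent.RSMonic

open FreeGroup (of)

/-! ## algebra -/

section Alg

variable {k : ℕ} {B : Type*}

/-- the endomorphism `φ_v` of `F(a_0,…,a_{k-1}, B)`. -/
def phi (τ : B → B) (v : FreeGroup (Fin k ⊕ B)) : Monoid.End (FreeGroup (Fin k ⊕ B)) :=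
  FreeGroup.lift (Sum.elim (fun l : Fin k => if h : l.1 + 1 < k then of (Sum.inl ⟨l.1 + 1, h⟩) else v)
    (fun b => of (Sum.inr (τ b))))

/-- the letters `a_l (l ≥ i)` and `b ∈ B`. -/
def up (k : ℕ) (B : Type*) (i : ℕ) : Set (Fin k ⊕ B) := {x | ∀ l : Fin k, x = Sum.inl l → i ≤ l.1}

/-- the free factor `H_i = ⟨a_l (l ≥ i), B⟩`. -/
def Hs (k : ℕ) (B : Type*) (i : ℕ) : Subgroup (FreeGroup (Fin k ⊕ B)) :=
  Subgroup.closure (of '' up k B i)

/-- the chain `F_0 = F`, `F_{m+1} = {x | ∃ M, φ^M x ∈ [F_m, F_m]}` (defined as a supremum, see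
`mem_chain_succ`). -/
def chain {Y : Type*} (φ : Monoid.End (FreeGroup Y)) : ℕ → Subgroup (FreeGroup Y)
  | 0 => ⊤
  | m + 1 => ⨆ M : ℕ, (⁅chain φ m, chain φ m⁆).comap (φ ^ M : Monoid.End (FreeGroup Y))

/-- `h` is a certificate for `w` (`h ∈ H_1` and `w h⁻¹ ∈ [K, K]`, `K = ker φ_h^k`). -/
def Cert (τ : B → B) (w h : FreeGroup (Fin k ⊕ B)) : Prop :=
  h ∈ Hs k B 1 ∧
    w * h⁻¹ ∈ ⁅MonoidHom.ker (phi τ h ^ k : Monoid.End (FreeGroup (Fin k ⊕ B))),
      MonoidHom.ker (phi τ h ^ k : Monoid.End (FreeGroup (Fin k ⊕ B)))⁆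

end Alg

/-! ## words (lists) -/

/-- level letters `(j, l)` stand for `t^{-l} x_j t^l`, `t = x_0`. -/
abbrev LW := List ((ℕ × ℕ) × Bool)

section Words

variable {α : Type*}

/-- inverse word -/
def inv (W : List (α × Bool)) : List (α × Bool) := (W.map fun z => (z.1, !z.2)).reverse

/-- `t^{-l} x_j^{±1} t^l` as a word in the generators -/
def expandLetter (z : (ℕ × ℕ) × Bool) : List (ℕ × Bool) :=
  List.replicate z.1.2 (0, false) ++ (z.1.1, z.2) :: List.replicate z.1.2 (0, true)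

/-- a level word as a word in the generators -/
def expand (W : LW) : List (ℕ × Bool) := W.flatMap expandLetter

/-- the relator `t^{-K} a t^K · W⁻¹`, `t = x_0`, `a = x_1` -/
def monicRel (K : ℕ) (W : LW) : List (ℕ × Bool) :=
  expandLetter ((1, K), true) ++ inv (expand W)

/-- substitution `a_l ↦ a_{l+1}`, `a_{K-1} ↦ h`, `b_{j,l} ↦ b_{j,l+1}` on level words. -/
def psiLetter (K : ℕ) (h : LW) (z : (ℕ × ℕ) × Bool) : LW :=
  if z.1.1 = 1 ∧ z.1.2 + 1 = K then (if z.2 then h else inv h)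
  else [((z.1.1, z.1.2 + 1), z.2)]

def psi (K : ℕ) (h : LW) (W : LW) : LW := W.flatMap (psiLetter K h)

/-- `ψ_h^k` on words -/
def theta (K k : ℕ) (h : LW) (W : LW) : LW := (psi K h)^[k] W

/-- the `m`-th edge of the path `u` in the Cayley graph of the image of `θ = ψ_h^k`:
starting vertex (as a reduced word), letter, sign. -/
def edge (K k : ℕ) (h u : LW) (m : ℕ) : (LW × (ℕ × ℕ)) × Bool :=
  ((FreeGroup.reduce (theta K k h (u.take (if (u.getD m default).2 then m else m + 1))),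
    (u.getD m default).1), (u.getD m default).2)

def edges (K k : ℕ) (h u : LW) : List ((LW × (ℕ × ℕ)) × Bool) :=
  (List.range u.length).map (edge K k h u)

/-- the Fox test: `θ u = 1` and `D_θ u = 0`. -/
def test (K k : ℕ) (h u : LW) : Bool :=
  decide (FreeGroup.reduce (theta K k h u) = []) &&
    decide (∀ e ∈ edges K k h u, ((edges K k h u).filter fun e' => e' = (e.1, true)).length =
      ((edges K k h u).filter fun e' => e' = (e.1, false)).length)

/-- all words of length `≤ n` over the alphabet `A` -/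
def wordsLE {β : Type*} (A : List β) : ℕ → List (List β)
  | 0 => [[]]
  | n + 1 => [] :: (wordsLE A n).flatMap fun l => A.map fun a => a :: l

/-- the letters of `W` other than `a_κ`, with both signs -/
def alph (κ : ℕ) (W : LW) : LW :=
  (W.filter fun z => ¬ z.1 = (1, κ)).flatMap fun z => [z, (z.1, !z.2)]

/-- the decision for the normalised monic relator `(κ, K, W)`. -/
def dec (κ K : ℕ) (W : LW) : Bool :=
  decide (κ = K) || !decide (∃ h ∈ wordsLE (alph κ W) W.length, test K (K - κ) h (W ++ inv h) = true)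

/-- normalised data: `W` is reduced, its letters are `a_l = (1,l)` with `κ ≤ l < K` and `(j,l)` with
`2 ≤ j < n`; and `a_κ` occurs in `W` unless `κ = K`. -/
def Valid (n κ K : ℕ) (W : LW) : Prop :=
  2 ≤ n ∧ κ ≤ K ∧ FreeGroup.reduce W = W ∧
    (∀ z ∈ W, (z.1.1 = 1 ∧ κ ≤ z.1.2 ∧ z.1.2 < K) ∨ (2 ≤ z.1.1 ∧ z.1.1 < n)) ∧
    (κ = K ∨ ∃ z ∈ W, z.1 = (1, κ))

end Words

/-! ## the problem -/

/-- the one-relator group `⟨x_0,…,x_{n-1} ∣ r⟩`, as in the frozen statement. -/
abbrev OneRel (n : ℕ) (r : List (ℕ × Bool)) : Type :=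
  PresentedGroup (({FreeGroup.mk r} : Set (FreeGroup ℕ)) ∪ FreeGroup.of '' Set.Ici n)

/-- residual solvability, as in the frozen statement. -/
def RS (G : Type*) [Group G] : Prop := ∀ g : G, (∀ k : ℕ, g ∈ derivedSeries G k) → g = 1

end Pool.Agent.RSMonic
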