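import Mathlib

/-!
# Fox calculus along a homomorphism `f : FreeGroup Y →* Γ`
-/

set_option autoImplicit false

namespace Pool.Agent.RSMonic

open FreeGroup (of)

attribute [-simp] MonoidAlgebra.of_apply

section Lin

variable {Γ : Type*} {A : Type*} [AddCommGroup A]

/-- the additive map `ℤΓ → A` with `γ ↦ g γ`. -/
noncomputable def lin (g : Γ → A) : MonoidAlgebra ℤ Γ →+ A :=
  (Finsupp.liftAddHom fun γ => zmultiplesHom A (g γ)).comp
    (MonoidAlgebra.coeffAddEquiv (R := ℤ) (M := Γ)).toAddMonoidHom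

theorem lin_single (g : Γ → A) (γ : Γ) (z : ℤ) : lin g (MonoidAlgebra.single γ z) = z • g γ := by
  simp [lin]

theorem lin_of [Monoid Γ] (g : Γ → A) (γ : Γ) : lin g (MonoidAlgebra.of ℤ Γ γ) = g γ := by
  rw [MonoidAlgebra.of_apply, lin_single, one_smul]

theorem addHom_ext' {φ ψ : MonoidAlgebra ℤ Γ →+ A}
    (h : ∀ γ, φ (MonoidAlgebra.single γ 1) = ψ (MonoidAlgebra.single γ 1)) : φ = ψ := by
  have : φ.comp (MonoidAlgebra.coeffAddEquiv (R := ℤ) (M := Γ)).symm.toAddMonoidHom =
      ψ.comp (MonoidAlgebra.coeffAddEquiv (R := ℤ) (M := Γ)).symm.toAddMonoidHom := by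
    refine Finsupp.addHom_ext' fun γ => ?_
    refine AddMonoidHom.ext_int ?_
    simpa using h γ
  refine DFunLike.ext _ _ fun a => ?_
  have := DFunLike.congr_fun this a.coeff
  simpa using this

theorem addHom_ext_of [Monoid Γ] {φ ψ : MonoidAlgebra ℤ Γ →+ A}
    (h : ∀ γ, φ (MonoidAlgebra.of ℤ Γ γ) = ψ (MonoidAlgebra.of ℤ Γ γ)) : φ = ψ :=
  addHom_ext' fun γ => by simpa [MonoidAlgebra.of_apply] using h γ

end Lin

section Defs

variable {Y : Type*} {Γ : Type*} [Group Γ]

/-- pairs `(γ, m)` with `(γ, m) (γ', m') = (γ γ', m + γ m')`. -/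
@[ext] structure Mag (Y : Type*) (Γ : Type*) [Group Γ] where
  g : Γ
  m : Y →₀ MonoidAlgebra ℤ Γ

namespace Mag

noncomputable instance : Mul (Mag Y Γ) := ⟨fun a b => ⟨a.g * b.g, a.m + MonoidAlgebra.of ℤ Γ a.g • b.m⟩⟩
noncomputable instance : One (Mag Y Γ) := ⟨⟨1, 0⟩⟩
noncomputable instance : Inv (Mag Y Γ) := ⟨fun a => ⟨a.g⁻¹, -(MonoidAlgebra.of ℤ Γ a.g⁻¹ • a.m)⟩⟩

@[simp] theorem mul_g (a b : Mag Y Γ) : (a * b).g = a.g * b.g := rfl
@[simp] theorem mul_m (a b : Mag Y Γ) :
    (a * b).m = a.m + MonoidAlgebra.of ℤ Γ a.g • b.m := rfl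
@[simp] theorem one_g : (1 : Mag Y Γ).g = 1 := rfl
@[simp] theorem one_m : (1 : Mag Y Γ).m = 0 := rfl
@[simp] theorem inv_g (a : Mag Y Γ) : (a⁻¹).g = a.g⁻¹ := rfl
@[simp] theorem inv_m (a : Mag Y Γ) :
    (a⁻¹).m = -(MonoidAlgebra.of ℤ Γ a.g⁻¹ • a.m) := rfl

noncomputable instance : Group (Mag Y Γ) :=
  Group.ofLeftAxioms
    (by
      intro a b c
      ext1
      · simp [mul_assoc]
      · simp only [mul_m, mul_g, map_mul, smul_add, mul_smul, add_assoc])
    (by
      intro a
      ext1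
      · simp
      · simp)
    (by
      intro a
      ext1
      · simp
      · simp)

/-- first projection -/
def fst : Mag Y Γ →* Γ where
  toFun := Mag.g
  map_one' := rfl
  map_mul' _ _ := rfl

end Mag

/-- the homomorphism `x ↦ (f x, D_f x)`. -/
noncomputable def foxHom (f : FreeGroup Y →* Γ) : FreeGroup Y →* Mag Y Γ :=
  FreeGroup.lift (fun y => (⟨f (of y), Finsupp.single y 1⟩ : Mag Y Γ))

/-- the Fox derivative `D_f : F(Y) → (ℤΓ)^(Y)`, `D_f (x y) = D_f x + f x • D_f y`. -/
noncomputable def fox (f : FreeGroup Y →* Γ) (x : FreeGroup Y) : Y →₀ MonoidAlgebra ℤ Γ :=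
  (foxHom f x).m

theorem foxHom_g (f : FreeGroup Y →* Γ) (x : FreeGroup Y) : (foxHom f x).g = f x := by
  have : (Mag.fst.comp (foxHom f) : FreeGroup Y →* Γ) = f := by
    ext y
    simp [foxHom, Mag.fst]
  exact DFunLike.congr_fun this x

@[simp] theorem fox_one (f : FreeGroup Y →* Γ) : fox f 1 = 0 := by
  simp [fox]

@[simp] theorem fox_of (f : FreeGroup Y →* Γ) (y : Y) : fox f (of y) = Finsupp.single y 1 := by
  simp [fox, foxHom]

theorem fox_mul (f : FreeGroup Y →* Γ) (x y : FreeGroup Y) :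
    fox f (x * y) = fox f x + MonoidAlgebra.of ℤ Γ (f x) • fox f y := by
  simp [fox, foxHom_g]

theorem fox_inv (f : FreeGroup Y →* Γ) (x : FreeGroup Y) :
    fox f x⁻¹ = -(MonoidAlgebra.of ℤ Γ (f x)⁻¹ • fox f x) := by
  simp [fox, foxHom_g]

theorem fox_mul_inv_of_eq (f : FreeGroup Y →* Γ) {x y : FreeGroup Y} (h : f x = f y)
    (h' : fox f x = fox f y) : fox f (x * y⁻¹) = 0 := by
  rw [fox_mul, fox_inv, smul_neg, ← mul_smul, ← map_mul, h, mul_inv_cancel, map_one, one_smul, h',
    add_neg_cancel]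

theorem fox_mul_inv_eq_zero_iff (f : FreeGroup Y →* Γ) {x y : FreeGroup Y} (h : f x = f y) :
    fox f (x * y⁻¹) = 0 ↔ fox f x = fox f y := by
  rw [fox_mul, fox_inv, smul_neg, ← mul_smul, ← map_mul, h, mul_inv_cancel, map_one, one_smul,
    ← sub_eq_add_neg, sub_eq_zero]

end Defs

section Api

variable {Y X : Type*} {Γ Γ' : Type*} [Group Γ] [Group Γ']

/-- two maps `F(Y) → M` which are crossed in the same way and agree on letters are equal -/
theorem crossed_ext {M : Type*} [AddCommGroup M] [Module (MonoidAlgebra ℤ Γ) M]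
    (f : FreeGroup Y →* Γ) (d d' : FreeGroup Y → M)
    (h : ∀ x y, d (x * y) = d x + MonoidAlgebra.of ℤ Γ (f x) • d y)
    (h' : ∀ x y, d' (x * y) = d' x + MonoidAlgebra.of ℤ Γ (f x) • d' y)
    (hy : ∀ y, d (of y) = d' (of y)) (x : FreeGroup Y) : d x = d' x := by
  have h1 : d 1 = 0 := by
    have := h 1 1
    simp only [mul_one, map_one, one_smul] at this
    simpa using this
  have h1' : d' 1 = 0 := by
    have := h' 1 1
    simp only [mul_one, map_one, one_smul] at this
    simpa using this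
  have hi : ∀ x, d x⁻¹ = -(MonoidAlgebra.of ℤ Γ (f x)⁻¹ • d x) := by
    intro x
    have := h x⁻¹ x
    rw [inv_mul_cancel, h1, map_inv] at this
    exact eq_neg_of_add_eq_zero_left this.symm
  have hi' : ∀ x, d' x⁻¹ = -(MonoidAlgebra.of ℤ Γ (f x)⁻¹ • d' x) := by
    intro x
    have := h' x⁻¹ x
    rw [inv_mul_cancel, h1', map_inv] at this
    exact eq_neg_of_add_eq_zero_left this.symm
  induction x using FreeGroup.induction_on with
  | C1 => rw [h1, h1']
  | of y => exact hy y
  | inv_of y _ => rw [hi, hi', hy]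
  | mul x y hx hy => rw [h, h', hx, hy]

/-- naturality in the target group -/
theorem fox_comp_apply (f : FreeGroup Y →* Γ) (l : Γ →* Γ') (x : FreeGroup Y) (y : Y) :
    fox (l.comp f) x y = MonoidAlgebra.mapDomainRingHom ℤ l (fox f x y) := by
  classical
  induction x using FreeGroup.induction_on with
  | C1 => simp
  | of z =>
    rw [fox_of, fox_of, Finsupp.single_apply, Finsupp.single_apply]
    split_ifs <;> simp
  | inv_of z hz =>
    rw [fox_inv, fox_inv, Finsupp.neg_apply, Finsupp.neg_apply, map_neg, Finsupp.smul_apply,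
      Finsupp.smul_apply, smul_eq_mul, smul_eq_mul, map_mul, hz]
    congr 2
    simp [MonoidAlgebra.of_apply]
  | mul x z hx hz =>
    rw [fox_mul, fox_mul, Finsupp.add_apply, Finsupp.add_apply, map_add, Finsupp.smul_apply,
      Finsupp.smul_apply, smul_eq_mul, smul_eq_mul, map_mul, hz, hx]
    congr 2
    simp [MonoidAlgebra.of_apply]

/-- the chain rule -/
theorem fox_chain (α : FreeGroup Y →* FreeGroup X) (f : FreeGroup X →* Γ) (x : FreeGroup Y) :
    fox f (α x) = (fox (f.comp α) x).sum fun y c => c • fox f (α (of y)) := by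
  classical
  refine crossed_ext (f.comp α) (fun x => fox f (α x))
    (fun x => (fox (f.comp α) x).sum fun y c => c • fox f (α (of y))) ?_ ?_ ?_ x
  · intro x y
    simp only [map_mul, fox_mul, MonoidHom.comp_apply]
  · intro x y
    simp only [fox_mul]
    rw [Finsupp.sum_add_index' (by simp) (by intros; rw [add_smul]),
      Finsupp.sum_smul_index' (by simp), Finsupp.smul_sum]
    simp only [smul_eq_mul, mul_smul]
  · intro y
    simp

/-- the fundamental formula -/
theorem fox_fund (f : FreeGroup Y →* Γ) (x : FreeGroup Y) :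
    ((fox f x).sum fun y c => c * (MonoidAlgebra.of ℤ Γ (f (of y)) - 1)) =
      MonoidAlgebra.of ℤ Γ (f x) - 1 := by
  classical
  refine crossed_ext f
    (fun x => (fox f x).sum fun y c => c * (MonoidAlgebra.of ℤ Γ (f (of y)) - 1))
    (fun x => MonoidAlgebra.of ℤ Γ (f x) - 1) ?_ ?_ ?_ x
  · intro x y
    simp only [fox_mul]
    rw [Finsupp.sum_add_index' (by simp) (by intros; rw [add_mul]),
      Finsupp.sum_smul_index' (by simp), Finsupp.smul_sum]
    simp only [smul_eq_mul, mul_assoc]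
  · intro x y
    simp only [map_mul, smul_eq_mul]
    noncomm_ring
  · intro y
    simp

/-- T1 -/
theorem fox_eq_zero_of_mem (f : FreeGroup Y →* Γ) {x : FreeGroup Y}
    (hx : x ∈ ⁅f.ker, f.ker⁆) : fox f x = 0 := by
  let S : Subgroup (FreeGroup Y) :=
    { carrier := {x | f x = 1 ∧ fox f x = 0}
      one_mem' := by simp
      mul_mem' := by
        rintro a b ⟨ha, ha'⟩ ⟨hb, hb'⟩
        refine ⟨by simp [ha, hb], by rw [fox_mul, ha', hb', smul_zero, add_zero]⟩
      inv_mem' := by
        rintro a ⟨ha, ha'⟩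
        refine ⟨by simp [ha], by rw [fox_inv, ha', smul_zero, neg_zero]⟩ }
  have : ⁅f.ker, f.ker⁆ ≤ S := by
    rw [Subgroup.commutator_le]
    intro a ha b hb
    rw [MonoidHom.mem_ker] at ha hb
    refine ⟨by simp [commutatorElement_def, ha, hb], ?_⟩
    simp only [commutatorElement_def, fox_mul, fox_inv, map_mul, map_inv, ha, hb, mul_one, inv_one,
      map_one, one_smul]
    abel
  exact (this hx).2

/-- T2 (Magnus) -/
theorem mem_of_fox_eq_zero (f : FreeGroup Y →* Γ) {x : FreeGroup Y} (hx : f x = 1)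
    (hD : fox f x = 0) : x ∈ ⁅f.ker, f.ker⁆ := by
  classical
  -- a section of `f`
  let s : Γ → FreeGroup Y := fun γ => if h : γ ∈ f.range then
    (if γ = 1 then 1 else h.choose) else 1
  have hs1 : s 1 = 1 := by
    simp only [s]
    split_ifs <;> rfl
  have hs : ∀ γ ∈ f.range, f (s γ) = γ := by
    intro γ h
    simp only [s]
    rw [dif_pos h]
    split_ifs with h1
    · rw [h1, map_one]
    · exact h.choose_spec
  -- the cocycle
  let c : Γ → FreeGroup Y → Additive (Abelianization f.ker) := fun γ g =>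
    if h : γ ∈ f.range then
      Additive.ofMul (Abelianization.of ⟨s γ * g * (s (γ * f g))⁻¹, by
        rw [MonoidHom.mem_ker, map_mul, map_mul, map_inv, hs γ h,
          hs _ (f.range.mul_mem h ⟨g, rfl⟩), mul_inv_cancel]⟩)
    else 0
  have hcmul : ∀ γ ∈ f.range, ∀ g h, c γ (g * h) = c γ g + c (γ * f g) h := by
    intro γ hγ g h
    have hγ' : γ * f g ∈ f.range := f.range.mul_mem hγ ⟨g, rfl⟩
    simp only [c, dif_pos hγ, dif_pos hγ']
    rw [← ofMul_mul, ← MonoidHom.map_mul Abelianization.of]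
    congr 2
    ext1
    have : γ * f (g * h) = γ * f g * f h := by rw [map_mul, mul_assoc]
    simp only [Subgroup.coe_mul, this]
    group
  have hc1 : ∀ γ ∈ f.range, c γ 1 = 0 := by
    intro γ hγ
    have := hcmul γ hγ 1 1
    simpa using this
  let ψ : (Y →₀ MonoidAlgebra ℤ Γ) →+ Additive (Abelianization f.ker) :=
    Finsupp.liftAddHom fun y => lin fun γ => c γ (of y)
  have key : ∀ g : FreeGroup Y, ∀ γ ∈ f.range, ψ (MonoidAlgebra.of ℤ Γ γ • fox f g) = c γ g := by
    intro g
    have hone : ∀ γ ∈ f.range, ψ (MonoidAlgebra.of ℤ Γ γ • fox f 1) = c γ 1 := by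
      intro γ hγ
      rw [fox_one, smul_zero, map_zero, hc1 γ hγ]
    have hmul : ∀ g h : FreeGroup Y,
        (∀ γ ∈ f.range, ψ (MonoidAlgebra.of ℤ Γ γ • fox f g) = c γ g) →
        (∀ γ ∈ f.range, ψ (MonoidAlgebra.of ℤ Γ γ • fox f h) = c γ h) →
        ∀ γ ∈ f.range, ψ (MonoidAlgebra.of ℤ Γ γ • fox f (g * h)) = c γ (g * h) := by
      intro g h hg hh γ hγ
      rw [fox_mul, smul_add, map_add, hg γ hγ, ← mul_smul, ← map_mul,
        hh _ (f.range.mul_mem hγ ⟨g, rfl⟩), hcmul γ hγ]
    have hof : ∀ y : Y, ∀ γ ∈ f.range, ψ (MonoidAlgebra.of ℤ Γ γ • fox f (of y)) = c γ (of y) := by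
      intro y γ hγ
      rw [fox_of, Finsupp.smul_single, smul_eq_mul, mul_one]
      simp only [ψ]
      rw [Finsupp.liftAddHom_apply_single, lin_of]
    induction g using FreeGroup.induction_on with
    | C1 => exact hone
    | of y => exact hof y
    | inv_of y _ =>
      intro γ hγ
      have h1 := hcmul _ (f.range.mul_mem hγ (f.range.inv_mem ⟨of y, rfl⟩)) (of y) (of y)⁻¹
      have h2 : fox f (of y)⁻¹ = -(MonoidAlgebra.of ℤ Γ (f (of y))⁻¹ • fox f (of y)) := fox_inv _ _
      rw [h2, smul_neg, map_neg, ← mul_smul, ← map_mul,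
        hof y _ (f.range.mul_mem hγ (f.range.inv_mem ⟨of y, rfl⟩))]
      rw [mul_inv_cancel, hc1 _ (f.range.mul_mem hγ (f.range.inv_mem ⟨of y, rfl⟩)),
        mul_assoc, inv_mul_cancel, mul_one] at h1
      exact (neg_eq_of_add_eq_zero_right h1.symm)
    | mul g h hg hh => exact hmul g h hg hh
  have h0 := key x 1 f.range.one_mem
  rw [hD, smul_zero, map_zero] at h0
  simp only [c, dif_pos f.range.one_mem] at h0
  have h1 : Abelianization.of (⟨s 1 * x * (s (1 * f x))⁻¹, by
        rw [MonoidHom.mem_ker, map_mul, map_mul, map_inv, hs 1 f.range.one_mem,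
          hs _ (f.range.mul_mem f.range.one_mem ⟨x, rfl⟩), mul_inv_cancel]⟩ : f.ker) = 1 :=
    (ofMul_eq_zero.mp h0.symm)
  have h2 : (⟨s 1 * x * (s (1 * f x))⁻¹, by
        rw [MonoidHom.mem_ker, map_mul, map_mul, map_inv, hs 1 f.range.one_mem,
          hs _ (f.range.mul_mem f.range.one_mem ⟨x, rfl⟩), mul_inv_cancel]⟩ : f.ker) ∈
        commutator f.ker := by
    rw [← Abelianization.ker_of]
    exact h1
  have h3 : s 1 * x * (s (1 * f x))⁻¹ ∈ (commutator f.ker).map f.ker.subtype :=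
    ⟨_, h2, rfl⟩
  rw [hx, mul_one, hs1, one_mul, inv_one, mul_one, commutator_def, Subgroup.map_commutator,
    ← MonoidHom.range_eq_map, Subgroup.range_subtype] at h3
  exact h3

/-- the augmentation ideal of a free group is free -/
theorem fox_unique (c : Y →₀ MonoidAlgebra ℤ (FreeGroup Y))
    (hc : (c.sum fun y a => a * (MonoidAlgebra.of ℤ (FreeGroup Y) (of y) - 1)) = 0) : c = 0 := by
  classical
  let F := FreeGroup Y
  let Δ : MonoidAlgebra ℤ F →+ (Y →₀ MonoidAlgebra ℤ F) := lin fun g => fox (MonoidHom.id F) g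
  have key : ∀ (y : Y) (a : MonoidAlgebra ℤ F),
      Δ (a * (MonoidAlgebra.of ℤ F (of y) - 1)) = Finsupp.single y a := by
    intro y a
    have : Δ.comp (AddMonoidHom.mulRight (MonoidAlgebra.of ℤ F (of y) - 1)) =
        Finsupp.singleAddHom y := by
      refine addHom_ext_of fun g => ?_
      have h1 : fox (MonoidHom.id F) (g * of y) = fox (MonoidHom.id F) g +
          MonoidAlgebra.of ℤ F g • fox (MonoidHom.id F) (of y) := fox_mul _ _ _
      have h2 : fox (MonoidHom.id F) (of y) = Finsupp.single y 1 := fox_of _ _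
      simp only [AddMonoidHom.comp_apply, AddMonoidHom.mulRight_apply, mul_sub, mul_one, map_sub,
        ← map_mul, Δ, lin_of, Finsupp.singleAddHom_apply]
      rw [h1, h2, Finsupp.smul_single, smul_eq_mul, add_sub_cancel_left, mul_one]
    exact DFunLike.congr_fun this a
  have h := congrArg Δ hc
  rw [map_finsuppSum, map_zero] at h
  rw [← Finsupp.sum_single c, ← h]
  exact Finsupp.sum_congr fun y _ => (key y _).symm

end Api

end Pool.Agent.RSMonic
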