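import Pool.Agent.RSMonic.Defs

/-!
# The chain rule for `φ_w`
-/

set_option autoImplicit false

namespace Pool.Agent.RSMonic

open FreeGroup (of)

section Coord

variable {Y X R : Type*} [Ring R]

private theorem sum_coord (c : Y →₀ R) (v : Y → X →₀ R) (x : X) (y0 : Y)
    (h : ∀ y, y ≠ y0 → c y * v y x = 0) :
    (c.sum fun y a => a • v y) x = c y0 * v y0 x := by
  classical
  rw [Finsupp.sum, Finsupp.finsetSum_apply]
  simp only [Finsupp.smul_apply, smul_eq_mul]
  refine Finset.sum_eq_single y0 (fun y _ hy => h y hy) (fun h0 => ?_)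
  rw [Finsupp.notMem_support_iff.mp h0, zero_mul]

private theorem sum_coord_zero (c : Y →₀ R) (v : Y → X →₀ R) (x : X)
    (h : ∀ y, c y * v y x = 0) : (c.sum fun y a => a • v y) x = 0 := by
  classical
  rw [Finsupp.sum, Finsupp.finsetSum_apply]
  simp only [Finsupp.smul_apply, smul_eq_mul]
  exact Finset.sum_eq_zero (fun y _ => h y)

variable {k : ℕ} {B : Type*}

/-- the derivatives of the images of the letters -/
private noncomputable def vv (τ : B → B) (u : Fin k ⊕ B →₀ R) : Fin k ⊕ B → (Fin k ⊕ B →₀ R) :=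
  Sum.elim (fun l : Fin k => if h : l.1 + 1 < k then Finsupp.single (Sum.inl ⟨l.1 + 1, h⟩) 1 else u)
    (fun b => Finsupp.single (Sum.inr (τ b)) 1)

private theorem vv_lt (τ : B → B) (u : Fin k ⊕ B →₀ R) (l : Fin k) (h : l.1 + 1 < k) :
    vv τ u (Sum.inl l) = Finsupp.single (Sum.inl ⟨l.1 + 1, h⟩) 1 := by
  simp [vv, h]

private theorem vv_last (τ : B → B) (u : Fin k ⊕ B →₀ R) (l : Fin k) (h : ¬ l.1 + 1 < k) :
    vv τ u (Sum.inl l) = u := by
  simp [vv, h]

private theorem vv_inr (τ : B → B) (u : Fin k ⊕ B →₀ R) (b : B) :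
    vv τ u (Sum.inr b) = Finsupp.single (Sum.inr (τ b)) 1 := by
  simp [vv]

private theorem abs1 (τ : B → B) (u c : Fin k ⊕ B →₀ R) (i : ℕ)
    (hw : ∀ l : Fin k, l.1 < i → u (Sum.inl l) = 0)
    (hg : ∀ l : Fin k, l.1 < i → c (Sum.inl l) = 0) (l : Fin k)
    (hl : l.1 < i) : (c.sum fun y a => a • vv τ u y) (Sum.inl l) = 0 := by
  classical
  refine sum_coord_zero _ _ _ ?_
  rintro (l' | b)
  · by_cases h : l'.1 + 1 < k
    · rw [vv_lt τ u l' h, Finsupp.single_apply]
      split_ifs with h2
      · have h3 : l'.1 + 1 = l.1 := by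
          have := Sum.inl.inj h2
          exact congrArg Fin.val this
        rw [hg l' (by omega), zero_mul]
      · rw [mul_zero]
    · rw [vv_last τ u l' h, hw l hl, mul_zero]
  · rw [vv_inr, Finsupp.single_apply, if_neg (by simp), mul_zero]

private theorem abs2 [NoZeroDivisors R] (τ : B → B) (hτ : Function.Injective τ)
    (u c : Fin k ⊕ B →₀ R) (i : ℕ) (hi : i ≤ k)
    (hw : ∀ l : Fin k, l.1 < i → u (Sum.inl l) = 0)
    (hwi : ∀ l : Fin k, l.1 = i → u (Sum.inl l) ≠ 0)
    (hg : ∀ l : Fin k, l.1 < i → c (Sum.inl l) = 0)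
    (hc : (c.sum fun y a => a • vv τ u y) = 0) : c = 0 := by
  classical
  -- the last letter
  have hlast : ∀ l : Fin k, ¬ l.1 + 1 < k → c (Sum.inl l) = 0 := by
    intro l hl
    have hlk := l.2
    rcases hi.eq_or_lt with hik | hik
    · exact hg l (by omega)
    · have h1 : (c.sum fun y a => a • vv τ u y) (Sum.inl (⟨i, hik⟩ : Fin k)) = 0 := by
        rw [hc, Finsupp.zero_apply]
      rw [sum_coord _ _ _ (Sum.inl l)] at h1
      · rw [vv_last τ u l hl] at h1
        rcases mul_eq_zero.mp h1 with h2 | h2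
        · exact h2
        · exact absurd h2 (hwi ⟨i, hik⟩ rfl)
      · rintro (l' | b) hne
        · by_cases h : l'.1 + 1 < k
          · rw [vv_lt τ u l' h, Finsupp.single_apply]
            split_ifs with h2
            · have h3 : l'.1 + 1 = i := by
                have := Sum.inl.inj h2
                exact congrArg Fin.val this
              rw [hg l' (by omega), zero_mul]
            · rw [mul_zero]
          · exfalso
            apply hne
            have h5 := l'.2
            congr 1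
            ext1
            omega
        · rw [vv_inr, Finsupp.single_apply, if_neg (by simp), mul_zero]
  ext1 y
  rw [Finsupp.zero_apply]
  rcases y with l | b
  · by_cases hl : l.1 + 1 < k
    · have h1 : (c.sum fun y a => a • vv τ u y) (Sum.inl (⟨l.1 + 1, hl⟩ : Fin k)) = 0 := by
        rw [hc, Finsupp.zero_apply]
      rw [sum_coord _ _ _ (Sum.inl l)] at h1
      · rw [vv_lt τ u l hl, Finsupp.single_eq_same, mul_one] at h1
        exact h1
      · rintro (l' | b) hne
        · by_cases h : l'.1 + 1 < k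
          · rw [vv_lt τ u l' h, Finsupp.single_apply, if_neg, mul_zero]
            intro h2
            apply hne
            have h3 : l'.1 + 1 = l.1 + 1 := by
              have := Sum.inl.inj h2
              exact congrArg Fin.val this
            congr 1
            ext1
            omega
          · rw [hlast l' h, zero_mul]
        · rw [vv_inr, Finsupp.single_apply, if_neg (by simp), mul_zero]
    · exact hlast l hl
  · have h1 : (c.sum fun y a => a • vv τ u y) (Sum.inr (τ b)) = 0 := by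
      rw [hc, Finsupp.zero_apply]
    rw [sum_coord _ _ _ (Sum.inr b)] at h1
    · rw [vv_inr, Finsupp.single_eq_same, mul_one] at h1
      exact h1
    · rintro (l' | b') hne
      · by_cases h : l'.1 + 1 < k
        · rw [vv_lt τ u l' h, Finsupp.single_apply, if_neg (by simp), mul_zero]
        · rw [hlast l' h, zero_mul]
      · rw [vv_inr, Finsupp.single_apply, if_neg, mul_zero]
        intro h2
        apply hne
        rw [hτ (Sum.inr.inj h2)]

end Coord

section L
variable {k : ℕ} {B Γ : Type*} [Group Γ]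

private theorem fox_phi_of (τ : B → B) (w : FreeGroup (Fin k ⊕ B))
    (f : FreeGroup (Fin k ⊕ B) →* Γ) (y : Fin k ⊕ B) :
    fox f (phi τ w (of y)) = vv τ (fox f w) y := by
  have h1 : phi τ w (of y) = Sum.elim (fun l : Fin k => if h : l.1 + 1 < k then
      of (Sum.inl ⟨l.1 + 1, h⟩) else w) (fun b => of (Sum.inr (τ b))) y := by
    exact FreeGroup.lift_apply_of
  rw [h1]
  rcases y with l | b
  · simp only [vv, Sum.elim_inl]
    split_ifs
    · exact fox_of _ _
    · rfl
  · simp only [vv, Sum.elim_inr]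
    exact fox_of _ _

private theorem fox_phi (τ : B → B) (w : FreeGroup (Fin k ⊕ B))
    (f : FreeGroup (Fin k ⊕ B) →* Γ) (g : FreeGroup (Fin k ⊕ B)) :
    fox f (phi τ w g) = (fox (f.comp (phi τ w)) g).sum fun y a => a • vv τ (fox f w) y := by
  have h1 : fox f (phi τ w g) =
      (fox (f.comp (phi τ w)) g).sum fun y a => a • fox f (phi τ w (of y)) :=
    fox_chain (phi τ w) f g
  rw [h1]
  refine Finsupp.sum_congr fun y _ => ?_
  rw [fox_phi_of]

theorem lemmaL1 (τ : B → B) (w : FreeGroup (Fin k ⊕ B)) (f : FreeGroup (Fin k ⊕ B) →* Γ) (i : ℕ)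
    (hw : ∀ l : Fin k, l.1 < i → fox f w (Sum.inl l) = 0) (g : FreeGroup (Fin k ⊕ B))
    (hg : ∀ l : Fin k, l.1 < i → fox (f.comp (phi τ w)) g (Sum.inl l) = 0) (l : Fin k)
    (hl : l.1 < i) : fox f (phi τ w g) (Sum.inl l) = 0 := by
  have h1 := abs1 τ (fox f w) (fox (f.comp (phi τ w)) g) i hw hg l hl
  rwa [← fox_phi τ w f g] at h1

theorem lemmaL2 [NoZeroDivisors (MonoidAlgebra ℤ Γ)] (τ : B → B) (hτ : Function.Injective τ)
    (w : FreeGroup (Fin k ⊕ B)) (f : FreeGroup (Fin k ⊕ B) →* Γ) (i : ℕ) (hi : i ≤ k)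
    (hw : ∀ l : Fin k, l.1 < i → fox f w (Sum.inl l) = 0)
    (hwi : ∀ l : Fin k, l.1 = i → fox f w (Sum.inl l) ≠ 0) (g : FreeGroup (Fin k ⊕ B))
    (hg : ∀ l : Fin k, l.1 < i → fox (f.comp (phi τ w)) g (Sum.inl l) = 0)
    (h0 : fox f (phi τ w g) = 0) : fox (f.comp (phi τ w)) g = 0 :=
  abs2 τ hτ (fox f w) (fox (f.comp (phi τ w)) g) i hi hw hwi hg ((fox_phi τ w f g).symm.trans h0)

end L

end Pool.Agent.RSMonic
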