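import Pool.Agent.RSMonic.Chain
import Pool.Agent.RSMonic.Sep
import Pool.Agent.RSMonic.Coset
import Pool.Agent.RSMonic.LemmaL

/-!
# P6: injectivity of `φ_w` and triviality of `H_i ∩ ⋂ F_m`
-/

set_option autoImplicit false

namespace Pool.Agent.RSMonic

open FreeGroup (of)

section Inter
variable {k : ℕ} {B : Type*}

private theorem p6_uniqueProds (Y : Type*) : UniqueProds (FreeGroup Y) := by
  let φ : Monoid.End (FreeGroup Y) := 1
  refine uniqueProds_of_chain (chain φ) (chain_antitone φ) ?_ (chain_uniqueProds φ)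
  intro x hx
  refine freeGroup_rs Y x fun m => ?_
  rw [← chain_one_eq]
  exact hx m

theorem phi_injective (hk : 0 < k) (τ : B → B) (hτ : Function.Injective τ)
    (w : FreeGroup (Fin k ⊕ B)) (hw : w ∉ Hs k B 1) : Function.Injective (phi τ w) := by
  have : UniqueProds (FreeGroup (Fin k ⊕ B)) := p6_uniqueProds _
  have hmain : MonoidHom.ker (phi τ w : FreeGroup (Fin k ⊕ B) →* FreeGroup (Fin k ⊕ B)) = ⊥ := by
    apply perfect_eq_bot
    intro g hg
    rw [MonoidHom.mem_ker] at hg
    refine mem_of_fox_eq_zero _ hg ?_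
    have := lemmaL2 τ hτ w (MonoidHom.id (FreeGroup (Fin k ⊕ B))) 0 (Nat.zero_le _)
      (fun l hl => absurd hl (Nat.not_lt_zero _)) ?_ g
      (fun l hl => absurd hl (Nat.not_lt_zero _)) ?_
    · simpa using this
    · intro l hl h0
      apply hw
      obtain ⟨h, hh, hfh, -⟩ := coset_lemma (up k B 1) (MonoidHom.id (FreeGroup (Fin k ⊕ B)))
        (Function.injective_id.injOn) w (by
          intro x hx
          simp only [up, Set.mem_ofPred_eq, not_forall] at hx
          obtain ⟨l', hl', hl''⟩ := hx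
          have : l' = l := by
            ext
            omega
          rw [hl', this]
          exact h0)
      have : h = w := hfh
      rw [← this]
      exact hh
    · have h1 : (phi τ w) g = 1 := hg
      rw [h1, fox_one]
  exact (MonoidHom.ker_eq_bot_iff _).mp hmain

/-- `(φ^M) x ∈ F_m ↔ x ∈ F_m` -/
private theorem p6_pow_mem {Y : Type*} (φ : Monoid.End (FreeGroup Y)) {m : ℕ} (M : ℕ)
    {x : FreeGroup Y} : (φ ^ M) x ∈ chain φ m ↔ x ∈ chain φ m := by
  induction M generalizing x with
  | zero => simp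
  | succ M ih =>
    rw [pow_succ', Monoid.End.coe_mul, Function.comp_apply, map_mem_chain_iff, ih]

/-- the homomorphism `π_m φ^r` -/
noncomputable def p6Pr {Y : Type*} (φ : Monoid.End (FreeGroup Y)) (m r : ℕ) :
    FreeGroup Y →* FreeGroup Y ⧸ chain φ m :=
  (QuotientGroup.mk' (chain φ m)).comp (φ ^ r : Monoid.End (FreeGroup Y))

theorem p6Pr_apply {Y : Type*} (φ : Monoid.End (FreeGroup Y)) (m r : ℕ) (x : FreeGroup Y) :
    p6Pr φ m r x = QuotientGroup.mk' (chain φ m) ((φ ^ r) x) := rfl

theorem p6Pr_comp {Y : Type*} (φ : Monoid.End (FreeGroup Y)) (m r : ℕ) :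
    (p6Pr φ m r).comp φ = p6Pr φ m (r + 1) := by
  refine DFunLike.ext _ _ fun x => ?_
  simp only [MonoidHom.comp_apply, p6Pr_apply, pow_succ, Monoid.End.coe_mul, Function.comp_apply]
  rfl

/-- the injective endomorphism of `F/F_m` induced by `φ^r` -/
noncomputable def p6Ebar {Y : Type*} (φ : Monoid.End (FreeGroup Y)) (m r : ℕ) :
    FreeGroup Y ⧸ chain φ m →* FreeGroup Y ⧸ chain φ m :=
  QuotientGroup.lift (chain φ m) (p6Pr φ m r) (by
    intro x hx
    rw [MonoidHom.mem_ker, p6Pr_apply, QuotientGroup.mk'_apply, QuotientGroup.eq_one_iff]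
    exact (p6_pow_mem φ r).mpr hx)

theorem p6Ebar_comp {Y : Type*} (φ : Monoid.End (FreeGroup Y)) (m r : ℕ) :
    (p6Ebar φ m r).comp (QuotientGroup.mk' (chain φ m)) = p6Pr φ m r := by
  ext y
  rfl

theorem p6Ebar_injective {Y : Type*} (φ : Monoid.End (FreeGroup Y)) (m r : ℕ) :
    Function.Injective (p6Ebar φ m r) := by
  rw [injective_iff_map_eq_one]
  intro a ha
  obtain ⟨x, rfl⟩ := QuotientGroup.mk'_surjective (chain φ m) a
  have h1 : p6Pr φ m r x = 1 := by
    rw [← p6Ebar_comp]
    exact ha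
  rw [p6Pr_apply, QuotientGroup.mk'_apply, QuotientGroup.eq_one_iff, p6_pow_mem] at h1
  rwa [QuotientGroup.mk'_apply, QuotientGroup.eq_one_iff]

theorem p6_fox_pr_iff {Y : Type*} (φ : Monoid.End (FreeGroup Y)) (m r : ℕ) (x : FreeGroup Y)
    (y : Y) : fox (p6Pr φ m r) x y = 0 ↔ fox (QuotientGroup.mk' (chain φ m)) x y = 0 := by
  rw [← p6Ebar_comp, fox_comp_apply]
  constructor
  · intro h
    have hinj : Function.Injective (MonoidAlgebra.mapDomainRingHom ℤ (p6Ebar φ m r)) := by
      have := MonoidAlgebra.mapDomain_injective (R := ℤ) (p6Ebar_injective φ m r)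
      exact this
    exact hinj (by rw [h, map_zero])
  · intro h
    rw [h, map_zero]

theorem p6_alive_mono {Y : Type*} (φ : Monoid.End (FreeGroup Y)) {m m' : ℕ} (hm : m ≤ m')
    (x : FreeGroup Y) (y : Y) (h : fox (QuotientGroup.mk' (chain φ m')) x y = 0) :
    fox (QuotientGroup.mk' (chain φ m)) x y = 0 := by
  let l : FreeGroup Y ⧸ chain φ m' →* FreeGroup Y ⧸ chain φ m :=
    QuotientGroup.map _ _ (MonoidHom.id _) (by
      intro z hz
      exact chain_antitone φ hm hz)
  have : (QuotientGroup.mk' (chain φ m)) = l.comp (QuotientGroup.mk' (chain φ m')) := by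
    ext y
    rfl
  rw [this, fox_comp_apply, h, map_zero]

/-- the derivatives of elements of a free factor vanish outside it -/
theorem p6_fox_closure {X Γ : Type*} [Group Γ] (S : Set X) (f : FreeGroup X →* Γ)
    {x : FreeGroup X} (hx : x ∈ Subgroup.closure (of '' S)) {y : X} (hy : y ∉ S) :
    fox f x y = 0 := by
  classical
  induction hx using Subgroup.closure_induction with
  | mem z hz =>
    obtain ⟨s, hs, rfl⟩ := hz
    rw [fox_of, Finsupp.single_apply, if_neg]
    rintro rfl
    exact hy hs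
  | one => simp
  | mul a b _ _ ha hb => rw [fox_mul, Finsupp.add_apply, Finsupp.smul_apply, ha, hb]; simp
  | inv a _ ha => rw [fox_inv, Finsupp.neg_apply, Finsupp.smul_apply, ha]; simp

/-- restriction of the Fox derivative to a free factor -/
theorem p6_fox_map {X Z Γ : Type*} [Group Γ] (j : X → Z) (hj : Function.Injective j)
    (f : FreeGroup Z →* Γ) (g : FreeGroup X) (s : X) :
    fox f (FreeGroup.map j g) (j s) = fox (f.comp (FreeGroup.map j)) g s := by
  classical
  rw [fox_chain]
  simp only [FreeGroup.map.of, fox_of, Finsupp.smul_single, smul_eq_mul, mul_one]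
  rw [Finsupp.sum, Finsupp.finsetSum_apply]
  simp only [Finsupp.single_apply, hj.eq_iff]
  rw [Finset.sum_ite_eq']
  split_ifs with h
  · rfl
  · exact (Finsupp.notMem_support_iff.mp h).symm

theorem inter_trivial (τ : B → B) (hτ : Function.Injective τ) (w : FreeGroup (Fin k ⊕ B)) (i : ℕ)
    (hi : i ≤ k)
    (hdead : ∀ m, ∀ l : Fin k, l.1 < i →
      fox (QuotientGroup.mk' (chain (phi τ w) m)) w (Sum.inl l) = 0)
    (halive : ∃ m, ∀ l : Fin k, l.1 = i →
      fox (QuotientGroup.mk' (chain (phi τ w) m)) w (Sum.inl l) ≠ 0)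
    (x : FreeGroup (Fin k ⊕ B)) (hx : x ∈ Hs k B i) (hx' : ∀ m, x ∈ chain (phi τ w) m) : x = 1 := by
  classical
  set φ : Monoid.End (FreeGroup (Fin k ⊕ B)) := phi τ w with hφ
  obtain ⟨m₀, hm₀⟩ := halive
  have hdead' : ∀ m r, ∀ l : Fin k, l.1 < i → fox (p6Pr φ m r) w (Sum.inl l) = 0 := by
    intro m r l hl
    rw [p6_fox_pr_iff]
    exact hdead m l hl
  have halive' : ∀ m r, m₀ ≤ m → ∀ l : Fin k, l.1 = i → fox (p6Pr φ m r) w (Sum.inl l) ≠ 0 := by
    intro m r hm l hl h
    rw [p6_fox_pr_iff] at h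
    exact hm₀ l hl (p6_alive_mono φ hm w _ h)
  -- claim A
  have hA : ∀ M, ∀ x ∈ Hs k B i, ∀ m r, ∀ l : Fin k, l.1 < i →
      fox (p6Pr φ m r) ((φ ^ M) x) (Sum.inl l) = 0 := by
    intro M
    induction M with
    | zero =>
      intro x hx m r l hl
      rw [pow_zero, Monoid.End.coe_one, id_eq]
      refine p6_fox_closure (up k B i) _ hx ?_
      intro h
      exact absurd (h l rfl) (by omega)
    | succ M ih =>
      intro x hx m r l hl
      rw [pow_succ', Monoid.End.coe_mul, Function.comp_apply]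
      refine lemmaL1 τ w (p6Pr φ m r) i (hdead' m r) ((φ ^ M) x) ?_ l hl
      intro l' hl'
      have := ih x hx m (r + 1) l' hl'
      rw [← p6Pr_comp] at this
      exact this
  -- claim B
  have hB : ∀ M, ∀ x ∈ Hs k B i, ∀ m r, m₀ ≤ m → fox (p6Pr φ m r) ((φ ^ M) x) = 0 →
      fox (p6Pr φ m (r + M)) x = 0 := by
    intro M
    induction M with
    | zero =>
      intro x hx m r hm h
      simpa using h
    | succ M ih =>
      intro x hx m r hm h
      have : UniqueProds (FreeGroup (Fin k ⊕ B) ⧸ chain φ m) := chain_uniqueProds φ m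
      rw [pow_succ', Monoid.End.coe_mul, Function.comp_apply] at h
      have h1 : fox ((p6Pr φ m r).comp φ) ((φ ^ M) x) = 0 := by
        refine lemmaL2 τ hτ w (p6Pr φ m r) i hi (hdead' m r) (halive' m r hm) ((φ ^ M) x) ?_ h
        intro l' hl'
        have := hA M x hx m (r + 1) l' hl'
        rw [← p6Pr_comp] at this
        exact this
      rw [p6Pr_comp] at h1
      have h2 := ih x hx m (r + 1) hm h1
      rwa [show r + (M + 1) = r + 1 + M by omega]
  -- the free factor
  let j : FreeGroup (up k B i) →* FreeGroup (Fin k ⊕ B) := FreeGroup.map Subtype.val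
  have hjrange : j.range = Hs k B i := by
    change (FreeGroup.map (Subtype.val : up k B i → Fin k ⊕ B)).range = _
    rw [FreeGroup.range_map, Subtype.range_coe]
    rfl
  have hjr : ∀ g, j g ∈ Hs k B i := by
    intro g
    rw [← hjrange]
    exact ⟨g, rfl⟩
  have hC : ∀ m, m₀ ≤ m → (chain φ (m + 1)).comap j ≤
      ⁅(chain φ m).comap j, (chain φ m).comap j⁆ := by
    intro m hm g hg
    rw [Subgroup.mem_comap, mem_chain_succ] at hg
    obtain ⟨M, hM⟩ := hg
    have hker : (QuotientGroup.mk' (chain φ m)).ker = chain φ m := QuotientGroup.ker_mk' _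
    have h1 : fox (p6Pr φ m 0) ((φ ^ M) (j g)) = 0 := by
      have : p6Pr φ m 0 = QuotientGroup.mk' (chain φ m) := by
        ext y
        rfl
      rw [this]
      apply fox_eq_zero_of_mem
      rw [hker]
      exact hM
    have h2 := hB M (j g) (hjr g) m 0 hm h1
    rw [Nat.zero_add] at h2
    have h3 : fox ((p6Pr φ m M).comp j) g = 0 := by
      ext1 s
      have := p6_fox_map (Subtype.val : up k B i → Fin k ⊕ B) Subtype.val_injective
        (p6Pr φ m M) g s
      rw [← this]
      change fox (p6Pr φ m M) (j g) s.val = _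
      rw [h2]
      rfl
    have h4 : ((p6Pr φ m M).comp j).ker = (chain φ m).comap j := by
      ext z
      rw [MonoidHom.mem_ker, MonoidHom.comp_apply, p6Pr_apply, QuotientGroup.mk'_apply,
        QuotientGroup.eq_one_iff, p6_pow_mem, Subgroup.mem_comap]
    rw [← h4]
    refine mem_of_fox_eq_zero _ ?_ h3
    rw [MonoidHom.comp_apply, p6Pr_apply, QuotientGroup.mk'_apply, QuotientGroup.eq_one_iff]
    exact Subgroup.commutator_le_self _ hM
  have hD : ∀ n, (chain φ (m₀ + n)).comap j ≤ derivedSeries (FreeGroup (up k B i)) n := by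
    intro n
    induction n with
    | zero => simp
    | succ n ih =>
      rw [derivedSeries_succ]
      refine (hC (m₀ + n) (Nat.le_add_right _ _)).trans ?_
      exact Subgroup.commutator_mono ih ih
  have hx2 : x ∈ j.range := by
    rw [hjrange]
    exact hx
  obtain ⟨g, rfl⟩ := hx2
  have hg : g = 1 := freeGroup_rs _ g fun n => hD n (hx' _)
  rw [hg, map_one]

end Inter

end Pool.Agent.RSMonic
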