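import Pool.Agent.RSMonic.Dec
import Pool.Agent.RSMonic.Comp

/-!
# The search for a monic form, and its computability
-/

set_option autoImplicit false

namespace Pool.Agent.RSMonic

open FreeGroup (of)

/-! ## substitutions -/

/-- substitute `x_i ↦ A[i]` for `i < n` -/
def subst (n : ℕ) (A : List (List (ℕ × Bool))) (W : List (ℕ × Bool)) : List (ℕ × Bool) :=
  W.flatMap fun z => if z.1 < n then (if z.2 then A.getD z.1 [] else inv (A.getD z.1 [])) else [z]

/-- the endomorphism `x_i ↦ A[i]` for `i < n`, `x_i ↦ x_i` for `i ≥ n` -/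
def substHom (n : ℕ) (A : List (List (ℕ × Bool))) : FreeGroup ℕ →* FreeGroup ℕ :=
  FreeGroup.lift fun i => if i < n then FreeGroup.mk (A.getD i []) else of i

theorem mk_subst (n : ℕ) (A : List (List (ℕ × Bool))) (W : List (ℕ × Bool)) :
    FreeGroup.mk (subst n A W) = substHom n A (FreeGroup.mk W) := by
  induction W with
  | nil => rw [subst, List.flatMap_nil, ← FreeGroup.one_eq_mk, map_one]
  | cons z W ih =>
    rw [pres_mk_cons z W, map_mul, ← ih, substHom, pres_lift_single, subst, List.flatMap_cons,
      pres_mk_append]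
    congr 1
    obtain ⟨i, b⟩ := z
    by_cases hi : i < n
    · cases b
      · simp [hi, pres_mk_inv]
      · simp [hi]
    · cases b
      · simp only [hi, if_false]
        rfl
      · simp only [hi, if_false]
        rfl

/-- `A` and `B` define mutually inverse automorphisms -/
def autOK (n : ℕ) (A B : List (List (ℕ × Bool))) : Bool :=
  decide (∀ i ∈ List.range n, FreeGroup.reduce (subst n A (B.getD i [])) = [(i, true)] ∧
    FreeGroup.reduce (subst n B (A.getD i [])) = [(i, true)])

theorem exists_aut_of_autOK {n : ℕ} {A B : List (List (ℕ × Bool))} (h : autOK n A B = true) :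
    ∃ α : FreeGroup ℕ ≃* FreeGroup ℕ, (∀ x, α x = substHom n A x) ∧ ∀ i, n ≤ i → α (of i) = of i := by
  rw [autOK, decide_eq_true_eq] at h
  have key : ∀ A B : List (List (ℕ × Bool)),
      (∀ i ∈ List.range n, FreeGroup.reduce (subst n A (B.getD i [])) = [(i, true)]) →
      (substHom n A).comp (substHom n B) = MonoidHom.id _ := by
    intro A B hAB
    refine FreeGroup.ext_hom _ _ fun i => ?_
    rw [MonoidHom.comp_apply, MonoidHom.id_apply]
    by_cases hi : i < n
    · have h1 : substHom n B (of i) = FreeGroup.mk (B.getD i []) := by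
        rw [substHom, FreeGroup.lift_apply_of, if_pos hi]
      rw [h1, ← mk_subst]
      have h2 := hAB i (List.mem_range.2 hi)
      rw [← FreeGroup.toWord_mk] at h2
      rw [← FreeGroup.mk_toWord (x := FreeGroup.mk (subst n A (B.getD i []))), h2]
      rfl
    · have h1 : ∀ A, substHom n A (of i) = of i := by
        intro A
        rw [substHom, FreeGroup.lift_apply_of, if_neg hi]
      rw [h1, h1]
  refine ⟨MonoidHom.toMulEquiv (substHom n A) (substHom n B)
    (key B A fun i hi => (h i hi).2) (key A B fun i hi => (h i hi).1), fun x => rfl, ?_⟩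
  intro i hi
  show substHom n A (of i) = of i
  rw [substHom, FreeGroup.lift_apply_of, if_neg (by omega)]

theorem exists_table (n : ℕ) (α : FreeGroup ℕ ≃* FreeGroup ℕ)
    (hα : ∀ i, n ≤ i → α (of i) = of i) :
    ∀ x, substHom n ((List.range n).map fun i => (α (of i)).toWord) x = α x := by
  have : substHom n ((List.range n).map fun i => (α (of i)).toWord) = α.toMonoidHom := by
    refine FreeGroup.ext_hom _ _ fun i => ?_
    rw [substHom, FreeGroup.lift_apply_of]
    split_ifs with hi
    · rw [List.getD_eq_getElem?_getD, List.getElem?_map, List.getElem?_range hi]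
      exact FreeGroup.mk_toWord
    · exact (hα i (by omega)).symm
  exact fun x => DFunLike.congr_fun this x

/-! ## transfer of residual solvability -/

theorem rs_of_surjective_injective {G H : Type*} [Group G] [Group H] (e : G ≃* H) (h : RS G) :
    RS H := by
  intro x hx
  have : e.symm x = 1 := by
    refine h _ fun k => ?_
    have h1 : (derivedSeries H k).map (e.symm : H →* G) ≤ derivedSeries G k :=
      map_derivedSeries_le_derivedSeries _ _
    exact h1 ⟨x, hx k, rfl⟩
  rw [← e.apply_symm_apply x, this, map_one]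

theorem rs_transfer (n : ℕ) (r r' : List (ℕ × Bool)) (α : FreeGroup ℕ ≃* FreeGroup ℕ)
    (hα : ∀ i, n ≤ i → α (of i) = of i)
    (h : FreeGroup.mk r' = α (FreeGroup.mk r) ∨ FreeGroup.mk r' = (α (FreeGroup.mk r))⁻¹) :
    RS (OneRel n r) ↔ RS (OneRel n r') := by
  have h1 : (Subgroup.normalClosure (({FreeGroup.mk r} : Set (FreeGroup ℕ)) ∪ of '' Set.Ici n)).map
      (α : FreeGroup ℕ →* FreeGroup ℕ) =
      Subgroup.normalClosure (({FreeGroup.mk r'} : Set (FreeGroup ℕ)) ∪ of '' Set.Ici n) := by
    rw [Subgroup.map_normalClosure _ _ α.surjective, Set.image_union, Set.image_singleton]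
    have h2 : (α : FreeGroup ℕ →* FreeGroup ℕ) '' (of '' Set.Ici n) = of '' Set.Ici n := by
      rw [Set.image_image]
      exact Set.image_congr fun i hi => hα i hi
    rw [h2]
    apply le_antisymm
    · refine Subgroup.normalClosure_le_normal ?_
      rintro x (hx | hx)
      · rw [Set.mem_singleton_iff] at hx
        subst hx
        rcases h with h | h
        · rw [SetLike.mem_coe]
          show α (FreeGroup.mk r) ∈ _
          rw [← h]
          exact Subgroup.subset_normalClosure (Or.inl rfl)
        · rw [SetLike.mem_coe]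
          show α (FreeGroup.mk r) ∈ _
          rw [← inv_inv (α (FreeGroup.mk r)), ← h]
          exact Subgroup.inv_mem _ (Subgroup.subset_normalClosure (Or.inl rfl))
      · exact Subgroup.subset_normalClosure (Or.inr hx)
    · refine Subgroup.normalClosure_le_normal ?_
      rintro x (hx | hx)
      · rw [Set.mem_singleton_iff] at hx
        subst hx
        have h3 : (α : FreeGroup ℕ →* FreeGroup ℕ) (FreeGroup.mk r) ∈
            Subgroup.normalClosure (({(α : FreeGroup ℕ →* FreeGroup ℕ) (FreeGroup.mk r)} :
              Set (FreeGroup ℕ)) ∪ of '' Set.Ici n) :=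
          Subgroup.subset_normalClosure (Or.inl rfl)
        rcases h with h | h
        · rw [h]
          exact h3
        · rw [h]
          exact Subgroup.inv_mem _ h3
      · exact Subgroup.subset_normalClosure (Or.inr hx)
  have e : OneRel n r ≃* OneRel n r' := QuotientGroup.congr _ _ α h1
  exact ⟨fun hr => rs_of_surjective_injective e hr, fun hr => rs_of_surjective_injective e.symm hr⟩

/-! ## the search -/

/-- a certificate: tables of an automorphism and its inverse, and normalised monic data `κ, K, W` -/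
abbrev CertT : Type := (List (List (ℕ × Bool)) × List (List (ℕ × Bool))) × ℕ × ℕ × LW

def validB (n κ K : ℕ) (W : LW) : Bool :=
  decide (2 ≤ n) && decide (κ ≤ K) && decide (FreeGroup.reduce W = W) &&
    decide (∀ z ∈ W, (z.1.1 = 1 ∧ κ ≤ z.1.2 ∧ z.1.2 < K) ∨ (2 ≤ z.1.1 ∧ z.1.1 < n)) &&
    (decide (κ = K) || decide (∃ z ∈ W, z.1 = (1, κ)))

theorem validB_iff (n κ K : ℕ) (W : LW) : validB n κ K W = true ↔ Valid n κ K W := by
  simp only [validB, Valid, Bool.and_eq_true, Bool.or_eq_true, decide_eq_true_eq]
  tauto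

def check (p : ℕ × List (ℕ × Bool)) (c : CertT) : Bool :=
  validB p.1 c.2.1 c.2.2.1 c.2.2.2 && autOK p.1 c.1.1 c.1.2 &&
    (decide (FreeGroup.reduce (subst p.1 c.1.1 p.2) = FreeGroup.reduce (monicRel c.2.2.1 c.2.2.2)) ||
      decide (FreeGroup.reduce (subst p.1 c.1.1 p.2) =
        FreeGroup.reduce (inv (monicRel c.2.2.1 c.2.2.2))))

/-- one step of the search -/
def step (p : ℕ × List (ℕ × Bool)) (m : ℕ) : Option Bool :=
  (Encodable.decode m : Option CertT).bind fun c =>
    if check p c then some (dec c.2.1 c.2.2.1 c.2.2.2) else none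

theorem mk_eq_of_reduce_eq {α : Type*} [DecidableEq α] {L L' : List (α × Bool)}
    (h : FreeGroup.reduce L = FreeGroup.reduce L') : FreeGroup.mk L = FreeGroup.mk L' := by
  rw [← FreeGroup.mk_toWord (x := FreeGroup.mk L), ← FreeGroup.mk_toWord (x := FreeGroup.mk L'),
    FreeGroup.toWord_mk, FreeGroup.toWord_mk, h]

theorem check_sound (n : ℕ) (r : List (ℕ × Bool)) (c : CertT) (h : check (n, r) c = true) :
    dec c.2.1 c.2.2.1 c.2.2.2 = true ↔ RS (OneRel n r) := by
  rw [check, Bool.and_eq_true, Bool.and_eq_true, Bool.or_eq_true, decide_eq_true_eq,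
    decide_eq_true_eq, validB_iff] at h
  obtain ⟨⟨h1, h2⟩, h3⟩ := h
  rw [dec_correct n _ _ _ h1]
  obtain ⟨α, hα, hα'⟩ := exists_aut_of_autOK h2
  refine (rs_transfer n r _ α hα' ?_).symm
  rw [hα, ← mk_subst]
  rcases h3 with h3 | h3
  · exact Or.inl (mk_eq_of_reduce_eq h3).symm
  · right
    rw [mk_eq_of_reduce_eq h3, pres_mk_inv, inv_inv]

end Pool.Agent.RSMonic
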